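import Pool.Agent.Helper64.Perc.BoxProb

/-!
The independent sigma-algebras of the counts of (unit cube) times (mark class), and the
measurability of the bad event of a cube.
-/

open MeasureTheory ProbabilityTheory

namespace Pool.Agent.Helper64.Perc

variable {d : ℕ}

/-- The mark classes `{0}, ..., {M-1}` and `[M, ∞)`. -/
def cls (M k : ℕ) : Set ℕ := if k < M then {k} else Set.Ici M

/-- The product of a unit cube and a mark class. -/
def atom (M : ℕ) (i : (Fin d → ℤ) × Fin (M + 1)) : Set (Eu d × ℕ) := cell 0 i.1 ×ˢ cls M i.2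

lemma disjoint_cls {M : ℕ} {k l : Fin (M + 1)} (h : k ≠ l) :
    Disjoint (cls M k) (cls M l) := by
  unfold cls
  have hk := k.2
  have hl := l.2
  have hne : (k : ℕ) ≠ l := fun e => h (Fin.ext e)
  refine Set.disjoint_left.2 fun x h1 h2 => ?_
  split_ifs at h1 h2 with a b b
  · exact hne ((Set.mem_singleton_iff.1 h1).symm.trans (Set.mem_singleton_iff.1 h2))
  · have e1 := Set.mem_singleton_iff.1 h1
    have e2 : M ≤ x := h2
    omega
  · have e1 := Set.mem_singleton_iff.1 h2
    have e2 : M ≤ x := h1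
    omega
  · omega

lemma disjoint_cell {j : ℕ} {u v : Fin d → ℤ} (h : u ≠ v) :
    Disjoint (cell j u : Set (Eu d)) (cell j v) := by
  refine Set.disjoint_left.2 fun x h1 h2 => h ?_
  funext i
  exact (h1 i).symm.trans (h2 i)

lemma disjoint_atom {M : ℕ} {i j : (Fin d → ℤ) × Fin (M + 1)} (h : i ≠ j) :
    Disjoint (atom M i) (atom M j) := by
  unfold atom
  rw [Set.disjoint_prod]
  by_cases h1 : i.1 = j.1
  · right
    exact disjoint_cls fun h2 => h (Prod.ext h1 h2)
  · left
    exact disjoint_cell h1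

/-- `cnt` is additive on finite disjoint unions. -/
lemma cnt_biUnion {ι : Type*} (P : Set (Eu d)) (D : Eu d → ℕ) (s : Finset ι)
    (S : ι → Set (Eu d × ℕ)) (hS : (s : Set ι).PairwiseDisjoint S) :
    cnt P D (⋃ i ∈ s, S i) = ∑ i ∈ s, cnt P D (S i) := by
  classical
  induction s using Finset.induction_on with
  | empty => simp [cnt]
  | insert a s ha ih =>
    rw [Finset.set_biUnion_insert, Finset.sum_insert ha, ← ih (hS.subset (by simp))]
    unfold cnt
    rw [← Set.encard_union_eq]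
    · congr 1
      ext x
      simp only [Set.mem_ofPred_eq, Set.mem_union]
      tauto
    · refine Set.disjoint_left.2 ?_
      rintro x ⟨_, h1⟩ ⟨_, h2⟩
      rw [Set.mem_iUnion₂] at h2
      obtain ⟨i, hi, h2⟩ := h2
      have hne : a ≠ i := fun e => ha (e ▸ hi)
      exact Set.disjoint_left.1 (hS (by simp) (by simp [hi]) hne) h1 h2

lemma mem_units {L : ℕ} {c u : Fin d → ℤ} : u ∈ units L c ↔ anc L u = c := by
  unfold units anc
  rw [Fintype.mem_piFinset, funext_iff]
  refine forall_congr' fun i => ?_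
  have hp : (0 : ℤ) < 2 ^ L := by positivity
  rw [Finset.mem_Ico]
  constructor
  · rintro ⟨h1, h2⟩
    apply le_antisymm
    · have : u i / 2 ^ L < c i + 1 := Int.ediv_lt_of_lt_mul hp (by linarith)
      omega
    · exact (Int.le_ediv_iff_mul_le hp).2 h1
  · intro h
    rw [← h]
    constructor
    · exact Int.ediv_mul_le _ hp.ne'
    · have := Int.lt_ediv_add_one_mul_self (u i) hp
      linarith

lemma cell_eq_biUnion (j : ℕ) (c : Fin d → ℤ) :
    (cell j c : Set (Eu d)) = ⋃ u ∈ units j c, cell 0 u := by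
  ext x
  rw [Set.mem_iUnion₂]
  constructor
  · intro hx
    exact ⟨idx 0 x, idx_mem_units hx, fun i => rfl⟩
  · rintro ⟨u, hu, hx⟩
    have h1 : idx 0 x = u := by funext i; exact hx i
    rw [mem_units, ← h1, anc_idx] at hu
    intro i
    exact congrFun hu i

lemma cnt_Ico (P : Set (Eu d)) (D : Eu d → ℕ) {j : ℕ} {c : Fin d → ℤ} {a M : ℕ} :
    cnt P D (cell j c ×ˢ Set.Ico a M) =
      ∑ u ∈ units j c, ∑ k ∈ Finset.filter
        (fun k : Fin (M + 1) => a ≤ (k : ℕ) ∧ (k : ℕ) < M) Finset.univ,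
          cnt P D (atom M (u, k)) := by
  rw [← Finset.sum_product', ← cnt_biUnion]
  · congr 1
    rw [cell_eq_biUnion]
    ext ⟨x, k⟩
    simp only [Set.mem_prod, Set.mem_iUnion, Set.mem_Ico, Finset.mem_product, Finset.mem_filter,
      Finset.mem_univ, true_and, exists_prop, atom, cls, Prod.exists]
    constructor
    · rintro ⟨⟨u, hu, hx⟩, h1, h2⟩
      refine ⟨u, ⟨k, by omega⟩, ⟨hu, h1, h2⟩, hx, ?_⟩
      simp [h2]
    · rintro ⟨u, l, ⟨hu, h1, h2⟩, hx, h3⟩
      rw [if_pos h2, Set.mem_singleton_iff] at h3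
      exact ⟨⟨u, hu, hx⟩, by omega, by omega⟩
  · intro i _ j _ hij
    exact disjoint_atom hij

lemma cnt_Ici (P : Set (Eu d)) (D : Eu d → ℕ) {j : ℕ} {c : Fin d → ℤ} {M : ℕ} :
    cnt P D (cell j c ×ˢ Set.Ici M) =
      ∑ u ∈ units j c, cnt P D (atom M (u, Fin.last M)) := by
  rw [← cnt_biUnion]
  · congr 1
    rw [cell_eq_biUnion]
    ext ⟨x, k⟩
    simp only [atom, cls, Fin.val_last, lt_irrefl, if_false, Set.mem_prod, Set.mem_iUnion,
      Set.mem_Ici, exists_prop]
    constructor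
    · rintro ⟨⟨u, hu, hx⟩, h1⟩
      exact ⟨u, hu, hx, h1⟩
    · rintro ⟨u, hu, hx, h1⟩
      exact ⟨⟨u, hu, hx⟩, h1⟩
  · intro i _ j _ hij
    exact disjoint_atom (by simpa using hij)

section prob

variable {Ω : Type} [mΩ : MeasurableSpace Ω] {Pr : Measure Ω} [IsProbabilityMeasure Pr]
  {μ : Measure ℕ} [IsProbabilityMeasure μ] {P : Ω → Set (Eu d)} {D : Ω → Eu d → ℕ}

/-- The sigma-algebra of the count of one atom. -/
@[reducible] noncomputable def atomSigma (P : Ω → Set (Eu d)) (D : Ω → Eu d → ℕ) (M : ℕ)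
    (i : (Fin d → ℤ) × Fin (M + 1)) : MeasurableSpace Ω :=
  MeasurableSpace.comap (fun ω => cnt (P ω) (D ω) (atom M i)) ⊤

lemma measurableSet_atom (M : ℕ) (i : (Fin d → ℤ) × Fin (M + 1)) : MeasurableSet (atom M i) :=
  measurableSet_cellProd _ _ _

lemma mean_atom_ne_top (M : ℕ) (i : (Fin d → ℤ) × Fin (M + 1)) : mean μ (atom M i) ≠ ⊤ :=
  mean_cell_ne_top _ _ _

omit [IsProbabilityMeasure Pr] in
lemma atomSigma_le (h : MarkedPoisson Pr μ P D) (M : ℕ) (i : (Fin d → ℤ) × Fin (M + 1)) :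
    atomSigma P D M i ≤ mΩ :=
  (h.measurable_cnt (atom M i) (measurableSet_atom M i) (mean_atom_ne_top M i)).comap_le

omit [IsProbabilityMeasure Pr] in
lemma iIndep_atomSigma (h : MarkedPoisson Pr μ P D) (M : ℕ) :
    iIndep (atomSigma P D M) Pr := by
  have h1 : iIndepFun (fun (i : (Fin d → ℤ) × Fin (M + 1)) ω => cnt (P ω) (D ω) (atom M i))
      Pr := by
    rw [iIndepFun_iff_finset]
    intro s
    exact h.indep s (fun i => atom M (i : (Fin d → ℤ) × Fin (M + 1)))
      (fun i => measurableSet_atom M i.1) (fun i => mean_atom_ne_top M i.1)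
      (fun i j hij => disjoint_atom fun e => hij (Subtype.ext e))
  exact h1

/-- The atoms that the bad event of the cube `c` of side `2^L` depends on. -/
def foot (L M : ℕ) (c : Fin d → ℤ) : Set ((Fin d → ℤ) × Fin (M + 1)) :=
  {i | anc L i.1 ∈ near (2 * d) c}

omit mΩ in
lemma measurable_cnt_atom (L M : ℕ) (c : Fin d → ℤ) {i : (Fin d → ℤ) × Fin (M + 1)}
    (hi : i ∈ foot L M c) :
    Measurable[⨆ i ∈ foot L M c, atomSigma P D M i] fun ω => cnt (P ω) (D ω) (atom M i) := by
  have h1 : Measurable[atomSigma P D M i] fun ω => cnt (P ω) (D ω) (atom M i) :=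
    comap_measurable _
  exact h1.mono (le_iSup₂_of_le i hi le_rfl) le_rfl

lemma anc_mem_near {j L : ℕ} (hj : j ≤ L) {k : ℕ} {u v : Fin d → ℤ}
    (h : anc j v ∈ near k (anc j u)) : anc L v ∈ near k (anc L u) := by
  rw [mem_near] at h ⊢
  intro i
  have h1 := h i
  unfold anc at h1 ⊢
  obtain ⟨m, rfl⟩ := Nat.exists_eq_add_of_le hj
  have e : ∀ w : ℤ, w / 2 ^ (j + m) = w / 2 ^ j / 2 ^ m := by
    intro w
    rw [pow_add, Int.ediv_ediv_of_nonneg (by positivity)]
  rw [e, e]
  set x := v i / 2 ^ j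
  set y := u i / 2 ^ j
  have hp : (0 : ℤ) < 2 ^ m := by positivity
  have hp1 : (1 : ℤ) ≤ 2 ^ m := hp
  rw [abs_le] at h1 ⊢
  have x1 := Int.ediv_mul_le x hp.ne'
  have x2 := Int.lt_ediv_add_one_mul_self x hp
  have y1 := Int.ediv_mul_le y hp.ne'
  have y2 := Int.lt_ediv_add_one_mul_self y hp
  constructor
  · by_contra hlt
    push Not at hlt
    have h2 : x / 2 ^ m + (k : ℤ) + 1 ≤ y / 2 ^ m := by omega
    have h3 : (x / 2 ^ m + (k : ℤ) + 1) * 2 ^ m ≤ y / 2 ^ m * 2 ^ m :=
      mul_le_mul_of_nonneg_right h2 hp.le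
    have h4 : (k : ℤ) * 1 ≤ k * 2 ^ m := mul_le_mul_of_nonneg_left hp1 (by positivity)
    nlinarith
  · by_contra hlt
    push Not at hlt
    have h2 : y / 2 ^ m + (k : ℤ) + 1 ≤ x / 2 ^ m := by omega
    have h3 : (y / 2 ^ m + (k : ℤ) + 1) * 2 ^ m ≤ x / 2 ^ m * 2 ^ m :=
      mul_le_mul_of_nonneg_right h2 hp.le
    have h4 : (k : ℤ) * 1 ≤ k * 2 ^ m := mul_le_mul_of_nonneg_left hp1 (by positivity)
    nlinarith

/-- Finite sums of measurable `ℕ∞`-valued functions. -/
lemma measurable_sum_enat {α ι : Type*} {m : MeasurableSpace α} (s : Finset ι) {f : ι → α → ℕ∞}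
    (hf : ∀ i ∈ s, Measurable (f i)) : Measurable fun a => ∑ i ∈ s, f i a := by
  classical
  induction s using Finset.induction_on with
  | empty => simp
  | insert a s ha ih =>
    simp only [Finset.sum_insert ha]
    exact (hf a (by simp)).add (ih fun i hi => hf i (by simp [hi]))

omit mΩ in
/-- The bad event of a cube depends only on the atoms of its foot. -/
theorem measurableSet_badCell (M L : ℕ) (a b : ℕ → ℕ) (bH : ℕ) (c : Fin d → ℤ) :
    MeasurableSet[⨆ i ∈ foot L M c, atomSigma P D M i]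
      {ω | BadCell (P ω) (D ω) M L a b bH c} := by
  set m := ⨆ i ∈ foot L M c, atomSigma P D M i with hm
  have hIci : ∀ j ≤ L, ∀ u : Fin d → ℤ, anc L u ∈ near (2 * d) c → ∀ c', (∀ v ∈ units j c',
      anc L v ∈ near (2 * d) c) →
      Measurable[m] fun ω => cnt (P ω) (D ω) (cell j c' ×ˢ Set.Ici M) := by
    intro j hj u hu c' hc'
    simp only [cnt_Ici]
    exact measurable_sum_enat _ fun v hv => measurable_cnt_atom L M c (hc' v hv)
  have hIco : ∀ j a', ∀ c', (∀ v ∈ units j c', anc L v ∈ near (2 * d) c) →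
      Measurable[m] fun ω => cnt (P ω) (D ω) (cell j c' ×ˢ Set.Ico a' M) := by
    intro j a' c' hc'
    simp only [cnt_Ico]
    exact measurable_sum_enat _ fun v hv => measurable_sum_enat _ fun k _ =>
      measurable_cnt_atom L M c (hc' v hv)
  have hself : c ∈ near (2 * d) c := by
    rw [mem_near]; intro i; simp
  have hset : {ω | BadCell (P ω) (D ω) M L a b bH c} =
      {ω | cnt (P ω) (D ω) (cell L c ×ˢ Set.Ici M) = 0} ∪
      ((⋃ c' ∈ near (2 * d) c, {ω | (bH : ℕ∞) ≤ cnt (P ω) (D ω) (cell L c' ×ˢ Set.Ici M)}) ∪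
      ⋃ u ∈ units L c, ⋃ j ∈ Finset.range (L + 1), ⋃ c' ∈ near (2 * d) (anc j u),
        ({ω | 1 ≤ cnt (P ω) (D ω) (cell 0 u ×ˢ Set.Ici M)} ∩
          {ω | (b j : ℕ∞) ≤ cnt (P ω) (D ω) (cell j c' ×ˢ Set.Ico (a j) M)})) := by
    ext ω
    simp only [BadCell, Set.mem_ofPred_eq, Set.mem_union, Set.mem_iUnion, Set.mem_inter_iff,
      exists_prop]
  rw [hset]
  have hL : ∀ c' ∈ near (2 * d) c, ∀ v ∈ units L c', anc L v ∈ near (2 * d) c := by
    intro c' hc' v hv
    rw [mem_units] at hv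
    rw [hv]; exact hc'
  refine MeasurableSet.union ?_ (MeasurableSet.union ?_ ?_)
  · have h1 : Measurable[m] fun ω => cnt (P ω) (D ω) (cell L c ×ˢ Set.Ici M) := by
      simp only [cnt_Ici]
      exact measurable_sum_enat _ fun v hv => measurable_cnt_atom L M c (hL c hself v hv)
    exact h1 (MeasurableSet.of_discrete (s := {0}))
  · refine Finset.measurableSet_biUnion _ fun c' hc' => ?_
    have h1 : Measurable[m] fun ω => cnt (P ω) (D ω) (cell L c' ×ˢ Set.Ici M) := by
      simp only [cnt_Ici]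
      exact measurable_sum_enat _ fun v hv => measurable_cnt_atom L M c (hL c' hc' v hv)
    exact h1 (MeasurableSet.of_discrete (s := Set.Ici (bH : ℕ∞)))
  · refine Finset.measurableSet_biUnion _ fun u hu => ?_
    refine Finset.measurableSet_biUnion _ fun j hj => ?_
    refine Finset.measurableSet_biUnion _ fun c' hc' => ?_
    have hu' : anc L u = c := mem_units.1 hu
    have hjL : j ≤ L := by rw [Finset.mem_range] at hj; omega
    refine MeasurableSet.inter ?_ ?_
    · have h1 : Measurable[m] fun ω => cnt (P ω) (D ω) (cell 0 u ×ˢ Set.Ici M) := by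
        simp only [cnt_Ici]
        refine measurable_sum_enat _ fun v hv => measurable_cnt_atom L M c ?_
        have hv' : anc 0 v = u := mem_units.1 hv
        have hvu : v = u := by
          rw [← hv']; funext i; simp [anc]
        show anc L v ∈ near (2 * d) c
        rw [hvu, hu']; exact hself
      exact h1 (MeasurableSet.of_discrete (s := Set.Ici 1))
    · have h1 : Measurable[m] fun ω => cnt (P ω) (D ω) (cell j c' ×ˢ Set.Ico (a j) M) := by
        refine hIco j (a j) c' fun v hv => ?_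
        rw [← hu']
        refine anc_mem_near hjL ?_
        rw [mem_units.1 hv]; exact hc'
      exact h1 (MeasurableSet.of_discrete (s := Set.Ici (b j : ℕ∞)))

/-- Feet of far cubes are disjoint. -/
lemma disjoint_foot {L M : ℕ} {c c' : Fin d → ℤ} (h : ∃ i, (4 * d : ℤ) < |c i - c' i|) :
    Disjoint (foot L M c) (foot L M c') := by
  refine Set.disjoint_left.2 fun i h1 h2 => ?_
  obtain ⟨k, hk⟩ := h
  have e1 := mem_near.1 h1 k
  have e2 := mem_near.1 h2 k
  rw [abs_le] at e1 e2
  rw [lt_abs] at hk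
  push_cast at e1 e2
  omega

end prob

end Pool.Agent.Helper64.Perc
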