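import Pool.Agent.Helper64.Perc.Defs

/-!
Elementary facts on the counts of a marked Poisson process.
-/

open MeasureTheory ProbabilityTheory

namespace Pool.Agent.Helper64.Perc

variable {d : ℕ} {Ω : Type} [MeasurableSpace Ω] {Pr : Measure Ω} [IsProbabilityMeasure Pr]
  {μ : Measure ℕ} {P : Ω → Set (Eu d)} {D : Ω → Eu d → ℕ}

omit [IsProbabilityMeasure Pr] in
lemma pr_zero (h : MarkedPoisson Pr μ P D) {S : Set (Eu d × ℕ)} (hS : MeasurableSet S)
    (hf : mean μ S ≠ ⊤) :
    Pr {ω | cnt (P ω) (D ω) S = 0} = ENNReal.ofReal (Real.exp (-(mean μ S).toReal)) := by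
  have := h.law S hS hf 0
  simpa using this

omit [IsProbabilityMeasure Pr] in
lemma meas_ge (h : MarkedPoisson Pr μ P D) {S : Set (Eu d × ℕ)} (hS : MeasurableSet S)
    (hf : mean μ S ≠ ⊤) (n : ℕ∞) : MeasurableSet {ω | n ≤ cnt (P ω) (D ω) S} :=
  (h.measurable_cnt S hS hf) (MeasurableSet.of_discrete (s := Set.Ici n))

lemma pr_ge_one (h : MarkedPoisson Pr μ P D) {S : Set (Eu d × ℕ)} (hS : MeasurableSet S)
    (hf : mean μ S ≠ ⊤) :
    Pr {ω | 1 ≤ cnt (P ω) (D ω) S} ≤ mean μ S := by
  have hm : MeasurableSet {ω | cnt (P ω) (D ω) S = 0} :=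
    (h.measurable_cnt S hS hf) (measurableSet_singleton 0)
  have he : {ω | 1 ≤ cnt (P ω) (D ω) S} = {ω | cnt (P ω) (D ω) S = 0}ᶜ := by
    ext ω
    simp only [Set.mem_ofPred_eq, Set.mem_compl_iff]
    rw [Order.one_le_iff_ne_zero]
  rw [he, prob_compl_eq_one_sub hm, pr_zero h hS hf]
  have h1 : (1 : ENNReal) = ENNReal.ofReal 1 := by simp
  rw [h1, ← ENNReal.ofReal_sub _ (Real.exp_pos _).le, ← ENNReal.ofReal_toReal hf]
  apply ENNReal.ofReal_le_ofReal
  rw [ENNReal.toReal_ofReal ENNReal.toReal_nonneg]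
  have := Real.add_one_le_exp (-(mean μ S).toReal)
  linarith

/-- The tail of a Poisson count. -/
lemma pr_tail (h : MarkedPoisson Pr μ P D) {S : Set (Eu d × ℕ)} (hS : MeasurableSet S)
    (hf : mean μ S ≠ ⊤) {a t : ℕ} (hat : 3 * (mean μ S).toReal + t ≤ a) :
    Pr {ω | (a : ℕ∞) ≤ cnt (P ω) (D ω) S} ≤ ENNReal.ofReal ((1 / 2) ^ t) := by
  set l := (mean μ S).toReal with hl
  have hl0 : 0 ≤ l := ENNReal.toReal_nonneg
  -- the complement is a finite disjoint union of fibres
  have hcompl : {ω | (a : ℕ∞) ≤ cnt (P ω) (D ω) S} =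
      (⋃ n ∈ Finset.range a, {ω | cnt (P ω) (D ω) S = n})ᶜ := by
    ext ω
    simp only [Set.mem_ofPred_eq, Set.mem_compl_iff, Set.mem_iUnion, Finset.mem_range,
      exists_prop, not_exists, not_and]
    constructor
    · intro h1 n hn h2
      rw [h2] at h1
      exact absurd (by exact_mod_cast h1 : a ≤ n) (by omega)
    · intro h1
      by_contra h2
      push Not at h2
      obtain ⟨n, hn⟩ := ENat.ne_top_iff_exists.1 (ne_top_of_lt h2)
      rw [← hn] at h2
      exact h1 n (by exact_mod_cast h2) hn.symm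
  have hmeas : ∀ n : ℕ, MeasurableSet {ω | cnt (P ω) (D ω) S = n} := fun n =>
    (h.measurable_cnt S hS hf) (measurableSet_singleton (n : ℕ∞))
  have hun : Pr (⋃ n ∈ Finset.range a, {ω | cnt (P ω) (D ω) S = n}) =
      ENNReal.ofReal (∑ n ∈ Finset.range a, Real.exp (-l) * l ^ n / n.factorial) := by
    rw [measure_biUnion_finset, ENNReal.ofReal_sum_of_nonneg]
    · exact Finset.sum_congr rfl fun n _ => h.law S hS hf n
    · intro n _; positivity
    · intro i _ j _ hij
      refine Set.disjoint_left.2 fun ω h1 h2 => hij ?_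
      simp only [Set.mem_ofPred_eq] at h1 h2
      exact_mod_cast h1.symm.trans h2
    · intro n _; exact hmeas n
  rw [hcompl, prob_compl_eq_one_sub (Finset.measurableSet_biUnion _ fun n _ => hmeas n), hun]
  have h1 : (1 : ENNReal) = ENNReal.ofReal 1 := by simp
  rw [h1, ← ENNReal.ofReal_sub _ (Finset.sum_nonneg fun n _ => by positivity)]
  apply ENNReal.ofReal_le_ofReal
  -- 1 - partial sum = tail ≤ 2^{-a} e^{l}
  have hs : HasSum (fun n : ℕ => Real.exp (-l) * l ^ n / n.factorial) 1 := by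
    have h2 : HasSum (fun n : ℕ => l ^ n / (n.factorial : ℝ)) (Real.exp l) := by
      rw [Real.exp_eq_exp_ℝ]
      exact NormedSpace.expSeries_div_hasSum_exp l
    have h3 := h2.mul_left (Real.exp (-l))
    rw [← Real.exp_add, neg_add_cancel, Real.exp_zero] at h3
    have e : (fun n : ℕ => Real.exp (-l) * l ^ n / n.factorial) =
        fun n : ℕ => Real.exp (-l) * (l ^ n / (n.factorial : ℝ)) := by
      funext n; ring
    rw [e]; exact h3
  have hs2 : HasSum (fun n : ℕ => Real.exp (-l) * (2 * l) ^ n / n.factorial) (Real.exp l) := by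
    have h2 : HasSum (fun n : ℕ => (2 * l) ^ n / (n.factorial : ℝ)) (Real.exp (2 * l)) := by
      rw [Real.exp_eq_exp_ℝ]
      exact NormedSpace.expSeries_div_hasSum_exp (2 * l)
    have h3 := h2.mul_left (Real.exp (-l))
    rw [← Real.exp_add, show -l + 2 * l = l by ring] at h3
    have e : (fun n : ℕ => Real.exp (-l) * (2 * l) ^ n / n.factorial) =
        fun n : ℕ => Real.exp (-l) * ((2 * l) ^ n / (n.factorial : ℝ)) := by
      funext n; ring
    rw [e]; exact h3
  have htail : 1 - ∑ n ∈ Finset.range a, Real.exp (-l) * l ^ n / n.factorial =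
      ∑' n : ℕ, Real.exp (-l) * l ^ (n + a) / (n + a).factorial := by
    have := hs.summable.sum_add_tsum_nat_add a
    rw [hs.tsum_eq] at this
    linarith
  rw [htail]
  have hs2' : Summable fun n : ℕ => Real.exp (-l) * (2 * l) ^ (n + a) / (n + a).factorial :=
    (summable_nat_add_iff a).2 hs2.summable
  have hs' : Summable fun n : ℕ => Real.exp (-l) * l ^ (n + a) / (n + a).factorial :=
    (summable_nat_add_iff a).2 hs.summable
  have hle : ∑' n : ℕ, Real.exp (-l) * l ^ (n + a) / (n + a).factorial ≤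
      (1 / 2) ^ a * Real.exp l := by
    calc ∑' n : ℕ, Real.exp (-l) * l ^ (n + a) / (n + a).factorial
        ≤ ∑' n : ℕ, (1 / 2) ^ a * (Real.exp (-l) * (2 * l) ^ (n + a) / (n + a).factorial) := by
          refine hs'.tsum_le_tsum (fun n => ?_) (hs2'.mul_left _)
          rw [mul_pow 2 l (n + a), pow_add 2 n a]
          have e1 : (1 / 2 : ℝ) ^ a * (Real.exp (-l) * (2 ^ n * 2 ^ a * l ^ (n + a)) /
              (n + a).factorial) = 2 ^ n * (Real.exp (-l) * l ^ (n + a) / (n + a).factorial) := by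
            rw [one_div, inv_pow]
            field_simp
          rw [e1]
          have e2 : 0 ≤ Real.exp (-l) * l ^ (n + a) / (n + a).factorial := by positivity
          have e3 : (1 : ℝ) ≤ 2 ^ n := one_le_pow₀ (by norm_num)
          exact le_mul_of_one_le_left e2 e3
      _ = (1 / 2) ^ a * ∑' n : ℕ, Real.exp (-l) * (2 * l) ^ (n + a) / (n + a).factorial :=
          tsum_mul_left
      _ ≤ (1 / 2) ^ a * Real.exp l := by
          refine mul_le_mul_of_nonneg_left ?_ (by positivity)
          have e4 := hs2.summable.sum_add_tsum_nat_add a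
          rw [hs2.tsum_eq] at e4
          have e5 : 0 ≤ ∑ n ∈ Finset.range a, Real.exp (-l) * (2 * l) ^ n / n.factorial :=
            Finset.sum_nonneg fun n _ => by positivity
          linarith
  refine hle.trans ?_
  -- (1/2)^a e^l ≤ (1/2)^t
  have e6 : (1 / 2 : ℝ) ^ a ≤ Real.exp (-(l : ℝ)) * (1 / 2) ^ t := by
    have e7 : Real.exp 1 ≤ 8 := by
      have := Real.exp_one_lt_d9; linarith
    have e8 : Real.exp l ≤ (8 : ℝ) ^ l := by
      rw [← Real.exp_one_rpow]
      exact Real.rpow_le_rpow (Real.exp_pos 1).le e7 hl0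
    have e9 : (8 : ℝ) ^ l * 2 ^ t ≤ 2 ^ a := by
      have : (8 : ℝ) ^ l = (2 : ℝ) ^ (3 * l) := by
        rw [Real.rpow_mul (by norm_num)]; norm_num
      rw [this, ← Real.rpow_natCast 2 t, ← Real.rpow_natCast 2 a,
        ← Real.rpow_add (by norm_num)]
      exact Real.rpow_le_rpow_of_exponent_le (by norm_num) hat
    have e10 : Real.exp l * 2 ^ t ≤ 2 ^ a :=
      (mul_le_mul_of_nonneg_right e8 (by positivity)).trans e9
    rw [one_div, inv_pow, inv_pow, Real.exp_neg, ← mul_inv]
    exact inv_anti₀ (by positivity) e10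
  calc (1 / 2 : ℝ) ^ a * Real.exp l ≤ (Real.exp (-l) * (1 / 2) ^ t) * Real.exp l := by gcongr
    _ = (1 / 2) ^ t := by
      rw [mul_right_comm, ← Real.exp_add, neg_add_cancel, Real.exp_zero, one_mul]

omit [IsProbabilityMeasure Pr] in
/-- Two counts on disjoint sets are independent. -/
lemma indep_two (h : MarkedPoisson Pr μ P D) {S T : Set (Eu d × ℕ)} (hS : MeasurableSet S)
    (hf : mean μ S ≠ ⊤) (hT : MeasurableSet T) (hg : mean μ T ≠ ⊤) (hd : Disjoint S T)
    (a b : ℕ∞) :
    Pr ({ω | a ≤ cnt (P ω) (D ω) S} ∩ {ω | b ≤ cnt (P ω) (D ω) T}) =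
      Pr {ω | a ≤ cnt (P ω) (D ω) S} * Pr {ω | b ≤ cnt (P ω) (D ω) T} := by
  have hi := h.indep Bool (fun i => if i then S else T)
    (fun i => by cases i <;> simp [hS, hT]) (fun i => by cases i <;> simp [hf, hg])
    (by
      intro i j hij
      cases i <;> cases j <;> simp_all [disjoint_comm])
  have h2 : IndepFun (fun ω => cnt (P ω) (D ω) S) (fun ω => cnt (P ω) (D ω) T) Pr := by
    simpa using hi.indepFun (i := true) (j := false) (by simp)
  exact h2.measure_inter_preimage_eq_mul (Set.Ici a) (Set.Ici b) MeasurableSet.of_discrete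
    MeasurableSet.of_discrete

end Pool.Agent.Helper64.Perc
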