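import Pool.Agent.Helper64.Perc.Det
import Pool.Agent.Helper64.Perc.Pois

/-!
The bad event of a cube: deterministic consequence and probability.
-/

open MeasureTheory ProbabilityTheory

namespace Pool.Agent.Helper64.Perc

variable {d : ℕ}

/-- The indices of the unit cubes inside the cube of side `2^L` with index `c`. -/
noncomputable def units (L : ℕ) (c : Fin d → ℤ) : Finset (Fin d → ℤ) :=
  Fintype.piFinset fun i => Finset.Ico (c i * 2 ^ L) (c i * 2 ^ L + 2 ^ L)

/-- The index of the cube of side `2^j` that contains the unit cube `u`. -/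
def anc (j : ℕ) (u : Fin d → ℤ) : Fin d → ℤ := fun i => u i / 2 ^ j

lemma anc_idx (j : ℕ) (x : Eu d) : anc j (idx 0 x) = idx j x := by
  funext i
  unfold anc idx
  have h := Int.floor_div_natCast (x i) (2 ^ j)
  push_cast at h
  rw [h]
  simp

lemma idx_mem_units {L : ℕ} {c : Fin d → ℤ} {x : Eu d} (hx : x ∈ cell L c) :
    idx 0 x ∈ units L c := by
  unfold units
  rw [Fintype.mem_piFinset]
  intro i
  have h1 : idx L x i = c i := hx i
  rw [← anc_idx] at h1
  unfold anc at h1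
  have hp : (0 : ℤ) < 2 ^ L := by positivity
  rw [Finset.mem_Ico, ← h1]
  constructor
  · exact Int.ediv_mul_le _ hp.ne'
  · have := Int.lt_ediv_add_one_mul_self (idx 0 x i) hp
    linarith

lemma card_units (L : ℕ) (c : Fin d → ℤ) : (units L c).card = 2 ^ (L * d) := by
  unfold units
  rw [Fintype.card_piFinset]
  simp only [Int.card_Ico]
  have : ∀ i : Fin d, (c i * 2 ^ L + 2 ^ L - c i * 2 ^ L).toNat = 2 ^ L := by
    intro i
    rw [add_sub_cancel_left]
    have : ((2 : ℤ) ^ L) = ((2 ^ L : ℕ) : ℤ) := by push_cast; rfl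
    rw [this, Int.toNat_natCast]
  rw [Finset.prod_congr rfl fun i _ => this i]
  simp [pow_mul]

/-- The bad event of the cube of side `2^L` with index `c`. -/
def BadCell (P : Set (Eu d)) (D : Eu d → ℕ) (M L : ℕ) (a b : ℕ → ℕ) (bH : ℕ)
    (c : Fin d → ℤ) : Prop :=
  cnt P D (cell L c ×ˢ Set.Ici M) = 0 ∨
  (∃ c' ∈ near (2 * d) c, (bH : ℕ∞) ≤ cnt P D (cell L c' ×ˢ Set.Ici M)) ∨
  (∃ u ∈ units L c, ∃ j ∈ Finset.range (L + 1), ∃ c' ∈ near (2 * d) (anc j u),
    1 ≤ cnt P D (cell 0 u ×ˢ Set.Ici M) ∧ (b j : ℕ∞) ≤ cnt P D (cell j c' ×ˢ Set.Ico (a j) M))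

theorem free_of_not_bad (hd : 1 ≤ d) {P : Set (Eu d)} {D : Eu d → ℕ} {G : SimpleGraph (Eu d)}
    (h : IsStableMultiMatching P D G) {M L : ℕ} {a b : ℕ → ℕ} {bH : ℕ} {c : Fin d → ℤ}
    (ha : a 0 = 0) (hsum : (4 * d + 1) ^ d * bH +
      ∑ j ∈ Finset.range (L + 1), (4 * d + 1) ^ d * (a j + b j) ≤ M)
    (hbad : ¬ BadCell P D M L a b bH c) :
    ∃ x ∈ P, x ∈ cell L c ∧ Free G x (rad d (L + 1)) := by
  unfold BadCell at hbad
  push Not at hbad
  obtain ⟨h1, h2, h3⟩ := hbad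
  unfold cnt at h1
  obtain ⟨x, hxP, hxc⟩ := Set.encard_ne_zero.1 h1
  refine ⟨x, hxP, hxc.1, ?_⟩
  by_contra hfree
  have hM : M ≤ D x := hxc.2
  have hidx : idx L x = c := by
    funext i; exact hxc.1 i
  have hdeg := degree_le hd h hxP M L a ha hfree
  rw [hidx] at hdeg
  have hu : 1 ≤ cnt P D (cell 0 (idx 0 x) ×ˢ Set.Ici M) := by
    unfold cnt
    rw [Order.one_le_iff_ne_zero]
    exact Set.encard_ne_zero.2 ⟨x, hxP, fun i => rfl, hM⟩
  have hcard : ∀ c' : Fin d → ℤ, (near (2 * d) c').card = (4 * d + 1) ^ d := by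
    intro c'
    rw [card_near, show 2 * (2 * d) + 1 = 4 * d + 1 by ring]
  have hpos : 1 ≤ (4 * d + 1) ^ d := Nat.one_le_pow _ _ (by omega)
  -- hub part
  have hH : ∑ c' ∈ near (2 * d) c, cnt P D (cell L c' ×ˢ Set.Ici M) + 1 ≤
      (((4 * d + 1) ^ d * bH : ℕ) : ℕ∞) := by
    calc ∑ c' ∈ near (2 * d) c, cnt P D (cell L c' ×ˢ Set.Ici M) + 1
        ≤ ∑ c' ∈ near (2 * d) c, cnt P D (cell L c' ×ˢ Set.Ici M) +
            (((4 * d + 1) ^ d : ℕ) : ℕ∞) := by
          gcongr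
          exact_mod_cast hpos
      _ = ∑ c' ∈ near (2 * d) c, (cnt P D (cell L c' ×ˢ Set.Ici M) + 1) := by
          rw [Finset.sum_add_distrib]
          simp [hcard]
      _ ≤ ∑ c' ∈ near (2 * d) c, (bH : ℕ∞) :=
          Finset.sum_le_sum fun c' hc' => Order.add_one_le_of_lt (h2 c' hc')
      _ = (((4 * d + 1) ^ d * bH : ℕ) : ℕ∞) := by simp [hcard]
  have hN : ∑ j ∈ Finset.range (L + 1), ∑ c' ∈ near (2 * d) (idx j x),
        ((a j : ℕ∞) + cnt P D (cell j c' ×ˢ Set.Ico (a j) M)) ≤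
      ((∑ j ∈ Finset.range (L + 1), (4 * d + 1) ^ d * (a j + b j) : ℕ) : ℕ∞) := by
    rw [Nat.cast_sum]
    refine Finset.sum_le_sum fun j hj => ?_
    calc ∑ c' ∈ near (2 * d) (idx j x), ((a j : ℕ∞) + cnt P D (cell j c' ×ˢ Set.Ico (a j) M))
        ≤ ∑ c' ∈ near (2 * d) (idx j x), ((a j + b j : ℕ) : ℕ∞) := by
          refine Finset.sum_le_sum fun c' hc' => ?_
          push_cast
          gcongr
          rw [← anc_idx] at hc'
          exact (h3 (idx 0 x) (idx_mem_units hxc.1) j hj c' hc' hu).le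
      _ = (((4 * d + 1) ^ d * (a j + b j) : ℕ) : ℕ∞) := by
          rw [Finset.sum_const, hcard, nsmul_eq_mul]; push_cast; rfl
  have hfin : (D x : ℕ∞) + 1 ≤ (M : ℕ∞) := by
    calc (D x : ℕ∞) + 1 ≤ (∑ c' ∈ near (2 * d) c, cnt P D (cell L c' ×ˢ Set.Ici M) +
          ∑ j ∈ Finset.range (L + 1), ∑ c' ∈ near (2 * d) (idx j x),
            ((a j : ℕ∞) + cnt P D (cell j c' ×ˢ Set.Ico (a j) M))) + 1 := by gcongr
      _ = (∑ c' ∈ near (2 * d) c, cnt P D (cell L c' ×ˢ Set.Ici M) + 1) +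
          ∑ j ∈ Finset.range (L + 1), ∑ c' ∈ near (2 * d) (idx j x),
            ((a j : ℕ∞) + cnt P D (cell j c' ×ˢ Set.Ico (a j) M)) := by ring
      _ ≤ (((4 * d + 1) ^ d * bH : ℕ) : ℕ∞) +
          ((∑ j ∈ Finset.range (L + 1), (4 * d + 1) ^ d * (a j + b j) : ℕ) : ℕ∞) := by gcongr
      _ ≤ (M : ℕ∞) := by exact_mod_cast hsum
  have hfin' : D x + 1 ≤ M := by exact_mod_cast hfin
  omega

/-! ### Measures of cubes -/

lemma cell_eq (j : ℕ) (c : Fin d → ℤ) : cell j c =
    (WithLp.ofLp) ⁻¹' (Set.pi Set.univ fun i => Set.Ico ((c i : ℝ) * 2 ^ j) ((c i + 1) * 2 ^ j)) := by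
  ext x
  simp only [cell, Set.mem_ofPred_eq, Set.mem_preimage, Set.mem_pi, Set.mem_univ, forall_const,
    Set.mem_Ico]
  refine forall_congr' fun i => ?_
  have hp : (0 : ℝ) < 2 ^ j := by positivity
  rw [Int.floor_eq_iff, le_div_iff₀ hp, div_lt_iff₀ hp]

lemma measurableSet_cell (j : ℕ) (c : Fin d → ℤ) : MeasurableSet (cell j c : Set (Eu d)) := by
  rw [cell_eq]
  exact (PiLp.volume_preserving_ofLp (Fin d)).measurable
    (MeasurableSet.univ_pi fun i => measurableSet_Ico)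

lemma volume_cell (j : ℕ) (c : Fin d → ℤ) : volume (cell j c : Set (Eu d)) = 2 ^ (j * d) := by
  rw [cell_eq, (PiLp.volume_preserving_ofLp (Fin d)).measure_preimage
    (MeasurableSet.univ_pi fun i => measurableSet_Ico).nullMeasurableSet, Real.volume_pi_Ico]
  have : ∀ i : Fin d, ENNReal.ofReal (((c i : ℝ) + 1) * 2 ^ j - c i * 2 ^ j) = 2 ^ j := by
    intro i
    rw [show ((c i : ℝ) + 1) * 2 ^ j - c i * 2 ^ j = 2 ^ j by ring,
      ENNReal.ofReal_pow (by norm_num)]
    simp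
  simp [this, pow_mul]

lemma mean_cell (μ : Measure ℕ) [SFinite μ] (j : ℕ) (c : Fin d → ℤ) (B : Set ℕ) :
    mean μ (cell j c ×ˢ B) = 2 ^ (j * d) * μ B := by
  unfold mean
  rw [Measure.prod_prod, volume_cell]

/-- The tail of the degree law. -/
noncomputable def tail (μ : Measure ℕ) (m : ℕ) : ℝ := (μ (Set.Ici m)).toReal

section prob

variable {Ω : Type} [MeasurableSpace Ω] {Pr : Measure Ω} [IsProbabilityMeasure Pr]
  {μ : Measure ℕ} [IsProbabilityMeasure μ] {P : Ω → Set (Eu d)} {D : Ω → Eu d → ℕ}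

omit [IsProbabilityMeasure Pr] in
lemma measurableSet_cellProd (j : ℕ) (c : Fin d → ℤ) (B : Set ℕ) :
    MeasurableSet (cell j c ×ˢ B : Set (Eu d × ℕ)) :=
  (measurableSet_cell j c).prod MeasurableSet.of_discrete

lemma mean_cell_ne_top (j : ℕ) (c : Fin d → ℤ) (B : Set ℕ) : mean μ (cell j c ×ˢ B) ≠ ⊤ := by
  rw [mean_cell]
  exact ENNReal.mul_ne_top (by simp) (measure_ne_top μ B)

omit [IsProbabilityMeasure μ] in
lemma toReal_mean_cell (j : ℕ) (c : Fin d → ℤ) (B : Set ℕ) :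
    (mean μ (cell j c ×ˢ B)).toReal = 2 ^ (j * d) * (μ B).toReal := by
  rw [mean_cell, ENNReal.toReal_mul]
  simp

/-- The probability of the bad event of a cube. -/
theorem pr_badCell_le (h : MarkedPoisson Pr μ P D) {M L : ℕ} {a b : ℕ → ℕ} {bH t : ℕ}
    (hbH : 3 * (2 ^ (L * d) * tail μ M) + t ≤ bH)
    (hb : ∀ j, j ≤ L → 3 * (2 ^ (j * d) * tail μ (a j)) + t ≤ b j) (c : Fin d → ℤ) :
    Pr {ω | BadCell (P ω) (D ω) M L a b bH c} ≤ ENNReal.ofReal
      (Real.exp (-(2 ^ (L * d) * tail μ M)) + ((4 * d + 1) ^ d : ℕ) * (1 / 2) ^ t +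
        ((4 * d + 1) ^ d : ℕ) * (2 ^ (L * d) * tail μ M * (L + 1)) * (1 / 2) ^ t) := by
  have hcard : ∀ c' : Fin d → ℤ, (near (2 * d) c').card = (4 * d + 1) ^ d := by
    intro c'
    rw [card_near, show 2 * (2 * d) + 1 = 4 * d + 1 by ring]
  have hsub : {ω | BadCell (P ω) (D ω) M L a b bH c} ⊆
      {ω | cnt (P ω) (D ω) (cell L c ×ˢ Set.Ici M) = 0} ∪
      ((⋃ c' ∈ near (2 * d) c, {ω | (bH : ℕ∞) ≤ cnt (P ω) (D ω) (cell L c' ×ˢ Set.Ici M)}) ∪
      ⋃ u ∈ units L c, ⋃ j ∈ Finset.range (L + 1), ⋃ c' ∈ near (2 * d) (anc j u),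
        ({ω | 1 ≤ cnt (P ω) (D ω) (cell 0 u ×ˢ Set.Ici M)} ∩
          {ω | (b j : ℕ∞) ≤ cnt (P ω) (D ω) (cell j c' ×ˢ Set.Ico (a j) M)})) := by
    rintro ω (h1 | ⟨c', hc', h1⟩ | ⟨u, hu, j, hj, c', hc', h1, h2⟩)
    · exact Or.inl h1
    · exact Or.inr (Or.inl (Set.mem_biUnion hc' h1))
    · exact Or.inr (Or.inr (Set.mem_biUnion hu (Set.mem_biUnion (Finset.mem_coe.2 hj)
        (Set.mem_biUnion hc' ⟨h1, h2⟩))))
  refine (measure_mono hsub).trans ((measure_union_le _ _).trans ?_)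
  have hT0 : 0 ≤ tail μ M := ENNReal.toReal_nonneg
  rw [add_assoc, ENNReal.ofReal_add (Real.exp_pos _).le (by positivity)]
  refine add_le_add ?_ ((measure_union_le _ _).trans ?_)
  · rw [pr_zero h (measurableSet_cellProd _ _ _) (mean_cell_ne_top _ _ _), toReal_mean_cell]
    rfl
  rw [ENNReal.ofReal_add (by positivity) (by positivity)]
  refine add_le_add ?_ ?_
  · refine (measure_biUnion_finset_le _ _).trans ?_
    calc ∑ c' ∈ near (2 * d) c, Pr {ω | (bH : ℕ∞) ≤ cnt (P ω) (D ω) (cell L c' ×ˢ Set.Ici M)}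
        ≤ ∑ c' ∈ near (2 * d) c, ENNReal.ofReal ((1 / 2) ^ t) := by
          refine Finset.sum_le_sum fun c' _ => ?_
          refine pr_tail h (measurableSet_cellProd _ _ _) (mean_cell_ne_top _ _ _) ?_
          rw [toReal_mean_cell]
          exact hbH
      _ = ENNReal.ofReal (((4 * d + 1) ^ d : ℕ) * (1 / 2) ^ t) := by
          rw [Finset.sum_const, hcard, nsmul_eq_mul, ENNReal.ofReal_mul (by positivity),
            ENNReal.ofReal_natCast]
  · refine (measure_biUnion_finset_le _ _).trans ?_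
    have hterm : ∀ u ∈ units L c, Pr (⋃ j ∈ Finset.range (L + 1),
        ⋃ c' ∈ near (2 * d) (anc j u),
        ({ω | 1 ≤ cnt (P ω) (D ω) (cell 0 u ×ˢ Set.Ici M)} ∩
          {ω | (b j : ℕ∞) ≤ cnt (P ω) (D ω) (cell j c' ×ˢ Set.Ico (a j) M)})) ≤
        ENNReal.ofReal ((L + 1) * (((4 * d + 1) ^ d : ℕ) * (tail μ M * (1 / 2) ^ t))) := by
      intro u _
      refine (measure_biUnion_finset_le _ _).trans ?_
      have hj : ∀ j ∈ Finset.range (L + 1), Pr (⋃ c' ∈ near (2 * d) (anc j u),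
          ({ω | 1 ≤ cnt (P ω) (D ω) (cell 0 u ×ˢ Set.Ici M)} ∩
            {ω | (b j : ℕ∞) ≤ cnt (P ω) (D ω) (cell j c' ×ˢ Set.Ico (a j) M)})) ≤
          ENNReal.ofReal (((4 * d + 1) ^ d : ℕ) * (tail μ M * (1 / 2) ^ t)) := by
        intro j hj
        refine (measure_biUnion_finset_le _ _).trans ?_
        calc ∑ c' ∈ near (2 * d) (anc j u), Pr
              ({ω | 1 ≤ cnt (P ω) (D ω) (cell 0 u ×ˢ Set.Ici M)} ∩
                {ω | (b j : ℕ∞) ≤ cnt (P ω) (D ω) (cell j c' ×ˢ Set.Ico (a j) M)})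
            ≤ ∑ c' ∈ near (2 * d) (anc j u), ENNReal.ofReal (tail μ M * (1 / 2) ^ t) := by
              refine Finset.sum_le_sum fun c' _ => ?_
              have hdisj : Disjoint (cell 0 u ×ˢ Set.Ici M : Set (Eu d × ℕ))
                  (cell j c' ×ˢ Set.Ico (a j) M) := by
                refine Set.disjoint_left.2 ?_
                rintro ⟨x, k⟩ h1 h2
                have e1 : M ≤ k := h1.2
                have e2 : k < M := h2.2.2
                omega
              rw [indep_two h (measurableSet_cellProd _ _ _) (mean_cell_ne_top _ _ _)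
                (measurableSet_cellProd _ _ _) (mean_cell_ne_top _ _ _) hdisj 1 (b j)]
              rw [ENNReal.ofReal_mul hT0]
              refine mul_le_mul' ?_ ?_
              · refine (pr_ge_one h (measurableSet_cellProd _ _ _)
                  (mean_cell_ne_top _ _ _)).trans (le_of_eq ?_)
                rw [mean_cell, zero_mul, pow_zero, one_mul]
                unfold tail
                rw [ENNReal.ofReal_toReal (measure_ne_top μ _)]
              · refine pr_tail h (measurableSet_cellProd _ _ _) (mean_cell_ne_top _ _ _) ?_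
                rw [toReal_mean_cell]
                have hle : (μ (Set.Ico (a j) M)).toReal ≤ tail μ (a j) := by
                  unfold tail
                  refine ENNReal.toReal_mono (measure_ne_top μ _) (measure_mono ?_)
                  exact Set.Ico_subset_Ici_self
                have := hb j (by rw [Finset.mem_range] at hj; omega)
                have hp : (0 : ℝ) < 2 ^ (j * d) := by positivity
                nlinarith [mul_le_mul_of_nonneg_left hle hp.le]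
          _ = ENNReal.ofReal (((4 * d + 1) ^ d : ℕ) * (tail μ M * (1 / 2) ^ t)) := by
              rw [Finset.sum_const, hcard, nsmul_eq_mul, ← ENNReal.ofReal_natCast,
                ← ENNReal.ofReal_mul (by positivity)]
      refine (Finset.sum_le_sum hj).trans (le_of_eq ?_)
      rw [Finset.sum_const, Finset.card_range, nsmul_eq_mul,
        ENNReal.ofReal_mul (p := (L : ℝ) + 1) (by positivity)]
      congr 1
      rw [show ((L : ℝ) + 1) = ((L + 1 : ℕ) : ℝ) by push_cast; ring, ENNReal.ofReal_natCast]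
    refine (Finset.sum_le_sum hterm).trans (le_of_eq ?_)
    rw [Finset.sum_const, card_units, nsmul_eq_mul, ← ENNReal.ofReal_natCast,
      ← ENNReal.ofReal_mul (by positivity)]
    congr 1
    push_cast
    ring

end prob

end Pool.Agent.Helper64.Perc
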