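import Mathlib

/-!
Stable multi-matchings of marked Poisson processes: definitions.
-/

open MeasureTheory ProbabilityTheory

namespace Pool.Agent.Helper64.Perc

/-- Euclidean space of dimension `d`. -/
abbrev Eu (d : ℕ) := EuclideanSpace ℝ (Fin d)

/-- The number of points `x` of `P` such that the marked point `(x, D x)` lies in `S`. -/
noncomputable def cnt {d : ℕ} (P : Set (Eu d)) (D : Eu d → ℕ) (S : Set (Eu d × ℕ)) : ℕ∞ :=
  {x | x ∈ P ∧ (x, D x) ∈ S}.encard

/-- The mean number of marked points in `S` for intensity 1 and mark law `μ`: the measure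
of `S` under the product of Lebesgue measure and `μ`. -/
noncomputable def mean {d : ℕ} (μ : Measure ℕ) (S : Set (Eu d × ℕ)) : ENNReal :=
  ((volume : Measure (Eu d)).prod μ) S

/-- Under the probability measure `Pr`, the random marked points `(x, D x)`, `x` in `P`, form a
Poisson process on `ℝ^d × ℕ` whose intensity is the product of Lebesgue measure and `μ`. In
other words: `P` is a homogeneous Poisson process of intensity 1 on `ℝ^d`, and given `P`
the marks `D x` are independent with law `μ`. -/
structure MarkedPoisson {Ω : Type} [MeasurableSpace Ω] (Pr : Measure Ω) {d : ℕ}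
    (μ : Measure ℕ) (P : Ω → Set (Eu d)) (D : Ω → Eu d → ℕ) : Prop where
  measurable_cnt : ∀ S : Set (Eu d × ℕ), MeasurableSet S → mean μ S ≠ ⊤ →
    Measurable fun ω => cnt (P ω) (D ω) S
  law : ∀ S : Set (Eu d × ℕ), MeasurableSet S → mean μ S ≠ ⊤ → ∀ n : ℕ,
    Pr {ω | cnt (P ω) (D ω) S = n} =
      ENNReal.ofReal (Real.exp (-(mean μ S).toReal) * (mean μ S).toReal ^ n / n.factorial)
  indep : ∀ (ι : Type) [Fintype ι] (S : ι → Set (Eu d × ℕ)), (∀ i, MeasurableSet (S i)) →
    (∀ i, mean μ (S i) ≠ ⊤) → Pairwise (fun i j => Disjoint (S i) (S j)) →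
    iIndepFun (fun i ω => cnt (P ω) (D ω) (S i)) Pr

/-- `G` is a stable multi-matching of the points `P` with numbers of stubs `D`: a simple graph
whose edges join points of `P`, in which every `x` in `P` has exactly `D x` neighbours, and
such that two distinct points `x`, `y` of `P` are adjacent or at least one of them has no
incident edge longer than `|x - y|`. -/
structure IsStableMultiMatching {d : ℕ} (P : Set (Eu d)) (D : Eu d → ℕ)
    (G : SimpleGraph (Eu d)) : Prop where
  mem : ∀ x y, G.Adj x y → x ∈ P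
  degree : ∀ x ∈ P, (G.neighborSet x).encard = D x
  stable : ∀ x ∈ P, ∀ y ∈ P, x ≠ y → G.Adj x y ∨
    (∀ z, G.Adj x z → dist x z ≤ dist x y) ∨ (∀ z, G.Adj y z → dist y z ≤ dist x y)

/-- The half-open cube of side `2^j` with index `c`. -/
def cell {d : ℕ} (j : ℕ) (c : Fin d → ℤ) : Set (Eu d) := {x | ∀ i, ⌊x i / 2 ^ j⌋ = c i}

/-- The index of the cube of side `2^j` that contains `x`. -/
noncomputable def idx {d : ℕ} (j : ℕ) (x : Eu d) : Fin d → ℤ := fun i => ⌊x i / 2 ^ j⌋

/-- `x` has an incident edge longer than `r`. -/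
def Free {d : ℕ} (G : SimpleGraph (Eu d)) (x : Eu d) (r : ℝ) : Prop := ∃ z, G.Adj x z ∧ r < dist x z

/-- `d * 2^j`: two points of one cube of side `2^j` are at smaller distance. -/
noncomputable def rad (d j : ℕ) : ℝ := d * 2 ^ j

/-- the indices at sup distance at most `k` from `c`. -/
noncomputable def near {d : ℕ} (k : ℕ) (c : Fin d → ℤ) : Finset (Fin d → ℤ) :=
  Fintype.piFinset fun i => Finset.Icc (c i - k) (c i + k)

end Pool.Agent.Helper64.Perc
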