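import Pool.Agent.Helper64.Perc.Defs

/-!
Stable multi-matchings: the deterministic part.
-/

open MeasureTheory ProbabilityTheory

namespace Pool.Agent.Helper64.Perc

variable {d : ℕ}

lemma encard_biUnion_le {α β : Type*} (s : Finset β) (f : β → Set α) :
    (⋃ i ∈ s, f i).encard ≤ ∑ i ∈ s, (f i).encard := by
  classical
  induction s using Finset.induction_on with
  | empty => simp
  | insert a s ha ih =>
    rw [Finset.set_biUnion_insert, Finset.sum_insert ha]
    exact (Set.encard_union_le _ _).trans (by gcongr)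

lemma rad_pos (hd : 1 ≤ d) (j : ℕ) : 0 < rad d j := by
  unfold rad
  have : (0 : ℝ) < d := by exact_mod_cast hd
  positivity

lemma rad_succ (j : ℕ) : rad d (j + 1) = 2 * rad d j := by
  unfold rad; ring

lemma rad_mono {i j : ℕ} (h : i ≤ j) : rad d i ≤ rad d j := by
  unfold rad
  have : (2 : ℝ) ^ i ≤ 2 ^ j := pow_le_pow_right₀ (by norm_num) h
  gcongr

lemma dist_le_sum (x y : Eu d) : dist x y ≤ ∑ i, |x i - y i| := by
  rw [EuclideanSpace.dist_eq]
  apply Real.sqrt_le_iff.2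
  refine ⟨Finset.sum_nonneg fun i _ => abs_nonneg _, ?_⟩
  have key : ∀ s : Finset (Fin d), ∑ i ∈ s, |x i - y i| ^ 2 ≤ (∑ i ∈ s, |x i - y i|) ^ 2 := by
    intro s
    induction s using Finset.induction_on with
    | empty => simp
    | insert a s ha ih =>
      rw [Finset.sum_insert ha, Finset.sum_insert ha]
      have h1 : 0 ≤ ∑ i ∈ s, |x i - y i| := Finset.sum_nonneg fun i _ => abs_nonneg _
      nlinarith [abs_nonneg (x a - y a)]
  simpa [Real.dist_eq] using key Finset.univ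

lemma coord_le_dist (x y : Eu d) (i : Fin d) : |x i - y i| ≤ dist x y := by
  rw [dist_eq_norm]
  have := PiLp.norm_apply_le (x - y) i
  simpa [Real.norm_eq_abs] using this

lemma sum_lt_of_forall (hd : 1 ≤ d) {f : Fin d → ℝ} {a : ℝ} (h : ∀ i, f i < a) :
    ∑ i, f i < d * a := by
  have hne : (Finset.univ : Finset (Fin d)).Nonempty := ⟨⟨0, hd⟩, Finset.mem_univ _⟩
  calc ∑ i, f i < ∑ _i : Fin d, a := Finset.sum_lt_sum_of_nonempty hne fun i _ => h i
    _ = d * a := by simp

lemma floor_close {a b : ℝ} (h : ⌊a⌋ = ⌊b⌋) : |a - b| < 1 := Int.abs_sub_lt_one_of_floor_eq_floor h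

lemma dist_lt_of_idx_eq (hd : 1 ≤ d) {j : ℕ} {x y : Eu d} (h : idx j x = idx j y) :
    dist x y < rad d j := by
  refine (dist_le_sum x y).trans_lt ?_
  unfold rad
  refine sum_lt_of_forall hd fun i => ?_
  have h1 : ⌊x i / 2 ^ j⌋ = ⌊y i / 2 ^ j⌋ := congrFun h i
  have h2 := floor_close h1
  have h3 : (0 : ℝ) < 2 ^ j := by positivity
  rw [← sub_div, abs_div, abs_of_pos h3, div_lt_one h3] at h2
  exact h2

lemma mem_near {k : ℕ} {c c' : Fin d → ℤ} : c' ∈ near k c ↔ ∀ i, |c' i - c i| ≤ k := by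
  unfold near
  simp only [Fintype.mem_piFinset, Finset.mem_Icc]
  refine forall_congr' fun i => ?_
  rw [abs_le]
  constructor
  · rintro ⟨h1, h2⟩; constructor <;> omega
  · rintro ⟨h1, h2⟩; constructor <;> omega

lemma card_near (k : ℕ) (c : Fin d → ℤ) : (near k c).card = (2 * k + 1) ^ d := by
  unfold near
  rw [Fintype.card_piFinset]
  simp only [Int.card_Icc]
  have : ∀ i : Fin d, (c i + k + 1 - (c i - k)).toNat = 2 * k + 1 := by
    intro i; omega
  simp [this]

lemma floor_diff {a b : ℝ} {n : ℕ} (h : |a - b| ≤ n) : |⌊a⌋ - ⌊b⌋| ≤ (n : ℤ) := by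
  have h1 := Int.floor_le a
  have h2 := Int.lt_floor_add_one a
  have h3 := Int.floor_le b
  have h4 := Int.lt_floor_add_one b
  rw [abs_le] at h ⊢
  have e1 : ((⌊a⌋ - ⌊b⌋ : ℤ) : ℝ) < (((n : ℤ) + 1 : ℤ) : ℝ) := by push_cast; linarith [h.2]
  have e2 : (((-(n : ℤ) - 1 : ℤ)) : ℝ) < ((⌊a⌋ - ⌊b⌋ : ℤ) : ℝ) := by push_cast; linarith [h.1]
  have e1' := Int.cast_lt.1 e1
  have e2' := Int.cast_lt.1 e2
  constructor <;> omega

lemma idx_near {j : ℕ} {x y : Eu d} (h : dist x y ≤ rad d (j + 1)) :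
    idx j y ∈ near (2 * d) (idx j x) := by
  rw [mem_near]
  intro i
  have h1 := (coord_le_dist x y i).trans h
  have h3 : (0 : ℝ) < 2 ^ j := by positivity
  have h2 : |y i / 2 ^ j - x i / 2 ^ j| ≤ ((2 * d : ℕ) : ℝ) := by
    rw [← sub_div, abs_div, abs_of_pos h3, div_le_iff₀ h3, abs_sub_comm]
    refine h1.trans ?_
    unfold rad
    push_cast
    rw [pow_succ]
    apply le_of_eq
    ring
  exact floor_diff h2

lemma dist_lt_of_near (hd : 1 ≤ d) {j : ℕ} {x y : Eu d} (h : idx j y ∈ near 1 (idx j x)) :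
    dist x y < rad d (j + 1) := by
  refine (dist_le_sum x y).trans_lt ?_
  unfold rad
  refine sum_lt_of_forall hd fun i => ?_
  rw [mem_near] at h
  have h1 := h i
  unfold idx at h1
  have h3 : (0 : ℝ) < 2 ^ j := by positivity
  have a1 := Int.floor_le (x i / 2 ^ j)
  have a2 := Int.lt_floor_add_one (x i / 2 ^ j)
  have b1 := Int.floor_le (y i / 2 ^ j)
  have b2 := Int.lt_floor_add_one (y i / 2 ^ j)
  rw [abs_le] at h1
  have c1 : ((⌊y i / 2 ^ j⌋ - ⌊x i / 2 ^ j⌋ : ℤ) : ℝ) ≤ 1 := by exact_mod_cast h1.2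
  have c2 : (-1 : ℝ) ≤ ((⌊y i / 2 ^ j⌋ - ⌊x i / 2 ^ j⌋ : ℤ) : ℝ) := by exact_mod_cast h1.1
  push_cast at c1 c2
  have e : |x i / 2 ^ j - y i / 2 ^ j| < 2 := by
    rw [abs_lt]; constructor <;> linarith
  rw [← sub_div, abs_div, abs_of_pos h3, div_lt_iff₀ h3] at e
  rw [pow_succ]
  linarith

lemma adj_of_free {P : Set (Eu d)} {D : Eu d → ℕ} {G : SimpleGraph (Eu d)}
    (h : IsStableMultiMatching P D G) {x y : Eu d} (hx : x ∈ P) (hy : y ∈ P) (hne : x ≠ y)
    {r : ℝ} (hr : dist x y ≤ r) (h1 : Free G x r) (h2 : Free G y r) : G.Adj x y := by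
  rcases h.stable x hx y hy hne with h3 | h3 | h3
  · exact h3
  · obtain ⟨z, hz, hz'⟩ := h1
    exact absurd (h3 z hz) (by linarith)
  · obtain ⟨z, hz, hz'⟩ := h2
    exact absurd (h3 z hz) (by linarith)

/-- The clique bound in one cube. -/
lemma encard_clique_le (hd : 1 ≤ d) {P : Set (Eu d)} {D : Eu d → ℕ} {G : SimpleGraph (Eu d)}
    (h : IsStableMultiMatching P D G) {x : Eu d} (hx : x ∈ P) {j : ℕ}
    (c : Fin d → ℤ) {M a : ℕ} :
    {y | G.Adj x y ∧ D y < M ∧ y ∈ cell j c ∧ rad d j < dist x y}.encard ≤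
      (a : ℕ∞) + cnt P D (cell j c ×ˢ Set.Ico a M) := by
  set U := {y | G.Adj x y ∧ D y < M ∧ y ∈ cell j c ∧ rad d j < dist x y} with hU
  by_cases hcase : U.encard ≤ a
  · exact hcase.trans le_self_add
  push Not at hcase
  refine le_trans (Set.encard_le_encard ?_) le_add_self
  intro y hy
  have hyP : y ∈ P := h.mem y x hy.1.symm
  refine ⟨hyP, hy.2.2.1, ?_, hy.2.1⟩
  have hsub : insert x (U \ {y}) ⊆ G.neighborSet y := by
    intro z hz
    rcases hz with rfl | ⟨hz, hzy⟩
    · exact hy.1.symm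
    · have hzP : z ∈ P := h.mem z x hz.1.symm
      have hid : idx j y = idx j z := by
        funext i
        rw [show idx j y i = c i from hy.2.2.1 i, show idx j z i = c i from hz.2.2.1 i]
      have hdist := dist_lt_of_idx_eq hd hid
      refine adj_of_free h hyP hzP (fun e => hzy e.symm) hdist.le ⟨x, hy.1.symm, ?_⟩
        ⟨x, hz.1.symm, ?_⟩
      · rw [dist_comm]; exact hy.2.2.2
      · rw [dist_comm]; exact hz.2.2.2
  have hxU : x ∉ U \ {y} := fun hh => (G.irrefl hh.1.1)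
  have h1 : (insert x (U \ {y})).encard = U.encard := by
    rw [Set.encard_insert_of_notMem hxU, Set.encard_sdiff_singleton_add_one hy]
  have h2 : U.encard ≤ (D y : ℕ∞) := by
    rw [← h1, ← h.degree y hyP]
    exact Set.encard_le_encard hsub
  have h3 : (a : ℕ∞) < (D y : ℕ∞) := hcase.trans_le h2
  exact (by exact_mod_cast h3.le : a ≤ D y)

/-- Lemma 1: a point without an edge longer than `rad d (L+1)` has small degree. -/
theorem degree_le (hd : 1 ≤ d) {P : Set (Eu d)} {D : Eu d → ℕ} {G : SimpleGraph (Eu d)}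
    (h : IsStableMultiMatching P D G) {x : Eu d} (hx : x ∈ P) (M L : ℕ) (a : ℕ → ℕ)
    (ha : a 0 = 0) (hfree : ¬ Free G x (rad d (L + 1))) :
    (D x : ℕ∞) ≤ ∑ c ∈ near (2 * d) (idx L x), cnt P D (cell L c ×ˢ Set.Ici M) +
      ∑ j ∈ Finset.range (L + 1), ∑ c ∈ near (2 * d) (idx j x),
        ((a j : ℕ∞) + cnt P D (cell j c ×ˢ Set.Ico (a j) M)) := by
  rw [← h.degree x hx]
  have hdist : ∀ y, G.Adj x y → dist x y ≤ rad d (L + 1) := by
    intro y hy
    by_contra hlt
    exact hfree ⟨y, hy, not_le.1 hlt⟩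
  have hcov : G.neighborSet x ⊆
      (⋃ c ∈ near (2 * d) (idx L x), {y | y ∈ P ∧ (y, D y) ∈ cell L c ×ˢ Set.Ici M}) ∪
      ⋃ j ∈ Finset.range (L + 1), ⋃ c ∈ near (2 * d) (idx j x),
        {y | G.Adj x y ∧ D y < M ∧ y ∈ cell j c ∧ (j = 0 ∨ rad d j < dist x y)} := by
    intro y hy
    have hy' : G.Adj x y := hy
    have hyP : y ∈ P := h.mem y x hy'.symm
    by_cases hM : M ≤ D y
    · left
      refine Set.mem_biUnion (idx_near (hdist y hy')) ⟨hyP, fun i => rfl, hM⟩
    · right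
      have hex : ∃ j, dist x y ≤ rad d (j + 1) := ⟨L, hdist y hy'⟩
      classical
      have hspec := Nat.find_spec hex
      have hle : Nat.find hex ≤ L := Nat.find_le (hdist y hy')
      refine Set.mem_biUnion (Finset.mem_coe.2 (Finset.mem_range.2 (Nat.lt_succ_of_le hle))) ?_
      refine Set.mem_biUnion (idx_near hspec) ⟨hy', not_le.1 hM, fun i => rfl, ?_⟩
      by_cases h0 : Nat.find hex = 0
      · exact Or.inl h0
      · right
        have hmin := Nat.find_min hex (m := Nat.find hex - 1) (by omega)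
        rw [show Nat.find hex - 1 + 1 = Nat.find hex by omega] at hmin
        exact not_le.1 hmin
  refine (Set.encard_le_encard hcov).trans ((Set.encard_union_le _ _).trans ?_)
  refine add_le_add (encard_biUnion_le _ _) ?_
  refine (encard_biUnion_le _ _).trans (Finset.sum_le_sum fun j _ => ?_)
  refine (encard_biUnion_le _ _).trans (Finset.sum_le_sum fun c _ => ?_)
  rcases Nat.eq_zero_or_pos j with rfl | hj
  · rw [ha]
    refine le_trans (Set.encard_le_encard ?_) le_add_self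
    intro y hy
    exact ⟨h.mem y x hy.1.symm, hy.2.2.1, Nat.zero_le _, hy.2.1⟩
  · refine le_trans (Set.encard_le_encard ?_) (encard_clique_le hd h hx c)
    intro y hy
    exact ⟨hy.1, hy.2.1, hy.2.2.1, hy.2.2.2.resolve_left (by omega)⟩

/-- A sequence of free points at growing scales in nested cubes gives an infinite component. -/
theorem infinite_component_of_chain (hd : 1 ≤ d) {P : Set (Eu d)} {D : Eu d → ℕ}
    {G : SimpleGraph (Eu d)} (h : IsStableMultiMatching P D G) {L₀ : ℕ}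
    (hex : ∀ L, L₀ ≤ L → ∃ x ∈ P, x ∈ cell L (0 : Fin d → ℤ) ∧ Free G x (rad d (L + 1))) :
    ∃ x ∈ P, {y | G.Reachable x y}.Infinite := by
  choose! f hf using hex
  have hstep : ∀ L, L₀ ≤ L → G.Reachable (f L) (f (L + 1)) := by
    intro L hL
    by_cases he : f L = f (L + 1)
    · rw [he]
    · obtain ⟨h1, h2, h3⟩ := hf L hL
      obtain ⟨k1, k2, k3⟩ := hf (L + 1) (by omega)
      have hidx : idx (L + 1) (f L) = 0 := by
        funext i
        have e : ⌊(f L) i / 2 ^ L⌋ = 0 := h2 i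
        rw [Int.floor_eq_zero_iff] at e
        have hp : (0 : ℝ) < 2 ^ L := by positivity
        have e1 : 0 ≤ (f L) i := by
          have := e.1
          rwa [le_div_iff₀ hp, zero_mul] at this
        have e2 : (f L) i < 2 ^ L := by
          have := e.2
          rwa [div_lt_iff₀ hp, one_mul] at this
        show ⌊(f L) i / 2 ^ (L + 1)⌋ = 0
        rw [Int.floor_eq_zero_iff]
        have hp' : (0 : ℝ) < 2 ^ (L + 1) := by positivity
        constructor
        · positivity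
        · rw [div_lt_one hp', pow_succ]
          nlinarith
      have hidx' : idx (L + 1) (f (L + 1)) = 0 := by
        funext i; exact k2 i
      have hdist : dist (f L) (f (L + 1)) < rad d (L + 1) :=
        dist_lt_of_idx_eq hd (hidx.trans hidx'.symm)
      have k3' : Free G (f (L + 1)) (rad d (L + 1)) := by
        obtain ⟨z, hz, hz'⟩ := k3
        exact ⟨z, hz, (rad_mono (by omega)).trans_lt hz'⟩
      exact (adj_of_free h h1 k1 he hdist.le h3 k3').reachable
  have hreach : ∀ k, G.Reachable (f L₀) (f (L₀ + k)) := by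
    intro k
    induction k with
    | zero => exact SimpleGraph.Reachable.refl _
    | succ k ih => exact ih.trans (hstep (L₀ + k) (by omega))
  refine ⟨f L₀, (hf L₀ le_rfl).1, ?_⟩
  intro hfin
  have hb : Bornology.IsBounded {y | G.Reachable (f L₀) y} := hfin.isBounded
  obtain ⟨C, hC⟩ := Metric.isBounded_iff.1 hb
  obtain ⟨n, hn⟩ := pow_unbounded_of_one_lt C (one_lt_two : (1 : ℝ) < 2)
  obtain ⟨z, hz, hz'⟩ := (hf (L₀ + n) (by omega)).2.2
  have h1 : dist (f (L₀ + n)) z ≤ C := hC (hreach n) ((hreach n).trans hz.reachable)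
  have h2 : (2 : ℝ) ^ n ≤ rad d (L₀ + n + 1) := by
    unfold rad
    have hd' : (1 : ℝ) ≤ d := by exact_mod_cast hd
    have h3 : (2 : ℝ) ^ n ≤ 2 ^ (L₀ + n + 1) := pow_le_pow_right₀ (by norm_num) (by omega)
    have h4 : (0 : ℝ) < 2 ^ (L₀ + n + 1) := by positivity
    exact h3.trans (le_mul_of_one_le_left h4.le hd')
  linarith

end Pool.Agent.Helper64.Perc
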