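import Mathlib

/-!
# Parameters for part (A)

`F (2 m) ≥ 2 ^ (-q) F m` gives `F m ≤ 2 ^ q (M / m) ^ q F M` for `m ≤ M`; the level `M` is the least
`m` with `2 ^ (L d) F m ≤ m / K₁`.
-/

open Filter

namespace Pool.Agent.Helper64.Perc

namespace NA

theorem iter {q : ℕ} {F : ℕ → ℝ} (hdb : ∀ m, 1 ≤ m → F m ≤ 2 ^ q * F (2 * m)) {m : ℕ}
    (hm : 1 ≤ m) (j : ℕ) : F m ≤ (2 ^ q) ^ j * F (2 ^ j * m) := by
  induction j with
  | zero => simp
  | succ j ih =>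
    have hpos : 1 ≤ 2 ^ j * m := Nat.mul_pos (by positivity) hm
    have h1 := hdb (2 ^ j * m) hpos
    have e : 2 * (2 ^ j * m) = 2 ^ (j + 1) * m := by ring
    rw [e] at h1
    calc F m ≤ (2 ^ q) ^ j * F (2 ^ j * m) := ih
      _ ≤ (2 ^ q) ^ j * (2 ^ q * F (2 ^ (j + 1) * m)) :=
        mul_le_mul_of_nonneg_left h1 (by positivity)
      _ = (2 ^ q) ^ (j + 1) * F (2 ^ (j + 1) * m) := by ring

theorem growth {q : ℕ} {F : ℕ → ℝ} (hF : Antitone F) (hF0 : ∀ m, 0 ≤ F m)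
    (hdb : ∀ m, 1 ≤ m → F m ≤ 2 ^ q * F (2 * m)) {m M : ℕ} (hm : 1 ≤ m) (hmM : m ≤ M) :
    F m ≤ 2 ^ q * ((M : ℝ) / m) ^ q * F M := by
  have hex : ∃ j, M ≤ 2 ^ j * m := by
    refine ⟨M, ?_⟩
    have h1 : M < 2 ^ M := Nat.lt_two_pow_self
    calc M ≤ 2 ^ M := h1.le
      _ = 2 ^ M * 1 := by ring
      _ ≤ 2 ^ M * m := Nat.mul_le_mul_left _ hm
  classical
  obtain ⟨j, hj, hjmin⟩ : ∃ j, M ≤ 2 ^ j * m ∧ ∀ i < j, ¬ M ≤ 2 ^ i * m :=
    ⟨Nat.find hex, Nat.find_spec hex, fun i hi => Nat.find_min hex hi⟩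
  have hm0 : (0 : ℝ) < m := by exact_mod_cast hm
  have hmM' : (m : ℝ) ≤ M := by exact_mod_cast hmM
  have hlt : (2 : ℝ) ^ j * m ≤ 2 * M := by
    rcases Nat.eq_zero_or_pos j with h0 | h0
    · rw [h0]; simp; linarith
    · obtain ⟨i, rfl⟩ : ∃ i, j = i + 1 := ⟨j - 1, by omega⟩
      have h1 := hjmin i (Nat.lt_succ_self i)
      have h2 : 2 ^ i * m ≤ M := (not_le.1 h1).le
      have h3 : ((2 : ℝ) ^ i * m) ≤ M := by exact_mod_cast h2
      calc (2 : ℝ) ^ (i + 1) * m = 2 * (2 ^ i * m) := by ring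
        _ ≤ 2 * M := by linarith
  have h1 := iter hdb hm j
  have h2 : F (2 ^ j * m) ≤ F M := hF hj
  have h3 : ((2 : ℝ) ^ q) ^ j ≤ 2 ^ q * ((M : ℝ) / m) ^ q := by
    rw [← mul_pow, ← pow_mul, mul_comm q j, pow_mul]
    apply pow_le_pow_left₀ (by positivity)
    rw [← mul_div_assoc, le_div_iff₀ hm0]
    exact hlt
  calc F m ≤ (2 ^ q) ^ j * F (2 ^ j * m) := h1
    _ ≤ (2 ^ q) ^ j * F M := mul_le_mul_of_nonneg_left h2 (by positivity)
    _ ≤ 2 ^ q * ((M : ℝ) / m) ^ q * F M := mul_le_mul_of_nonneg_right h3 (hF0 M)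

/-- Exponentials beat powers. -/
theorem ev_pow (C : ℝ) (k : ℕ) : ∀ᶠ L : ℕ in atTop, C * ((L : ℝ) + 2) ^ k ≤ 2 ^ L := by
  have h1 := tendsto_pow_const_div_const_pow_of_one_lt k (r := (2 : ℝ)) (by norm_num)
  have h2 := (tendsto_add_atTop_iff_nat 2).2 h1
  have hε : (0 : ℝ) < 1 / (4 * (|C| + 1)) := by positivity
  filter_upwards [(tendsto_order.1 h2).2 _ hε] with L hL
  rw [div_lt_div_iff₀ (by positivity) (by positivity)] at hL
  push_cast at hL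
  have e : (2 : ℝ) ^ (L + 2) = 4 * 2 ^ L := by ring
  rw [e] at hL
  have hp : (0 : ℝ) ≤ ((L : ℝ) + 2) ^ k := by positivity
  have hC : C * ((L : ℝ) + 2) ^ k ≤ (|C| + 1) * ((L : ℝ) + 2) ^ k :=
    mul_le_mul_of_nonneg_right (by linarith [le_abs_self C]) hp
  nlinarith [hC, hL]

end NA

open NA in
/-- **Parameters for heavy tails.** -/
theorem paramsA {d q A : ℕ} (hd : 1 ≤ d) (hq : 1 ≤ q) (hA : 1 ≤ A) {F : ℕ → ℝ} (hF : Antitone F)
    (hF0 : ∀ m, 0 ≤ F m) (hF1 : F 0 = 1) (hF1' : F 1 = 1)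
    (ht : Tendsto F atTop (nhds 0)) (hdb : ∀ m, 1 ≤ m → F m ≤ 2 ^ q * F (2 * m)) :
    ∀ᶠ L : ℕ in atTop, ∃ M : ℕ,
      (∀ m : ℕ, 1 ≤ m → m ≤ M → F m ≤ 2 ^ q * ((M : ℝ) / m) ^ q * F M) ∧
      2 ^ (L * d) * F M ≤ M / (144 * A * 2 ^ q * (64 * A * q) ^ q) ∧
      64 * A * (L + 2) ≤ M ∧
      ∀ t : ℕ, M < 64 * A * (L + 2) * (t + 1) →
        Real.exp (-(2 ^ (L * d) * F M)) + A * (1 / 2) ^ t +
          A * (2 ^ (L * d) * F M * (L + 1)) * (1 / 2) ^ t ≤ (1 / 2) ^ L := by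
  have hA' : (1 : ℝ) ≤ A := by exact_mod_cast hA
  have hq' : (1 : ℝ) ≤ q := by exact_mod_cast hq
  set K : ℝ := 144 * A * 2 ^ q * (64 * A * q) ^ q with hK
  have hK2 : (2 : ℝ) ≤ K := by
    have h1 : (1 : ℝ) ≤ 2 ^ q := one_le_pow₀ (by norm_num)
    have h2 : (1 : ℝ) ≤ (64 * A * q) ^ q := one_le_pow₀ (by nlinarith)
    have h3 : (144 : ℝ) ≤ 144 * A := by linarith
    have h4 : (144 : ℝ) ≤ 144 * A * 2 ^ q := by nlinarith
    have h5 : (144 : ℝ) ≤ 144 * A * 2 ^ q * (64 * A * q) ^ q := by nlinarith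
    rw [hK]; linarith
  have hKpos : (0 : ℝ) < K := by linarith
  have hFle : ∀ m, F m ≤ 1 := fun m => by rw [← hF1]; exact hF (Nat.zero_le m)
  -- lower bound for F
  have hlow : ∀ M : ℕ, 1 ≤ M → 1 ≤ (2 * (M : ℝ)) ^ q * F M := by
    intro M hM
    have h := growth hF hF0 hdb (le_refl 1) hM
    rw [hF1'] at h
    rw [mul_pow]
    simpa using h
  set c : ℝ := 1 / (2 ^ q * (2 * K)) with hc
  have hcpos : 0 < c := by rw [hc]; positivity
  -- the polynomial bounds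
  have e1 := ev_pow (2 ^ (q + 1) + 1) (4 * (q + 1))
  have e4 := ev_pow ((A * (1 + 64 * A)) ^ 2) 4
  rw [eventually_atTop] at e4
  obtain ⟨S, hS⟩ := e4
  have e2 : ∀ᶠ L : ℕ in atTop, 1 / c ≤ (L : ℝ) := tendsto_natCast_atTop_atTop.eventually_ge_atTop _
  filter_upwards [e1, e2, eventually_ge_atTop (64 * A), eventually_ge_atTop (S + 2)] with L h1 h2 h3 h4
  -- the level
  have hex : ∃ m : ℕ, 1 ≤ m ∧ 2 ^ (L * d) * F m ≤ m / K := by
    obtain ⟨m, hm⟩ := exists_nat_ge (2 ^ (L * d) * K)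
    refine ⟨m + 1, by omega, ?_⟩
    rw [le_div_iff₀ hKpos]
    have h5 : 2 ^ (L * d) * F (m + 1) * K ≤ 2 ^ (L * d) * 1 * K :=
      mul_le_mul_of_nonneg_right (mul_le_mul_of_nonneg_left (hFle _) (by positivity)) hKpos.le
    push_cast
    linarith
  classical
  obtain ⟨M, ⟨hM1, hM2⟩, hMmin⟩ : ∃ M : ℕ, (1 ≤ M ∧ 2 ^ (L * d) * F M ≤ M / K) ∧
      ∀ m < M, ¬ (1 ≤ m ∧ 2 ^ (L * d) * F m ≤ m / K) :=
    ⟨Nat.find hex, Nat.find_spec hex, fun i hi => Nat.find_min hex hi⟩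
  have hpow1 : (1 : ℝ) ≤ 2 ^ (L * d) := one_le_pow₀ (by norm_num)
  have hMge2 : 2 ≤ M := by
    by_contra hcon
    have hM : M = 1 := by omega
    rw [hM, hF1'] at hM2
    rw [le_div_iff₀ hKpos] at hM2
    push_cast at hM2
    nlinarith
  have hMr : (1 : ℝ) ≤ M := by exact_mod_cast hM1
  have hMr2 : (2 : ℝ) ≤ M := by exact_mod_cast hMge2
  -- lower bound for lambda
  have hlam : c * M ≤ 2 ^ (L * d) * F M := by
    obtain ⟨N, rfl⟩ : ∃ N, M = N + 1 := ⟨M - 1, by omega⟩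
    have hN1 : 1 ≤ N := by omega
    have hn := hMmin N (Nat.lt_succ_self N)
    have hn' : (N : ℝ) / K < 2 ^ (L * d) * F N := by
      by_contra hcon
      exact hn ⟨hN1, not_lt.1 hcon⟩
    have h5 : F (2 * N) ≤ F (N + 1) := hF (by omega)
    have h6 := hdb N hN1
    have h7 : F N ≤ 2 ^ q * F (N + 1) := h6.trans (mul_le_mul_of_nonneg_left h5 (by positivity))
    have hNr : (1 : ℝ) ≤ N := by exact_mod_cast hN1
    have h8 : (N : ℝ) / K ≤ 2 ^ q * (2 ^ (L * d) * F (N + 1)) := by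
      calc (N : ℝ) / K ≤ 2 ^ (L * d) * F N := hn'.le
        _ ≤ 2 ^ (L * d) * (2 ^ q * F (N + 1)) := mul_le_mul_of_nonneg_left h7 (by positivity)
        _ = _ := by ring
    have h9 : ((N : ℝ) + 1) / (2 * K) ≤ (N : ℝ) / K := by
      rw [div_le_div_iff₀ (by positivity) hKpos]
      nlinarith
    have h10 : ((N : ℝ) + 1) / (2 * K) ≤ 2 ^ q * (2 ^ (L * d) * F (N + 1)) := h9.trans h8
    have h11 : c * ((N : ℝ) + 1) = (((N : ℝ) + 1) / (2 * K)) / 2 ^ q := by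
      rw [hc]
      field_simp
    push_cast
    rw [h11, div_le_iff₀ (by positivity)]
    linarith
  -- lower bound for M
  have hMbig : (L + 2) ^ 4 ≤ M := by
    by_contra hcon
    have h5 : M ≤ (L + 2) ^ 4 := (not_le.1 hcon).le
    have h5' : (M : ℝ) ≤ ((L : ℝ) + 2) ^ 4 := by exact_mod_cast h5
    have h6 := hlow M hM1
    have h7 : (2 : ℝ) ^ L ≤ 2 ^ (L * d) :=
      pow_le_pow_right₀ (by norm_num) (Nat.le_mul_of_pos_right L hd)
    have h8 : (2 : ℝ) ^ (L * d) ≤ (2 * (M : ℝ)) ^ q * M := by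
      calc (2 : ℝ) ^ (L * d) = 2 ^ (L * d) * 1 := by ring
        _ ≤ 2 ^ (L * d) * ((2 * (M : ℝ)) ^ q * F M) := mul_le_mul_of_nonneg_left h6 (by positivity)
        _ = (2 * (M : ℝ)) ^ q * (2 ^ (L * d) * F M) := by ring
        _ ≤ (2 * (M : ℝ)) ^ q * (M / K) := mul_le_mul_of_nonneg_left hM2 (by positivity)
        _ ≤ (2 * (M : ℝ)) ^ q * M :=
          mul_le_mul_of_nonneg_left (div_le_self (by positivity) (by linarith)) (by positivity)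
    have h9 : (2 * (M : ℝ)) ^ q * M ≤ (2 * ((L : ℝ) + 2) ^ 4) ^ q * (2 * ((L : ℝ) + 2) ^ 4) := by
      apply mul_le_mul
      · exact pow_le_pow_left₀ (by positivity) (by linarith) _
      · have : (0 : ℝ) ≤ ((L : ℝ) + 2) ^ 4 := by positivity
        linarith
      · positivity
      · positivity
    have h10 : (2 * ((L : ℝ) + 2) ^ 4) ^ q * (2 * ((L : ℝ) + 2) ^ 4) =
        2 ^ (q + 1) * ((L : ℝ) + 2) ^ (4 * (q + 1)) := by
      rw [← pow_succ, mul_pow, ← pow_mul]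
    have h11 : (0 : ℝ) < ((L : ℝ) + 2) ^ (4 * (q + 1)) := by positivity
    have h12 : (2 : ℝ) ^ L ≤ 2 ^ (q + 1) * ((L : ℝ) + 2) ^ (4 * (q + 1)) := by
      rw [← h10]; exact h7.trans (h8.trans h9)
    nlinarith [h1, h12, h11]
  have hMbig' : ((L : ℝ) + 2) ^ 4 ≤ M := by exact_mod_cast hMbig
  have hL0 : (0 : ℝ) ≤ L := Nat.cast_nonneg L
  have h64 : (64 : ℝ) * A ≤ (L : ℝ) + 2 := by
    have : ((64 * A : ℕ) : ℝ) ≤ L := by exact_mod_cast h3
    push_cast at this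
    linarith
  have hcond : 64 * A * (L + 2) ≤ M := by
    have h5 : 64 * A ≤ L + 2 := by omega
    calc 64 * A * (L + 2) ≤ (L + 2) * (L + 2) := Nat.mul_le_mul_right _ h5
      _ = (L + 2) ^ 2 := by ring
      _ ≤ (L + 2) ^ 4 := Nat.pow_le_pow_right (by omega) (by norm_num)
      _ ≤ M := hMbig
  refine ⟨M, fun m hm hmM => growth hF hF0 hdb hm hmM, hM2, hcond, ?_⟩
  intro t htM
  set lam : ℝ := 2 ^ (L * d) * F M with hlamdef
  have hlam0 : 0 ≤ lam := by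
    have := hF0 M
    positivity
  have hlamM : lam ≤ M := hM2.trans (div_le_self (by positivity) (by linarith))
  -- first term
  have t1 : Real.exp (-lam) ≤ (1 / 2) ^ (L + 1) := by
    have h5 : ((L : ℝ) + 1) ≤ lam := by
      have h6 : 1 ≤ c * ((L : ℝ) + 2) := by
        have h7 : c * (1 / c) ≤ c * (L : ℝ) := mul_le_mul_of_nonneg_left h2 hcpos.le
        have h8 : c * (1 / c) = 1 := by field_simp
        nlinarith
      have h7 : ((L : ℝ) + 2) ^ 3 ≤ c * ((L : ℝ) + 2) ^ 4 := by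
        have h8 : (0 : ℝ) ≤ ((L : ℝ) + 2) ^ 3 := by positivity
        calc ((L : ℝ) + 2) ^ 3 = 1 * ((L : ℝ) + 2) ^ 3 := by ring
          _ ≤ (c * ((L : ℝ) + 2)) * ((L : ℝ) + 2) ^ 3 := mul_le_mul_of_nonneg_right h6 h8
          _ = _ := by ring
      have h8 : c * ((L : ℝ) + 2) ^ 4 ≤ c * M := mul_le_mul_of_nonneg_left hMbig' hcpos.le
      have h9 : ((L : ℝ) + 1) ≤ ((L : ℝ) + 2) ^ 3 := by nlinarith [sq_nonneg ((L : ℝ) + 2)]
      linarith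
    calc Real.exp (-lam) ≤ Real.exp (-((L : ℝ) + 1)) := Real.exp_le_exp.2 (by linarith)
      _ = (Real.exp (-1)) ^ (L + 1) := by
        rw [← Real.exp_nat_mul]
        congr 1
        push_cast
        ring
      _ ≤ (1 / 2) ^ (L + 1) := by
        apply pow_le_pow_left₀ (Real.exp_pos _).le
        have h6 : (2 : ℝ) ≤ Real.exp 1 := by
          have := Real.add_one_le_exp (1 : ℝ)
          linarith
        rw [Real.exp_neg, one_div]
        exact inv_anti₀ (by norm_num) h6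
  -- the other terms
  have htM' : (M : ℝ) < 64 * A * (L + 2) * (t + 1) := by exact_mod_cast htM
  have ht2 : (L + 2) ^ 2 ≤ t + 1 := by
    by_contra hcon
    have h5 : t + 1 ≤ (L + 2) ^ 2 := (not_le.1 hcon).le
    have h6 : 64 * A * (L + 2) * (t + 1) ≤ (L + 2) * (L + 2) * (L + 2) ^ 2 :=
      Nat.mul_le_mul (Nat.mul_le_mul_right _ (by omega)) h5
    have h7 : (L + 2) * (L + 2) * (L + 2) ^ 2 = (L + 2) ^ 4 := by ring
    omega
  have ht2' : ((L : ℝ) + 2) ^ 2 ≤ (t : ℝ) + 1 := by exact_mod_cast ht2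
  have hLt : 2 * (L + 1) ≤ t := by
    have h5 : L + 2 ≤ (L + 2) ^ 2 := Nat.le_self_pow (by norm_num) _
    nlinarith [ht2, h3, hA]
  have hSt : S ≤ t := by omega
  have hX := hS t hSt
  set X : ℝ := A * (1 + 64 * A * ((t : ℝ) + 1) ^ 2) with hXdef
  have ht0 : (0 : ℝ) ≤ t := Nat.cast_nonneg t
  have hX0 : 0 ≤ X := by rw [hXdef]; positivity
  have hX2 : X ^ 2 ≤ 2 ^ t := by
    refine le_trans ?_ hX
    have h5 : X ≤ A * (1 + 64 * A) * ((t : ℝ) + 2) ^ 2 := by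
      rw [hXdef]
      have h6 : (1 : ℝ) ≤ ((t : ℝ) + 2) ^ 2 := by nlinarith
      have h7 : ((t : ℝ) + 1) ^ 2 ≤ ((t : ℝ) + 2) ^ 2 := by nlinarith
      have h8 : 1 + 64 * A * ((t : ℝ) + 1) ^ 2 ≤ (1 + 64 * A) * ((t : ℝ) + 2) ^ 2 := by
        have : 64 * (A : ℝ) * ((t : ℝ) + 1) ^ 2 ≤ 64 * A * ((t : ℝ) + 2) ^ 2 :=
          mul_le_mul_of_nonneg_left h7 (by positivity)
        nlinarith
      calc (A : ℝ) * (1 + 64 * A * ((t : ℝ) + 1) ^ 2)
          ≤ A * ((1 + 64 * A) * ((t : ℝ) + 2) ^ 2) := mul_le_mul_of_nonneg_left h8 (by positivity)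
        _ = _ := by ring
    calc X ^ 2 ≤ (A * (1 + 64 * A) * ((t : ℝ) + 2) ^ 2) ^ 2 := pow_le_pow_left₀ hX0 h5 2
      _ = (A * (1 + 64 * A)) ^ 2 * ((t : ℝ) + 2) ^ 4 := by ring
  have hY2 : ((2 : ℝ) ^ (L + 1)) ^ 2 ≤ 2 ^ t := by
    rw [← pow_mul]
    exact pow_le_pow_right₀ (by norm_num) (by omega)
  have hXY : X * 2 ^ (L + 1) ≤ 2 ^ t := by
    have h5 : (X * 2 ^ (L + 1)) ^ 2 ≤ ((2 : ℝ) ^ t) ^ 2 := by
      calc (X * 2 ^ (L + 1)) ^ 2 = X ^ 2 * (2 ^ (L + 1)) ^ 2 := by ring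
        _ ≤ 2 ^ t * 2 ^ t := mul_le_mul hX2 hY2 (by positivity) (by positivity)
        _ = _ := by ring
    exact (pow_le_pow_iff_left₀ (by positivity) (by positivity) (by norm_num)).1 h5
  have hcoef : A + A * (lam * (L + 1)) ≤ X := by
    have h5 : lam * ((L : ℝ) + 1) ≤ 64 * A * ((t : ℝ) + 1) ^ 2 := by
      have h6 : lam * ((L : ℝ) + 1) ≤ (64 * A * (L + 2) * (t + 1)) * ((L : ℝ) + 2) :=
        mul_le_mul (hlamM.trans htM'.le) (by linarith) (by positivity) (by positivity)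
      have h7 : (64 * (A : ℝ) * (L + 2) * (t + 1)) * ((L : ℝ) + 2) =
          (64 * A * ((t : ℝ) + 1)) * ((L : ℝ) + 2) ^ 2 := by ring
      have h8 : (64 * A * ((t : ℝ) + 1)) * ((L : ℝ) + 2) ^ 2 ≤
          (64 * A * ((t : ℝ) + 1)) * ((t : ℝ) + 1) :=
        mul_le_mul_of_nonneg_left ht2' (by positivity)
      nlinarith
    rw [hXdef]
    nlinarith
  have t2 : A * (1 / 2 : ℝ) ^ t + A * (lam * (L + 1)) * (1 / 2) ^ t ≤ (1 / 2) ^ (L + 1) := by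
    have e5 : A * (1 / 2 : ℝ) ^ t + A * (lam * (L + 1)) * (1 / 2) ^ t =
        (A + A * (lam * (L + 1))) * (1 / 2) ^ t := by ring
    rw [e5]
    have h5 : (A + A * (lam * (L + 1))) * (1 / 2 : ℝ) ^ t ≤ X * (1 / 2) ^ t :=
      mul_le_mul_of_nonneg_right hcoef (by positivity)
    refine h5.trans ?_
    rw [one_div, inv_pow, inv_pow, ← div_eq_mul_inv, div_le_iff₀ (by positivity)]
    rw [inv_mul_eq_div, le_div_iff₀ (by positivity)]
    exact hXY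
  have efin : ((1 : ℝ) / 2) ^ L = (1 / 2) ^ (L + 1) + (1 / 2) ^ (L + 1) := by
    rw [pow_succ]; ring
  rw [efin, add_assoc]
  exact add_le_add t1 t2

end Pool.Agent.Helper64.Perc
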