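import Mathlib

/-!
Row N1 of MP_5d439e: the choice of thresholds in the box lemma.
-/

namespace Pool.Agent.Helper64.Perc

lemma geom_refl {r : ℝ} (hr0 : 0 ≤ r) (hr1 : r < 1) (L : ℕ) :
    ∑ j ∈ Finset.range (L + 1), r ^ (L - j) ≤ 1 / (1 - r) := by
  have h1 : ∑ j ∈ Finset.range (L + 1), r ^ (L - j) = ∑ j ∈ Finset.range (L + 1), r ^ j := by
    have := Finset.sum_range_reflect (fun i => r ^ i) (L + 1)
    simpa using this
  rw [h1, le_div_iff₀ (by linarith), geom_sum_mul_neg]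
  have : 0 ≤ r ^ (L + 1) := by positivity
  linarith

lemma theta_pow {q : ℕ} (hq : 1 ≤ q) : (3 / 4 : ℝ) ≤ (1 - 1 / (4 * (q : ℝ))) ^ q := by
  have hq' : (1 : ℝ) ≤ q := by exact_mod_cast hq
  have hq0 : (q : ℝ) ≠ 0 := by positivity
  have h0 : 1 / (4 * (q : ℝ)) ≤ 1 := by
    rw [div_le_one (by positivity)]; linarith
  have h := one_add_mul_le_pow (a := -(1 / (4 * (q : ℝ)))) (by linarith) q
  have e : 1 + (q : ℝ) * (-(1 / (4 * (q : ℝ)))) = 3 / 4 := by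
    field_simp; ring
  rw [e] at h
  have e2 : 1 + -(1 / (4 * (q : ℝ))) = 1 - 1 / (4 * (q : ℝ)) := by ring
  rwa [e2] at h

/-- The thresholds: `⌈M θ^(L-j) / C⌉` for `1 ≤ j ≤ L`, and `0` otherwise. -/
noncomputable def thr (θ C : ℝ) (M L j : ℕ) : ℕ :=
  if j = 0 ∨ L < j then 0 else ⌈(M : ℝ) * θ ^ (L - j) / C⌉₊

lemma thr_zero (θ C : ℝ) (M L : ℕ) : thr θ C M L 0 = 0 := by simp [thr]

lemma thr_val (θ C : ℝ) {M L j : ℕ} (h1 : 1 ≤ j) (h2 : j ≤ L) :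
    thr θ C M L j = ⌈(M : ℝ) * θ ^ (L - j) / C⌉₊ := by
  have : ¬ (j = 0 ∨ L < j) := by omega
  simp only [thr, if_neg this]

lemma thr_le {θ C : ℝ} (hθ0 : 0 < θ) (hθ1 : θ < 1) (hC1 : 1 ≤ C) (M L j : ℕ) :
    thr θ C M L j ≤ M := by
  have hM : (0 : ℝ) ≤ M := Nat.cast_nonneg M
  by_cases h : j = 0 ∨ L < j
  · simp only [thr, if_pos h]; omega
  · simp only [thr, if_neg h]
    apply Nat.ceil_le.mpr
    have h1 : θ ^ (L - j) ≤ 1 := pow_le_one₀ hθ0.le hθ1.le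
    rw [div_le_iff₀ (by linarith)]
    nlinarith [mul_le_mul_of_nonneg_left h1 hM, mul_le_mul_of_nonneg_left hC1 hM]

lemma thr_size {θ C : ℝ} (hθ0 : 0 < θ) (hC1 : 1 ≤ C) (A : ℕ) {M L j : ℕ} (hj : j ≤ L) :
    (A : ℝ) * thr θ C M L j ≤ A * M / C * θ ^ (L - j) + A := by
  have hA : (0 : ℝ) ≤ A := Nat.cast_nonneg A
  have hC0 : 0 < C := by linarith
  rcases Nat.eq_zero_or_pos j with h0 | h0
  · rw [h0, thr_zero]
    have : 0 ≤ A * M / C * θ ^ (L - 0) := by positivity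
    simp only [Nat.cast_zero, mul_zero]
    linarith
  · rw [thr_val θ C h0 hj]
    have h1 : (⌈(M : ℝ) * θ ^ (L - j) / C⌉₊ : ℝ) ≤ (M : ℝ) * θ ^ (L - j) / C + 1 :=
      (Nat.ceil_lt_add_one (by positivity)).le
    calc (A : ℝ) * (⌈(M : ℝ) * θ ^ (L - j) / C⌉₊ : ℝ)
        ≤ A * ((M : ℝ) * θ ^ (L - j) / C + 1) :=
          mul_le_mul_of_nonneg_left h1 hA
      _ = A * M / C * θ ^ (L - j) + A := by ring

lemma thr_mass {d : ℕ} (hd : 1 ≤ d) {q : ℕ} {θ C K₃ : ℝ} (hθ0 : 0 < θ) (hθ1 : θ < 1)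
    (hθq : (3 / 4 : ℝ) ≤ θ ^ q) (hC1 : 1 ≤ C) (hK₃ : 1 ≤ K₃) {F : ℕ → ℝ} (hF0 : ∀ m, 0 ≤ F m)
    {M L : ℕ} (hM : 1 ≤ M)
    (ha : ∀ m : ℕ, 1 ≤ m → m ≤ M → F m ≤ K₃ * ((M : ℝ) / m) ^ q * F M)
    {j : ℕ} (h1 : 1 ≤ j) (h2 : j ≤ L) :
    2 ^ (j * d) * F (thr θ C M L j) ≤
      K₃ * C ^ q * (2 ^ (L * d) * F M) * (2 / 3) ^ (L - j) := by
  have hMR : (1 : ℝ) ≤ M := by exact_mod_cast hM
  have hC0 : 0 < C := by linarith
  set a := thr θ C M L j with hadef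
  set u := L - j with hu
  have hMu : 0 < (M : ℝ) * θ ^ u / C := by positivity
  have hav : a = ⌈(M : ℝ) * θ ^ u / C⌉₊ := thr_val θ C h1 h2
  have haM : a ≤ M := thr_le hθ0 hθ1 hC1 M L j
  have haj : (M : ℝ) * θ ^ u / C ≤ a := by
    rw [hav]; exact Nat.le_ceil _
  have haj1 : 1 ≤ a := by
    rw [hav]; exact Nat.ceil_pos.mpr hMu
  have hajR : (1 : ℝ) ≤ a := by exact_mod_cast haj1
  have h3 := ha a haj1 haM
  have h4 : (M : ℝ) / a ≤ C * (θ ^ u)⁻¹ := by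
    rw [div_le_iff₀ (by linarith)]
    have h5 : (M : ℝ) = (C * (θ ^ u)⁻¹) * ((M : ℝ) * θ ^ u / C) := by
      field_simp
    calc (M : ℝ) = (C * (θ ^ u)⁻¹) * ((M : ℝ) * θ ^ u / C) := h5
      _ ≤ (C * (θ ^ u)⁻¹) * a := mul_le_mul_of_nonneg_left haj (by positivity)
  have h6 : ((M : ℝ) / a) ^ q ≤ C ^ q * (4 / 3) ^ u := by
    calc ((M : ℝ) / a) ^ q ≤ (C * (θ ^ u)⁻¹) ^ q := pow_le_pow_left₀ (by positivity) h4 q
      _ = C ^ q * ((θ ^ q)⁻¹) ^ u := by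
        rw [mul_pow, inv_pow, inv_pow, ← pow_mul, ← pow_mul, mul_comm u q]
      _ ≤ C ^ q * (4 / 3) ^ u := by
        apply mul_le_mul_of_nonneg_left _ (by positivity)
        apply pow_le_pow_left₀ (by positivity)
        rw [inv_le_comm₀ (by positivity) (by norm_num)]
        norm_num
        linarith
  have h7 : F a ≤ K₃ * (C ^ q * (4 / 3) ^ u) * F M := by
    refine h3.trans ?_
    apply mul_le_mul_of_nonneg_right _ (hF0 M)
    exact mul_le_mul_of_nonneg_left h6 (by linarith)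
  have h8 : (2 : ℝ) ^ (j * d) ≤ 2 ^ (L * d) * (1 / 2) ^ u := by
    have e : (2 : ℝ) ^ (L * d) = 2 ^ (j * d) * 2 ^ (u * d) := by
      rw [← pow_add, ← Nat.add_mul]
      congr 2
      omega
    have h9 : (2 : ℝ) ^ u ≤ 2 ^ (u * d) :=
      pow_le_pow_right₀ (by norm_num) (Nat.le_mul_of_pos_right u (by omega))
    have h10 : (1 : ℝ) ≤ 2 ^ (u * d) * (1 / 2) ^ u := by
      rw [one_div, inv_pow, ← div_eq_mul_inv, le_div_iff₀ (by positivity)]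
      linarith
    calc (2 : ℝ) ^ (j * d) = 2 ^ (j * d) * 1 := (mul_one _).symm
      _ ≤ 2 ^ (j * d) * (2 ^ (u * d) * (1 / 2) ^ u) :=
        mul_le_mul_of_nonneg_left h10 (by positivity)
      _ = 2 ^ (L * d) * (1 / 2) ^ u := by rw [e]; ring
  have h11 : (0 : ℝ) ≤ K₃ * (C ^ q * (4 / 3) ^ u) * F M :=
    mul_nonneg (by positivity) (hF0 M)
  calc 2 ^ (j * d) * F a
      ≤ (2 ^ (L * d) * (1 / 2) ^ u) * (K₃ * (C ^ q * (4 / 3) ^ u) * F M) :=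
        mul_le_mul h8 h7 (hF0 _) (by positivity)
    _ = K₃ * C ^ q * (2 ^ (L * d) * F M) * ((1 / 2) ^ u * (4 / 3) ^ u) := by ring
    _ = K₃ * C ^ q * (2 ^ (L * d) * F M) * (2 / 3) ^ u := by
        rw [← mul_pow]; norm_num

/-- The summation in the box lemma. -/
lemma box_sum {q A L M t : ℕ} (hq : 1 ≤ q) (hA : 1 ≤ A) {K₃ X θ C : ℝ}
    (hK₃ : 1 ≤ K₃) (hX0 : 0 ≤ X) (hθ : θ = 1 - 1 / (4 * (q : ℝ))) (hθ0 : 0 < θ) (hθ1 : θ < 1)
    (hC : C = 64 * A * q) (hC1 : 1 ≤ C) (hb' : A * K₃ * C ^ q * X ≤ M / 144)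
    (hc : 64 * A * (L + 2) ≤ M) (ht : 64 * A * (L + 2) * t ≤ M) {a b : ℕ → ℕ} {bH : ℕ}
    (hakey : ∀ j, j ≤ L → (A : ℝ) * a j ≤ A * M / C * θ ^ (L - j) + A)
    (hbkey : ∀ j, j ≤ L → (A : ℝ) * b j ≤ 3 * (A * K₃ * C ^ q * X) * (2 / 3) ^ (L - j) +
      (if j = 0 then 3 * (A : ℝ) else 0) + A * (t + 1))
    (hbH : (A : ℝ) * bH ≤ 3 * (A * X) + A * (t + 1)) :
    A * bH + ∑ j ∈ Finset.range (L + 1), A * (a j + b j) ≤ M := by
  have hAR : (1 : ℝ) ≤ A := by exact_mod_cast hA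
  have hqR : (1 : ℝ) ≤ q := by exact_mod_cast hq
  have hC0 : 0 < C := by linarith
  have hCq : 1 ≤ C ^ q := one_le_pow₀ hC1
  have hsum : ∑ j ∈ Finset.range (L + 1), ((A : ℝ) * (a j + b j)) ≤
      (A * M / C) * (4 * q) + A * (L + 1) + 3 * (A * K₃ * C ^ q * X) * 3 + 3 * A +
        A * (t + 1) * (L + 1) := by
    have h1 : ∀ j ∈ Finset.range (L + 1), (A : ℝ) * (a j + b j) ≤
        (A * M / C * θ ^ (L - j) + A) + (3 * (A * K₃ * C ^ q * X) * (2 / 3) ^ (L - j) +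
        (if j = 0 then 3 * (A : ℝ) else 0) + A * (t + 1)) := by
      intro j hj
      have hj' : j ≤ L := by have := Finset.mem_range.mp hj; omega
      have e1 := hakey j hj'
      have e2 := hbkey j hj'
      linarith
    refine (Finset.sum_le_sum h1).trans ?_
    simp only [Finset.sum_add_distrib, ← Finset.mul_sum, Finset.sum_const, Finset.card_range,
      nsmul_eq_mul]
    have g1 := geom_refl hθ0.le hθ1 L
    have e1 : 1 / (1 - θ) = 4 * (q : ℝ) := by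
      rw [hθ]; field_simp; ring
    rw [e1] at g1
    have g2 := geom_refl (r := (2 / 3 : ℝ)) (by norm_num) (by norm_num) L
    have e2 : 1 / (1 - (2 / 3 : ℝ)) = 3 := by norm_num
    rw [e2] at g2
    have e3 : ∑ j ∈ Finset.range (L + 1), (if j = 0 then 3 * (A : ℝ) else 0) = 3 * A := by
      rw [Finset.sum_ite_eq' (Finset.range (L + 1)) 0 (fun _ => 3 * (A : ℝ))]
      simp
    rw [e3]
    have p1 := mul_le_mul_of_nonneg_left g1 (by positivity : 0 ≤ (A : ℝ) * M / C)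
    have p2 := mul_le_mul_of_nonneg_left g2
      (by positivity : 0 ≤ 3 * (A * K₃ * C ^ q * X))
    push_cast
    linarith
  have hAX : A * X ≤ M / 144 := by
    have h0 : 1 ≤ K₃ * C ^ q := by nlinarith
    have h1 : (A : ℝ) * X * 1 ≤ A * X * (K₃ * C ^ q) :=
      mul_le_mul_of_nonneg_left h0 (by positivity)
    calc (A : ℝ) * X = A * X * 1 := (mul_one _).symm
      _ ≤ A * X * (K₃ * C ^ q) := h1
      _ = A * K₃ * C ^ q * X := by ring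
      _ ≤ _ := hb'
  have hAM : (A * M / C) * (4 * (q : ℝ)) = M / 16 := by
    rw [hC]; field_simp; ring
  have hAL : (A : ℝ) * (L + 2) ≤ M / 64 := by
    have : ((64 * A * (L + 2) : ℕ) : ℝ) ≤ M := by exact_mod_cast hc
    push_cast at this
    rw [le_div_iff₀ (by norm_num)]
    linarith
  have htM : (A : ℝ) * t * (L + 2) ≤ M / 64 := by
    have : ((64 * A * (L + 2) * t : ℕ) : ℝ) ≤ M := by exact_mod_cast ht
    push_cast at this
    rw [le_div_iff₀ (by norm_num)]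
    linarith
  have hgoal : ((A * bH + ∑ j ∈ Finset.range (L + 1), A * (a j + b j) : ℕ) : ℝ) ≤ M := by
    push_cast
    rw [hAM] at hsum
    have hALpos : 0 ≤ (A : ℝ) * L := by positivity
    have e5 : (A : ℝ) * (t + 1) + A * (t + 1) * (L + 1) = A * t * (L + 2) + A * (L + 2) := by
      ring
    have e6 : (A : ℝ) * (L + 1) + 3 * A = 2 * (A * (L + 2)) - A * L := by ring
    have hM0 : (0 : ℝ) ≤ M := Nat.cast_nonneg M
    linarith
  exact_mod_cast hgoal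

theorem box_params {d : ℕ} (hd : 1 ≤ d) {q : ℕ} (hq : 1 ≤ q) {K₃ : ℝ} (hK₃ : 1 ≤ K₃)
    {A : ℕ} (hA : 1 ≤ A) {F : ℕ → ℝ} (hF : Antitone F) (hF0 : ∀ m, 0 ≤ F m)
    (hF1 : ∀ m, F m ≤ 1) {M L : ℕ}
    (ha : ∀ m : ℕ, 1 ≤ m → m ≤ M → F m ≤ K₃ * ((M : ℝ) / m) ^ q * F M)
    (hb : 2 ^ (L * d) * F M ≤ M / (144 * A * K₃ * (64 * A * q) ^ q))
    (hc : 64 * A * (L + 2) ≤ M) :
    ∃ (a b : ℕ → ℕ) (bH t : ℕ), a 0 = 0 ∧ (∀ j, a j ≤ M) ∧
      (3 * (2 ^ (L * d) * F M) + t ≤ bH) ∧ (∀ j, j ≤ L → 3 * (2 ^ (j * d) * F (a j)) + t ≤ b j) ∧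
      A * bH + ∑ j ∈ Finset.range (L + 1), A * (a j + b j) ≤ M ∧
      M < 64 * A * (L + 2) * (t + 1) := by
  have _ := hF
  have hqR : (1 : ℝ) ≤ q := by exact_mod_cast hq
  have hAR : (1 : ℝ) ≤ A := by exact_mod_cast hA
  have hM1 : 1 ≤ M := by
    have : 1 ≤ 64 * A * (L + 2) := Nat.succ_le_of_lt (by positivity)
    omega
  obtain ⟨C, hC⟩ : ∃ C : ℝ, C = 64 * A * q := ⟨_, rfl⟩
  rw [← hC] at hb
  have hC1 : 1 ≤ C := by
    rw [hC]
    nlinarith [mul_le_mul hAR hqR (by norm_num) (by linarith : (0 : ℝ) ≤ A)]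
  have hC0 : 0 < C := by linarith
  obtain ⟨θ, hθ⟩ : ∃ θ : ℝ, θ = 1 - 1 / (4 * (q : ℝ)) := ⟨_, rfl⟩
  have h4q : 1 / (4 * (q : ℝ)) ≤ 1 / 4 := by
    apply one_div_le_one_div_of_le (by norm_num); linarith
  have h4q0 : 0 < 1 / (4 * (q : ℝ)) := by positivity
  have hθ0 : 0 < θ := by rw [hθ]; linarith
  have hθ1 : θ < 1 := by rw [hθ]; linarith
  have hθq : (3 / 4 : ℝ) ≤ θ ^ q := by rw [hθ]; exact theta_pow hq
  obtain ⟨X, hX⟩ : ∃ X : ℝ, X = 2 ^ (L * d) * F M := ⟨_, rfl⟩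
  have hX0 : 0 ≤ X := by rw [hX]; exact mul_nonneg (by positivity) (hF0 M)
  have hb' : A * K₃ * C ^ q * X ≤ M / 144 := by
    have hpos : (0 : ℝ) < 144 * A * K₃ * C ^ q := by positivity
    rw [← hX] at hb
    have := (le_div_iff₀ hpos).mp hb
    rw [le_div_iff₀ (by norm_num)]
    linarith
  obtain ⟨t, ht⟩ : ∃ t : ℕ, t = M / (64 * A * (L + 2)) := ⟨_, rfl⟩
  obtain ⟨a, hadef⟩ : ∃ a : ℕ → ℕ, a = thr θ C M L := ⟨_, rfl⟩
  have hbj : ∀ j, 0 ≤ 3 * (2 ^ (j * d) * F (a j)) := fun j =>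
    mul_nonneg (by norm_num) (mul_nonneg (by positivity) (hF0 _))
  obtain ⟨b, hbdef⟩ : ∃ b : ℕ → ℕ, ∀ j, b j = ⌈3 * (2 ^ (j * d) * F (a j))⌉₊ + t :=
    ⟨_, fun _ => rfl⟩
  obtain ⟨bH, hbHdef⟩ : ∃ bH : ℕ, bH = ⌈3 * X⌉₊ + t := ⟨_, rfl⟩
  have ha0 : a 0 = 0 := by rw [hadef]; exact thr_zero θ C M L
  refine ⟨a, b, bH, t, ha0, ?_, ?_, ?_, ?_, ?_⟩
  · intro j
    rw [hadef]; exact thr_le hθ0 hθ1 hC1 M L j
  · have := Nat.le_ceil (3 * X)
    rw [hbHdef, ← hX]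
    push_cast
    linarith
  · intro j _
    have := Nat.le_ceil (3 * (2 ^ (j * d) * F (a j)))
    rw [hbdef]
    push_cast
    linarith
  · refine box_sum (t := t) hq hA hK₃ hX0 hθ hθ0 hθ1 hC hC1 hb' hc ?_ ?_ ?_ ?_
    · rw [ht]; exact Nat.mul_div_le M _
    · intro j hj
      rw [hadef]; exact thr_size hθ0 hC1 A hj
    · intro j hj
      have h1 : (b j : ℝ) ≤ 3 * (2 ^ (j * d) * F (a j)) + 1 + t := by
        rw [hbdef]
        push_cast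
        have := (Nat.ceil_lt_add_one (hbj j)).le
        linarith
      have h2 : (A : ℝ) * b j ≤ A * (3 * (2 ^ (j * d) * F (a j)) + 1 + t) :=
        mul_le_mul_of_nonneg_left h1 (by linarith)
      have h0 : 0 ≤ 3 * (A * K₃ * C ^ q * X) * (2 / 3 : ℝ) ^ (L - j) := by positivity
      rcases Nat.eq_zero_or_pos j with h3 | h3
      · rw [if_pos h3]
        have h4 : 2 ^ (j * d) * F (a j) ≤ 1 := by
          rw [h3]; simpa using hF1 (a 0)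
        have h5 : (A : ℝ) * (2 ^ (j * d) * F (a j)) ≤ A * 1 :=
          mul_le_mul_of_nonneg_left h4 (by linarith)
        linarith
      · rw [if_neg (by omega)]
        have h6 : 2 ^ (j * d) * F (a j) ≤ K₃ * C ^ q * X * (2 / 3) ^ (L - j) := by
          rw [hadef, hX]
          exact thr_mass hd hθ0 hθ1 hθq hC1 hK₃ hF0 hM1 ha h3 hj
        have h4 := mul_le_mul_of_nonneg_left h6 (by linarith : (0 : ℝ) ≤ A)
        linarith
    · have h1 : (bH : ℝ) ≤ 3 * X + 1 + t := by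
        rw [hbHdef]
        push_cast
        have := (Nat.ceil_lt_add_one (by positivity : (0 : ℝ) ≤ 3 * X)).le
        linarith
      have h2 : (A : ℝ) * bH ≤ A * (3 * X + 1 + t) :=
        mul_le_mul_of_nonneg_left h1 (by linarith)
      linarith
  · rw [ht]
    exact Nat.lt_mul_div_succ M (by positivity)

end Pool.Agent.Helper64.Perc
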