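import Pool.Agent.Helper64.Perc.BoxProb
import Pool.Agent.Helper64.Perc.NumBox
import Pool.Agent.Helper64.Perc.NumA

/-!
Percolation in every dimension for laws with heavy tails: assembly.
-/

open MeasureTheory ProbabilityTheory Filter

namespace Pool.Agent.Helper64.Perc


variable {d : ℕ} {Ω : Type} [MeasurableSpace Ω] {Pr : Measure Ω} [IsProbabilityMeasure Pr]
  {μ : Measure ℕ} [IsProbabilityMeasure μ] {P : Ω → Set (Eu d)} {D : Ω → Eu d → ℕ}
  {G : Ω → SimpleGraph (Eu d)}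

omit [IsProbabilityMeasure Pr] in
/-- Borel-Cantelli and the chain of free points. -/
lemma percolates_of_events (hd : 1 ≤ d) {E : ℕ → Set Ω} (hsum : ∑' L, Pr (E L) ≠ ⊤) {L₀ : ℕ}
    (hE : ∀ L, L₀ ≤ L → ∀ ω, ω ∉ E L → ∀ G : SimpleGraph (Eu d),
      IsStableMultiMatching (P ω) (D ω) G →
      ∃ x ∈ P ω, x ∈ cell L (0 : Fin d → ℤ) ∧ Free G x (rad d (L + 1)))
    (hG : ∀ᵐ ω ∂Pr, IsStableMultiMatching (P ω) (D ω) (G ω)) :
    ∀ᵐ ω ∂Pr, ∃ x ∈ P ω, {y | (G ω).Reachable x y}.Infinite := by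
  filter_upwards [ae_eventually_notMem hsum, hG] with ω h1 h2
  obtain ⟨N, hN⟩ := eventually_atTop.1 h1
  exact infinite_component_of_chain hd h2 (L₀ := max L₀ N) fun L hL =>
    hE L ((le_max_left _ _).trans hL) ω (hN L ((le_max_right _ _).trans hL)) (G ω) h2

lemma tail_zero : tail μ 0 = 1 := by
  unfold tail
  have : Set.Ici (0 : ℕ) = Set.univ := by ext; simp
  rw [this, measure_univ, ENNReal.toReal_one]

lemma tail_one (h0 : μ {0} = 0) : tail μ 1 = 1 := by
  unfold tail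
  have h1 : Set.Ici (1 : ℕ) = {0}ᶜ := by
    ext n; simp [Nat.one_le_iff_ne_zero]
  rw [h1, prob_compl_eq_one_sub (measurableSet_singleton 0), h0, tsub_zero, ENNReal.toReal_one]

lemma tendsto_tail : Tendsto (tail μ) atTop (nhds 0) := by
  have h1 : Tendsto (fun n : ℕ => μ (Set.Ici n)) atTop (nhds (μ (⋂ n : ℕ, Set.Ici n))) :=
    tendsto_measure_iInter_atTop (fun n => measurableSet_Ici.nullMeasurableSet)
      (fun m n h => Set.Ici_subset_Ici.2 h) ⟨0, measure_ne_top μ _⟩
  have h2 : (⋂ n : ℕ, Set.Ici n) = (∅ : Set ℕ) := by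
    ext k
    simp only [Set.mem_iInter, Set.mem_Ici, Set.mem_empty_iff_false, iff_false, not_forall,
      not_le]
    exact ⟨k + 1, Nat.lt_succ_self k⟩
  rw [h2, measure_empty] at h1
  have h3 := (ENNReal.tendsto_toReal ENNReal.zero_ne_top).comp h1
  rw [ENNReal.toReal_zero] at h3
  exact h3

/-- Percolation for laws whose tail satisfies `F(2m) ≥ c F(m)`. -/
theorem percolates_of_doubling (hd : 1 ≤ d) (h0 : μ {0} = 0) {c : ℝ} (hc : 0 < c)
    (hdb : ∀ m : ℕ, 1 ≤ m → c * tail μ m ≤ tail μ (2 * m))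
    (hP : MarkedPoisson Pr μ P D)
    (hG : ∀ᵐ ω ∂Pr, IsStableMultiMatching (P ω) (D ω) (G ω)) :
    ∀ᵐ ω ∂Pr, ∃ x ∈ P ω, {y | (G ω).Reachable x y}.Infinite := by
  have hA1 : 1 ≤ (4 * d + 1) ^ d := Nat.one_le_pow _ _ (by omega)
  have hanti : Antitone (tail μ) := by
    intro m n hmn
    exact ENNReal.toReal_mono (measure_ne_top μ _) (measure_mono (Set.Ici_subset_Ici.2 hmn))
  have hnn : ∀ m, 0 ≤ tail μ m := fun m => ENNReal.toReal_nonneg
  have hle : ∀ m, tail μ m ≤ 1 := fun m => by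
    rw [← tail_zero (μ := μ)]; exact hanti (Nat.zero_le m)
  obtain ⟨q, hq⟩ := pow_unbounded_of_one_lt (1 / c) (one_lt_two : (1 : ℝ) < 2)
  have hdb' : ∀ m, 1 ≤ m → tail μ m ≤ 2 ^ (q + 1) * tail μ (2 * m) := by
    intro m hm
    have h1 := hdb m hm
    have h2 : 1 ≤ c * 2 ^ (q + 1) := by
      rw [div_lt_iff₀ hc] at hq
      rw [pow_succ]
      nlinarith [pow_pos (zero_lt_two : (0 : ℝ) < 2) q]
    calc tail μ m ≤ (c * 2 ^ (q + 1)) * tail μ m := le_mul_of_one_le_left (hnn m) h2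
      _ = 2 ^ (q + 1) * (c * tail μ m) := by ring
      _ ≤ 2 ^ (q + 1) * tail μ (2 * m) := by gcongr
  have hA := paramsA (d := d) (q := q + 1) (A := (4 * d + 1) ^ d) hd (by omega) hA1 hanti hnn
    tail_zero (tail_one h0) tendsto_tail hdb'
  obtain ⟨L₀, hL₀⟩ := eventually_atTop.1 hA
  have hex : ∀ L, L₀ ≤ L → ∃ E : Set Ω, Pr E ≤ ENNReal.ofReal ((1 / 2) ^ L) ∧
      ∀ ω, ω ∉ E → ∀ G : SimpleGraph (Eu d), IsStableMultiMatching (P ω) (D ω) G →
      ∃ x ∈ P ω, x ∈ cell L (0 : Fin d → ℤ) ∧ Free G x (rad d (L + 1)) := by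
    intro L hL
    obtain ⟨M, h1, h2, h3, h4⟩ := hL₀ L hL
    obtain ⟨a, b, bH, t, ha0, haM, hbH, hb, hsum, ht⟩ := box_params (d := d) hd
      (q := q + 1) (by omega) (K₃ := 2 ^ (q + 1)) (one_le_pow₀ one_le_two) hA1 hanti hnn hle
      h1 h2 h3
    refine ⟨{ω | BadCell (P ω) (D ω) M L a b bH 0},
      (pr_badCell_le hP hbH hb 0).trans (ENNReal.ofReal_le_ofReal (h4 t ht)), ?_⟩
    intro ω hω G hG
    exact free_of_not_bad hd hG ha0 hsum hω
  choose! E hE1 hE2 using hex
  refine percolates_of_events (E := fun L => if L₀ ≤ L then E L else ∅) hd ?_ (L₀ := L₀) ?_ hG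
  · have hs : Summable fun L : ℕ => ((1 / 2 : ℝ) ^ L) :=
      summable_geometric_of_lt_one (by norm_num) (by norm_num)
    refine ne_top_of_le_ne_top hs.tsum_ofReal_ne_top (ENNReal.tsum_le_tsum fun L => ?_)
    split_ifs with h
    · exact hE1 L h
    · simp
  · intro L hL ω hω
    simp only [hL, if_true] at hω
    exact hE2 L hL ω hω

/-- The crude bad event: no point of degree at least `M` in the cube, or many points nearby. -/
def BadTot (P : Set (Eu d)) (D : Eu d → ℕ) (M L : ℕ) : Prop :=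
  cnt P D (cell L (0 : Fin d → ℤ) ×ˢ Set.Ici M) = 0 ∨
  ∃ c' ∈ near (2 * d) (0 : Fin d → ℤ),
    ((4 * 2 ^ (L * d) : ℕ) : ℕ∞) ≤ cnt P D (cell L c' ×ˢ Set.Ici 0)

lemma free_of_not_badTot (hd : 1 ≤ d) {P : Set (Eu d)} {D : Eu d → ℕ} {G : SimpleGraph (Eu d)}
    (h : IsStableMultiMatching P D G) {L : ℕ}
    (hbad : ¬ BadTot P D ((4 * d + 1) ^ d * (4 * 2 ^ (L * d))) L) :
    ∃ x ∈ P, x ∈ cell L (0 : Fin d → ℤ) ∧ Free G x (rad d (L + 1)) := by
  unfold BadTot at hbad
  push Not at hbad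
  obtain ⟨h1, h2⟩ := hbad
  unfold cnt at h1
  obtain ⟨x, hxP, hxc⟩ := Set.encard_ne_zero.1 h1
  refine ⟨x, hxP, hxc.1, ?_⟩
  by_contra hfree
  have hM : (4 * d + 1) ^ d * (4 * 2 ^ (L * d)) ≤ D x := hxc.2
  have hidx : idx L x = 0 := by
    funext i; exact hxc.1 i
  have hdeg := degree_le hd h hxP 0 L (fun _ => 0) rfl hfree
  rw [hidx] at hdeg
  have hz : ∀ (j : ℕ) (c : Fin d → ℤ), cnt P D (cell j c ×ˢ Set.Ico 0 0) = 0 := by
    intro j c
    unfold cnt
    rw [Set.encard_eq_zero]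
    ext y; simp
  simp only [hz, Nat.cast_zero, add_zero, Finset.sum_const_zero] at hdeg
  have hcard : ∀ c' : Fin d → ℤ, (near (2 * d) c').card = (4 * d + 1) ^ d := by
    intro c'
    rw [card_near, show 2 * (2 * d) + 1 = 4 * d + 1 by ring]
  have hpos : 1 ≤ (4 * d + 1) ^ d := Nat.one_le_pow _ _ (by omega)
  have hfin : (D x : ℕ∞) + 1 ≤ (((4 * d + 1) ^ d * (4 * 2 ^ (L * d)) : ℕ) : ℕ∞) := by
    calc (D x : ℕ∞) + 1
        ≤ ∑ c' ∈ near (2 * d) (0 : Fin d → ℤ), cnt P D (cell L c' ×ˢ Set.Ici 0) +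
            (((4 * d + 1) ^ d : ℕ) : ℕ∞) := by
          refine add_le_add hdeg ?_
          exact_mod_cast hpos
      _ = ∑ c' ∈ near (2 * d) (0 : Fin d → ℤ), (cnt P D (cell L c' ×ˢ Set.Ici 0) + 1) := by
          rw [Finset.sum_add_distrib]
          simp [hcard]
      _ ≤ ∑ c' ∈ near (2 * d) (0 : Fin d → ℤ), ((4 * 2 ^ (L * d) : ℕ) : ℕ∞) :=
          Finset.sum_le_sum fun c' hc' => Order.add_one_le_of_lt (h2 c' hc')
      _ = (((4 * d + 1) ^ d * (4 * 2 ^ (L * d)) : ℕ) : ℕ∞) := by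
          rw [Finset.sum_const, hcard, nsmul_eq_mul]; push_cast; rfl
  have hfin' : D x + 1 ≤ (4 * d + 1) ^ d * (4 * 2 ^ (L * d)) := by exact_mod_cast hfin
  omega

lemma pr_badTot_le (h : MarkedPoisson Pr μ P D) (M L : ℕ) :
    Pr {ω | BadTot (P ω) (D ω) M L} ≤ ENNReal.ofReal
      (Real.exp (-(2 ^ (L * d) * tail μ M)) + ((4 * d + 1) ^ d : ℕ) * (1 / 2) ^ (2 ^ (L * d))) := by
  have hcard : ∀ c' : Fin d → ℤ, (near (2 * d) c').card = (4 * d + 1) ^ d := by
    intro c'
    rw [card_near, show 2 * (2 * d) + 1 = 4 * d + 1 by ring]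
  have hsub : {ω | BadTot (P ω) (D ω) M L} ⊆
      {ω | cnt (P ω) (D ω) (cell L (0 : Fin d → ℤ) ×ˢ Set.Ici M) = 0} ∪
      (⋃ c' ∈ near (2 * d) (0 : Fin d → ℤ),
        {ω | ((4 * 2 ^ (L * d) : ℕ) : ℕ∞) ≤ cnt (P ω) (D ω) (cell L c' ×ˢ Set.Ici 0)}) := by
    rintro ω (h1 | ⟨c', hc', h1⟩)
    · exact Or.inl h1
    · exact Or.inr (Set.mem_biUnion hc' h1)
  refine (measure_mono hsub).trans ((measure_union_le _ _).trans ?_)
  rw [ENNReal.ofReal_add (Real.exp_pos _).le (by positivity)]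
  refine add_le_add ?_ ((measure_biUnion_finset_le _ _).trans ?_)
  · rw [pr_zero h (measurableSet_cellProd _ _ _) (mean_cell_ne_top _ _ _), toReal_mean_cell]
    rfl
  · calc ∑ c' ∈ near (2 * d) (0 : Fin d → ℤ), Pr
          {ω | ((4 * 2 ^ (L * d) : ℕ) : ℕ∞) ≤ cnt (P ω) (D ω) (cell L c' ×ˢ Set.Ici 0)}
        ≤ ∑ c' ∈ near (2 * d) (0 : Fin d → ℤ),
            ENNReal.ofReal ((1 / 2) ^ (2 ^ (L * d))) := by
          refine Finset.sum_le_sum fun c' _ => ?_
          refine pr_tail h (measurableSet_cellProd _ _ _) (mean_cell_ne_top _ _ _) ?_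
          rw [toReal_mean_cell]
          have h1 : Set.Ici (0 : ℕ) = Set.univ := by ext; simp
          rw [h1, measure_univ]
          push_cast
          rw [ENNReal.toReal_one]
          apply le_of_eq; ring
      _ = ENNReal.ofReal (((4 * d + 1) ^ d : ℕ) * (1 / 2) ^ (2 ^ (L * d))) := by
          rw [Finset.sum_const, hcard, nsmul_eq_mul, ← ENNReal.ofReal_natCast,
            ← ENNReal.ofReal_mul (by positivity)]

/-- Percolation for laws with `F(m) ≥ C log log m / m` for large `m`. -/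
theorem percolates_of_loglog (hd : 1 ≤ d)
    (hF : ∀ᶠ m : ℕ in atTop, 8 * (4 * d + 1) ^ d * Real.log (Real.log m) / m ≤ tail μ m)
    (hP : MarkedPoisson Pr μ P D)
    (hG : ∀ᵐ ω ∂Pr, IsStableMultiMatching (P ω) (D ω) (G ω)) :
    ∀ᵐ ω ∂Pr, ∃ x ∈ P ω, {y | (G ω).Reachable x y}.Infinite := by
  obtain ⟨N, hN⟩ := eventually_atTop.1 hF
  have hA1 : 1 ≤ (4 * d + 1) ^ d := Nat.one_le_pow _ _ (by omega)
  set A : ℕ := (4 * d + 1) ^ d with hA
  set L₀ : ℕ := max N 2 with hL₀
  refine percolates_of_events (E := fun L => if L₀ ≤ L then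
    {ω | BadTot (P ω) (D ω) (A * (4 * 2 ^ (L * d))) L} else ∅) hd ?_ (L₀ := L₀) ?_ hG
  · have hs : Summable fun L : ℕ => (1 / (Real.log 2) ^ 2 * (1 / (L : ℝ) ^ 2) +
        (A : ℝ) * (1 / 2) ^ L) := by
      refine Summable.add (Summable.mul_left _ ?_) (Summable.mul_left _ ?_)
      · exact Real.summable_one_div_nat_pow.2 (by norm_num)
      · exact summable_geometric_of_lt_one (by norm_num) (by norm_num)
    refine ne_top_of_le_ne_top hs.tsum_ofReal_ne_top (ENNReal.tsum_le_tsum fun L => ?_)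
    split_ifs with h
    · refine (pr_badTot_le hP _ L).trans (ENNReal.ofReal_le_ofReal ?_)
      have hL2 : 2 ≤ L := (le_max_right _ _).trans h
      have hLN : N ≤ L := (le_max_left _ _).trans h
      have hLlt : L < 2 ^ (L * d) := by
        refine (Nat.lt_two_pow_self).trans_le ?_
        exact Nat.pow_le_pow_right (by norm_num) (Nat.le_mul_of_pos_right _ hd)
      set M : ℕ := A * (4 * 2 ^ (L * d)) with hM
      have hML : 2 ^ L ≤ M := by
        have h1 : 2 ^ L ≤ 2 ^ (L * d) :=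
          Nat.pow_le_pow_right (by norm_num) (Nat.le_mul_of_pos_right _ hd)
        calc 2 ^ L ≤ 2 ^ (L * d) := h1
          _ ≤ 1 * (4 * 2 ^ (L * d)) := by omega
          _ ≤ M := Nat.mul_le_mul_right _ hA1
      have hMN : N ≤ M := by
        have : L < 2 ^ L := Nat.lt_two_pow_self
        omega
      have hM0 : (0 : ℝ) < M := by
        have : 0 < 2 ^ L := by positivity
        exact_mod_cast this.trans_le hML
      have hlog2 : 0 < Real.log 2 := Real.log_pos (by norm_num)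
      have hL0 : (0 : ℝ) < L := by
        have : 0 < L := by omega
        exact_mod_cast this
      have h1 := hN M hMN
      have hlogM : (L : ℝ) * Real.log 2 ≤ Real.log M := by
        rw [← Real.log_pow]
        apply Real.log_le_log (by positivity)
        exact_mod_cast hML
      have hll : Real.log (L * Real.log 2) ≤ Real.log (Real.log M) :=
        Real.log_le_log (by positivity) hlogM
      have h2 : 2 * Real.log (L * Real.log 2) ≤ 2 ^ (L * d) * tail μ M := by
        have h3 : (2 : ℝ) ^ (L * d) * (8 * (A : ℝ) * Real.log (Real.log M) / M) =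
            2 * Real.log (Real.log M) := by
          rw [hM]
          push_cast
          have : (A : ℝ) ≠ 0 := by
            have : 0 < A := hA1
            positivity
          have : (2 : ℝ) ^ (L * d) ≠ 0 := by positivity
          field_simp
          ring
        have h4 : (8 * (A : ℝ) * Real.log (Real.log M) / M) ≤ tail μ M := by
          have := h1
          rw [hA]
          push_cast
          exact this
        calc 2 * Real.log (L * Real.log 2) ≤ 2 * Real.log (Real.log M) := by gcongr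
          _ = 2 ^ (L * d) * (8 * (A : ℝ) * Real.log (Real.log M) / M) := h3.symm
          _ ≤ 2 ^ (L * d) * tail μ M := by gcongr
      refine add_le_add ?_ ?_
      · calc Real.exp (-(2 ^ (L * d) * tail μ M)) ≤ Real.exp (-(2 * Real.log (L * Real.log 2))) :=
              Real.exp_le_exp.2 (by linarith)
          _ = 1 / (Real.log 2) ^ 2 * (1 / (L : ℝ) ^ 2) := by
              have h5 : Real.exp (2 * Real.log (L * Real.log 2)) = (L * Real.log 2) ^ 2 := by
                rw [show (2 : ℝ) * Real.log (L * Real.log 2) =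
                  Real.log ((L * Real.log 2) ^ 2) by rw [Real.log_pow]; push_cast; ring]
                exact Real.exp_log (by positivity)
              rw [Real.exp_neg, h5]
              field_simp
      · rw [← hA]
        refine mul_le_mul_of_nonneg_left ?_ (by positivity)
        exact pow_le_pow_of_le_one (by norm_num) (by norm_num) hLlt.le
    · simp
  · intro L hL ω hω G hG
    simp only [hL, if_true] at hω
    exact free_of_not_badTot hd hG hω

end Pool.Agent.Helper64.Perc
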