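/-
MP_5d439e, row N3 (paramsB), typed by helper26 after the page of helper64.
-/
import Mathlib

open Filter Asymptotics

namespace Pool.Agent.Helper64.Perc

theorem evB_log {b : ℝ} (hb2 : b < 2) (c₁ c₂ : ℝ) :
    ∀ᶠ x : ℝ in atTop, (3 * x ^ (b - 1)) * (c₁ + Real.log x) + c₂ ≤ x / 4 := by
  have h1 : (fun x : ℝ => Real.log x) =o[atTop] fun x : ℝ => x ^ (2 - b) :=
    isLittleO_log_rpow_atTop (by linarith)
  have h2 : ∀ᶠ x : ℝ in atTop, ‖Real.log x‖ ≤ (1 / 24 : ℝ) * ‖x ^ (2 - b)‖ :=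
    h1.bound (by norm_num)
  have h3 : Tendsto (fun x : ℝ => x ^ (2 - b)) atTop atTop :=
    tendsto_rpow_atTop (by linarith)
  have h4 : ∀ᶠ x : ℝ in atTop, 48 * |c₁| ≤ x ^ (2 - b) := h3.eventually_ge_atTop _
  have h5 : ∀ᶠ x : ℝ in atTop, 1 ≤ x := eventually_ge_atTop 1
  have h6 : ∀ᶠ x : ℝ in atTop, 16 * |c₂| ≤ x := eventually_ge_atTop _
  filter_upwards [h2, h4, h5, h6] with x hx2 hx4 hx5 hx6
  have hx0 : (0 : ℝ) < x := by linarith
  have hl : 0 ≤ Real.log x := Real.log_nonneg hx5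
  have hp : 0 < x ^ (2 - b) := Real.rpow_pos_of_pos hx0 _
  have hp1 : 0 < x ^ (b - 1) := Real.rpow_pos_of_pos hx0 _
  rw [Real.norm_eq_abs, Real.norm_eq_abs, abs_of_nonneg hl, abs_of_pos hp] at hx2
  have hc1 : c₁ ≤ (1 / 48 : ℝ) * x ^ (2 - b) := by
    have := le_abs_self c₁
    linarith
  have hc2 : c₂ ≤ (1 / 16 : ℝ) * x := by
    have := le_abs_self c₂
    linarith
  have hsum : c₁ + Real.log x ≤ (1 / 16 : ℝ) * x ^ (2 - b) := by
    linarith
  have hprod : x ^ (b - 1) * x ^ (2 - b) = x := by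
    rw [← Real.rpow_add hx0]
    have : b - 1 + (2 - b) = (1 : ℝ) := by ring
    rw [this, Real.rpow_one]
  calc (3 * x ^ (b - 1)) * (c₁ + Real.log x) + c₂
      ≤ (3 * x ^ (b - 1)) * ((1 / 16 : ℝ) * x ^ (2 - b)) + (1 / 16 : ℝ) * x := by
        apply add_le_add _ hc2
        exact mul_le_mul_of_nonneg_left hsum (by positivity)
    _ = (3 / 16) * (x ^ (b - 1) * x ^ (2 - b)) + (1 / 16 : ℝ) * x := by ring
    _ = (3 / 16) * x + (1 / 16 : ℝ) * x := by rw [hprod]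
    _ = x / 4 := by ring

theorem evB_poly (c : ℝ) (n : ℕ) :
    ∀ᶠ x : ℝ in atTop, c * x ^ n ≤ Real.exp (x / 4) := by
  have h1 : (fun x : ℝ => x ^ n) =o[atTop] fun x : ℝ => Real.exp ((1 / 4 : ℝ) * x) :=
    isLittleO_pow_exp_pos_mul_atTop n (by norm_num)
  have h2 : ∀ᶠ x : ℝ in atTop, ‖x ^ n‖ ≤ (1 / (|c| + 1) : ℝ) * ‖Real.exp ((1 / 4 : ℝ) * x)‖ :=
    h1.bound (by positivity)
  have h5 : ∀ᶠ x : ℝ in atTop, 1 ≤ x := eventually_ge_atTop 1
  filter_upwards [h2, h5] with x hx hx5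
  have hx0 : (0 : ℝ) < x := by linarith
  rw [Real.norm_eq_abs, Real.norm_eq_abs, abs_of_nonneg (by positivity),
    abs_of_pos (Real.exp_pos _)] at hx
  have e : (1 / 4 : ℝ) * x = x / 4 := by ring
  rw [e] at hx
  have hc : 0 < |c| + 1 := by positivity
  have h3 : (|c| + 1) * x ^ n ≤ Real.exp (x / 4) := by
    have := mul_le_mul_of_nonneg_left hx hc.le
    rwa [← mul_assoc, mul_one_div_cancel hc.ne', one_mul] at this
  have h4 : c * x ^ n ≤ (|c| + 1) * x ^ n := by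
    apply mul_le_mul_of_nonneg_right _ (by positivity)
    have := le_abs_self c
    linarith
  linarith

theorem evB {b : ℝ} (hb2 : b < 2) (A d : ℕ) {δ : ℝ} (hδ : 0 < δ) :
    ∀ᶠ x : ℝ in atTop, 1 ≤ x ∧
      (3 * x ^ (b - 1)) * (Real.log (192 * A) + Real.log x) + Real.log (144 * A) ≤ x / 4 ∧
      640 * A * x ^ 2 ≤ Real.exp (x / 4) ∧
      Real.log (3 / δ) ≤ Real.exp (x / 4) / 2 ^ d ∧
      6 * x ≤ Real.exp (x / 4) ∧
      40 * A * Real.exp (-x) ≤ δ / 3 := by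
  have h1 : ∀ᶠ x : ℝ in atTop, 1 ≤ x := eventually_ge_atTop 1
  have h2 := evB_log hb2 (Real.log (192 * A)) (Real.log (144 * A))
  have h3 := evB_poly (640 * A) 2
  have h5 := evB_poly 6 1
  have h4 := evB_poly (2 ^ d * |Real.log (3 / δ)|) 0
  have h6 : ∀ᶠ x : ℝ in atTop, 40 * (A : ℝ) * Real.exp (-x) ≤ δ / 3 := by
    have : Tendsto (fun x : ℝ => 40 * (A : ℝ) * Real.exp (-x)) atTop (nhds (40 * (A : ℝ) * 0)) :=
      (Real.tendsto_exp_neg_atTop_nhds_zero).const_mul _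
    rw [mul_zero] at this
    exact this.eventually_le_const (by positivity)
  filter_upwards [h1, h2, h3, h4, h5, h6] with x h1 h2 h3 h4 h5 h6
  refine ⟨h1, h2, h3, ?_, by simpa using h5, h6⟩
  rw [pow_zero, mul_one] at h4
  rw [le_div_iff₀ (by positivity)]
  have := le_abs_self (Real.log (3 / δ))
  calc Real.log (3 / δ) * 2 ^ d ≤ |Real.log (3 / δ)| * 2 ^ d :=
        mul_le_mul_of_nonneg_right this (by positivity)
    _ = 2 ^ d * |Real.log (3 / δ)| := by ring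
    _ ≤ _ := h4

theorem half_pow_le {t : ℕ} {x : ℝ} (h6 : 6 * x ≤ Real.exp (x / 4))
    (ht : Real.exp (x / 4) < (t : ℝ) + 1) : ((1 : ℝ) / 2) ^ t ≤ 2 * Real.exp (-(3 * x)) := by
  have hl2 : (1 / 2 : ℝ) < Real.log 2 := by
    have := Real.log_two_gt_d9
    linarith
  have e1 : ((1 : ℝ) / 2) ^ t = 2 * (1 / 2) ^ (t + 1) := by
    rw [pow_succ]; ring
  have e2 : ((1 : ℝ) / 2) ^ (t + 1) = Real.exp (-(((t : ℝ) + 1) * Real.log 2)) := by
    rw [Real.exp_neg]
    have : ((t : ℝ) + 1) * Real.log 2 = ((t + 1 : ℕ) : ℝ) * Real.log 2 := by push_cast; ring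
    rw [this, Real.exp_nat_mul, Real.exp_log (by norm_num : (0 : ℝ) < 2), one_div, inv_pow]
  rw [e1, e2]
  apply mul_le_mul_of_nonneg_left _ (by norm_num)
  apply Real.exp_le_exp.mpr
  have ht0 : (0 : ℝ) ≤ (t : ℝ) + 1 := by positivity
  nlinarith

theorem paramsB_core {d A : ℕ} (hd : 1 ≤ d) (hA : 1 ≤ A) {b : ℝ} (hb1 : 3 / 2 ≤ b) (hb2 : b < 2)
    {δ : ℝ} (hδ : 0 < δ) {F : ℕ → ℝ} (hF0 : ∀ m, 0 ≤ F m) (hF1 : ∀ m, F m ≤ 1)
    {k : ℕ} (hk : 1 ≤ k) {x : ℝ} (hx : x = Real.log k) (h1 : 1 ≤ x)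
    (h2 : (3 * x ^ (b - 1)) * (Real.log (192 * A) + Real.log x) + Real.log (144 * A) ≤ x / 4)
    (h3 : 640 * A * x ^ 2 ≤ Real.exp (x / 4))
    (h4 : Real.log (3 / δ) ≤ Real.exp (x / 4) / 2 ^ d)
    (h5 : 6 * x ≤ Real.exp (x / 4))
    (h6 : 40 * A * Real.exp (-x) ≤ δ / 3)
    (hFk : Real.exp (-x ^ b) ≤ F k) :
      ∃ q M L : ℕ, 1 ≤ q ∧
        (∀ m : ℕ, 1 ≤ m → m ≤ M → F m ≤ 1 * ((M : ℝ) / m) ^ q * F M) ∧
        2 ^ (L * d) * F M ≤ M / (144 * A * 1 * (64 * A * q) ^ q) ∧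
        64 * A * (L + 2) ≤ M ∧
        ∀ t : ℕ, M < 64 * A * (L + 2) * (t + 1) →
          Real.exp (-(2 ^ (L * d) * F M)) + A * (1 / 2) ^ t +
            A * (2 ^ (L * d) * F M * (L + 1)) * (1 / 2) ^ t ≤ δ := by
  have hx0 : (0 : ℝ) < x := by linarith
  have hkR : (0 : ℝ) < k := by exact_mod_cast hk
  have hkx : (k : ℝ) = Real.exp x := by rw [hx, Real.exp_log hkR]
  have hAR : (1 : ℝ) ≤ A := by exact_mod_cast hA
  have hr1 : 1 ≤ x ^ (b - 1) := Real.one_le_rpow h1 (by linarith)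
  have hr2 : x ^ (b - 1) ≤ x := by
    have := Real.rpow_le_rpow_of_exponent_le h1 (by linarith : b - 1 ≤ 1)
    rwa [Real.rpow_one] at this
  have hr3 : x ^ b = x ^ (b - 1) * x := by
    rw [← Real.rpow_add_one hx0.ne']
    congr 1
    ring
  obtain ⟨q, hqdef⟩ : ∃ q : ℕ, q = ⌈2 * x ^ (b - 1)⌉₊ := ⟨_, rfl⟩
  have hqlow : 2 * x ^ (b - 1) ≤ q := by rw [hqdef]; exact Nat.le_ceil _
  have hqup : (q : ℝ) ≤ 3 * x ^ (b - 1) := by
    have := Nat.ceil_lt_add_one (by positivity : (0 : ℝ) ≤ 2 * x ^ (b - 1))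
    rw [← hqdef] at this
    linarith
  have hq : 1 ≤ q := by
    have : (1 : ℝ) ≤ q := by linarith
    exact_mod_cast this
  have hqR : (1 : ℝ) ≤ q := by exact_mod_cast hq
  obtain ⟨M, hM, hmax⟩ := (Finset.Icc 1 k).exists_max_image (fun m : ℕ => (m : ℝ) ^ q * F m)
    ⟨1, Finset.mem_Icc.mpr ⟨le_refl _, hk⟩⟩
  obtain ⟨hM1, hMk⟩ := Finset.mem_Icc.mp hM
  have hMR : (1 : ℝ) ≤ M := by exact_mod_cast hM1
  have hMkR : (M : ℝ) ≤ Real.exp x := by rw [← hkx]; exact_mod_cast hMk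
  -- the maximum is large
  have hbig : Real.exp (q * (x / 2)) ≤ (M : ℝ) ^ q * F M := by
    have e1 : (k : ℝ) ^ q * F k ≤ (M : ℝ) ^ q * F M :=
      hmax k (Finset.mem_Icc.mpr ⟨hk, le_refl _⟩)
    have e2 : (k : ℝ) ^ q = Real.exp (q * x) := by rw [hkx, Real.exp_nat_mul]
    have e3 : Real.exp (q * x) * Real.exp (-x ^ b) ≤ (k : ℝ) ^ q * F k := by
      rw [e2]
      exact mul_le_mul_of_nonneg_left hFk (Real.exp_pos _).le
    rw [← Real.exp_add] at e3
    refine le_trans (Real.exp_le_exp.mpr ?_) (e3.trans e1)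
    rw [hr3]
    have e4 : 2 * x ^ (b - 1) * x ≤ q * x := mul_le_mul_of_nonneg_right hqlow hx0.le
    linarith
  have hMqpos : (0 : ℝ) < (M : ℝ) ^ q := by positivity
  have hone : 1 ≤ (M : ℝ) ^ q * F M := by
    refine le_trans ?_ hbig
    rw [← Real.exp_zero]
    exact Real.exp_le_exp.mpr (by positivity)
  have hFM : 0 < F M := by
    rcases (hF0 M).lt_or_eq with h | h
    · exact h
    · rw [← h, mul_zero] at hone
      linarith
  have hMlow : Real.exp (x / 2) ≤ M := by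
    have e1 : Real.exp (x / 2) ^ q ≤ (M : ℝ) ^ q := by
      rw [← Real.exp_nat_mul]
      refine hbig.trans ?_
      have := mul_le_mul_of_nonneg_left (hF1 M) hMqpos.le
      linarith
    exact le_of_pow_le_pow_left₀ (by omega) (by positivity) e1
  -- the constant
  obtain ⟨K, hKdef⟩ : ∃ K : ℝ, K = 144 * A * 1 * (64 * A * q) ^ q := ⟨_, rfl⟩
  have hK1 : 1 ≤ K := by
    rw [hKdef]
    have e0 : (1 : ℝ) ≤ A * q := one_le_mul_of_one_le_of_one_le hAR hqR
    have e1 : (1 : ℝ) ≤ 64 * A * q := by linarith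
    have e2 : (1 : ℝ) ≤ (64 * A * q) ^ q := one_le_pow₀ e1
    exact one_le_mul_of_one_le_of_one_le (by linarith) e2
  have hKup : K ≤ Real.exp (x / 4) := by
    have hK0 : 0 < K := by linarith
    rw [← Real.log_le_iff_le_exp hK0, hKdef, mul_one,
      Real.log_mul (by positivity) (by positivity), Real.log_pow]
    have e1 : Real.log (64 * A * q) ≤ Real.log (192 * A) + Real.log x := by
      rw [← Real.log_mul (by positivity) (by positivity)]
      apply Real.log_le_log (by positivity)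
      have f1 : (q : ℝ) ≤ 3 * x := by linarith
      calc 64 * (A : ℝ) * q ≤ 64 * A * (3 * x) := mul_le_mul_of_nonneg_left f1 (by positivity)
        _ = 192 * A * x := by ring
    have e2 : 0 ≤ Real.log (192 * A) + Real.log x := by
      apply add_nonneg
      · apply Real.log_nonneg
        linarith
      · exact Real.log_nonneg h1
    have e3 : (q : ℝ) * Real.log (64 * A * q) ≤
        (3 * x ^ (b - 1)) * (Real.log (192 * A) + Real.log x) := by
      calc (q : ℝ) * Real.log (64 * A * q) ≤ q * (Real.log (192 * A) + Real.log x) :=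
            mul_le_mul_of_nonneg_left e1 (by positivity)
        _ ≤ _ := mul_le_mul_of_nonneg_right hqup e2
    linarith
  have hE0 : 0 < Real.exp (x / 4) := Real.exp_pos _
  have hE2 : Real.exp (x / 4) * Real.exp (x / 4) = Real.exp (x / 2) := by
    rw [← Real.exp_add]
    congr 1
    ring
  have hK0 : 0 < K := by linarith
  have hMK : Real.exp (x / 4) ≤ M / K := by
    rw [le_div_iff₀ hK0]
    calc Real.exp (x / 4) * K ≤ Real.exp (x / 4) * Real.exp (x / 4) :=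
          mul_le_mul_of_nonneg_left hKup hE0.le
      _ = Real.exp (x / 2) := hE2
      _ ≤ M := hMlow
  have hE1 : 1 ≤ Real.exp (x / 4) := Real.one_le_exp (by positivity)
  -- the choice of L
  have hP0 : (2 : ℝ) ^ (0 * d) * F M ≤ M / K := by
    rw [zero_mul, pow_zero, one_mul]
    exact (hF1 M).trans (hE1.trans hMK)
  have hex : ∃ N : ℕ, ¬ ((2 : ℝ) ^ (N * d) * F M ≤ M / K) := by
    obtain ⟨N, hN⟩ := pow_unbounded_of_one_lt ((M : ℝ) / K / F M) (by norm_num : (1 : ℝ) < 2)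
    refine ⟨N, ?_⟩
    rw [not_le]
    rw [div_lt_iff₀ hFM] at hN
    refine hN.trans_le ?_
    apply mul_le_mul_of_nonneg_right _ hFM.le
    exact pow_le_pow_right₀ (by norm_num) (Nat.le_mul_of_pos_right _ hd)
  classical
  obtain ⟨L, hL1, hL2⟩ : ∃ L : ℕ, ((2 : ℝ) ^ (L * d) * F M ≤ M / K) ∧
      ¬ ((2 : ℝ) ^ ((L + 1) * d) * F M ≤ M / K) := by
    have hspec := Nat.find_spec hex
    have hmin := @Nat.find_min _ _ hex
    rcases Nat.eq_zero_or_pos (Nat.find hex) with h | h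
    · rw [h] at hspec
      exact absurd hP0 hspec
    · refine ⟨Nat.find hex - 1, ?_, ?_⟩
      · have := hmin (m := Nat.find hex - 1) (by omega)
        exact not_not.mp this
      · rw [Nat.sub_add_cancel h]
        exact hspec
  rw [not_le] at hL2
  obtain ⟨X, hX⟩ : ∃ X : ℝ, X = 2 ^ (L * d) * F M := ⟨_, rfl⟩
  have hX0 : 0 ≤ X := by rw [hX]; positivity
  have hXlow : Real.exp (x / 4) / 2 ^ d ≤ X := by
    rw [div_le_iff₀ (by positivity)]
    have e1 : (2 : ℝ) ^ ((L + 1) * d) * F M = X * 2 ^ d := by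
      rw [hX, add_mul, one_mul, pow_add]; ring
    rw [e1] at hL2
    linarith
  have hXM : X ≤ M := by
    rw [hX]
    refine hL1.trans ?_
    rw [div_le_iff₀ hK0]
    exact le_mul_of_one_le_right (by positivity) hK1
  have hXup : X ≤ Real.exp x := hXM.trans hMkR
  -- the bound for L
  have hLup : (L : ℝ) + 2 ≤ 10 * x ^ 2 := by
    have e0 : (2 : ℝ) ^ L ≤ 2 ^ (L * d) := by
      exact pow_le_pow_right₀ (by norm_num) (Nat.le_mul_of_pos_right _ hd)
    have e1 : (2 : ℝ) ^ (L * d) ≤ (M : ℝ) ^ (q + 1) := by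
      have f1 : (2 : ℝ) ^ (L * d) * F M ≤ M := by rw [← hX]; exact hXM
      have f2 : (2 : ℝ) ^ (L * d) * ((M : ℝ) ^ q * F M) ≤ M ^ q * M := by
        calc (2 : ℝ) ^ (L * d) * ((M : ℝ) ^ q * F M) = M ^ q * (2 ^ (L * d) * F M) := by ring
          _ ≤ _ := mul_le_mul_of_nonneg_left f1 hMqpos.le
      have f3 : (2 : ℝ) ^ (L * d) * 1 ≤ 2 ^ (L * d) * ((M : ℝ) ^ q * F M) :=
        mul_le_mul_of_nonneg_left hone (by positivity)
      rw [pow_succ]
      linarith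
    have e2 : (M : ℝ) ^ (q + 1) ≤ Real.exp (((q : ℝ) + 1) * x) := by
      have : ((q : ℝ) + 1) * x = ((q + 1 : ℕ) : ℝ) * x := by push_cast; ring
      rw [this, Real.exp_nat_mul]
      exact pow_le_pow_left₀ (by positivity) hMkR _
    have e3 : (L : ℝ) * Real.log 2 ≤ ((q : ℝ) + 1) * x := by
      have := Real.log_le_log (by positivity) (e0.trans (e1.trans e2))
      rwa [Real.log_pow, Real.log_exp] at this
    have hl2 : (1 / 2 : ℝ) < Real.log 2 := by
      have := Real.log_two_gt_d9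
      linarith
    have e4 : (L : ℝ) ≤ 2 * (((q : ℝ) + 1) * x) := by
      have : (L : ℝ) * (1 / 2) ≤ L * Real.log 2 :=
        mul_le_mul_of_nonneg_left hl2.le (by positivity)
      linarith
    have e5 : (q : ℝ) ≤ 3 * x := by linarith
    have e6 : ((q : ℝ) + 1) * x ≤ (3 * x + 1) * x := mul_le_mul_of_nonneg_right (by linarith) hx0.le
    have e7 : x ≤ x * x := le_mul_of_one_le_left hx0.le h1
    have e8 : (3 * x + 1) * x = 3 * (x * x) + x := by ring
    rw [sq]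
    linarith
  have hcR : 64 * A * ((L : ℝ) + 2) ≤ Real.exp (x / 4) := by
    refine le_trans ?_ h3
    calc 64 * A * ((L : ℝ) + 2) ≤ 64 * A * (10 * x ^ 2) :=
          mul_le_mul_of_nonneg_left hLup (by positivity)
      _ = 640 * A * x ^ 2 := by ring
  have hE3 : Real.exp (x / 4) ≤ Real.exp (x / 2) := Real.exp_le_exp.mpr (by linarith)
  refine ⟨q, M, L, hq, ?_, ?_, ?_, ?_⟩
  · intro m hm1 hmM
    have hm0 : (0 : ℝ) < m := by exact_mod_cast hm1
    have e1 : (m : ℝ) ^ q * F m ≤ (M : ℝ) ^ q * F M :=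
      hmax m (Finset.mem_Icc.mpr ⟨hm1, hmM.trans hMk⟩)
    rw [one_mul, div_pow, div_mul_eq_mul_div, le_div_iff₀ (by positivity)]
    linarith
  · rw [← hKdef]
    exact hL1
  · have : 64 * (A : ℝ) * ((L : ℝ) + 2) ≤ M := hcR.trans (hE3.trans hMlow)
    exact_mod_cast this
  · intro t ht
    have htR : (M : ℝ) < 64 * A * ((L : ℝ) + 2) * ((t : ℝ) + 1) := by exact_mod_cast ht
    have ht0 : (0 : ℝ) < (t : ℝ) + 1 := by positivity
    have e1 : Real.exp (x / 4) < (t : ℝ) + 1 := by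
      have f1 : 64 * A * ((L : ℝ) + 2) * ((t : ℝ) + 1) ≤ Real.exp (x / 4) * ((t : ℝ) + 1) :=
        mul_le_mul_of_nonneg_right hcR ht0.le
      have f2 : Real.exp (x / 4) * Real.exp (x / 4) < Real.exp (x / 4) * ((t : ℝ) + 1) := by
        rw [hE2]
        linarith
      exact lt_of_mul_lt_mul_left f2 hE0.le
    have e2 := half_pow_le h5 e1
    rw [← hX]
    have g1 : Real.exp (-X) ≤ δ / 3 := by
      have : Real.exp (-X) ≤ Real.exp (-(Real.log (3 / δ))) := by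
        apply Real.exp_le_exp.mpr
        linarith
      refine this.trans (le_of_eq ?_)
      rw [Real.exp_neg, Real.exp_log (by positivity), inv_div]
    have hxe : x ^ 2 ≤ 2 * Real.exp x := by
      have := Real.quadratic_le_exp_of_nonneg hx0.le
      linarith
    have g2 : (A : ℝ) * (1 / 2) ^ t ≤ δ / 3 := by
      have f1 : Real.exp (-(3 * x)) ≤ Real.exp (-x) := Real.exp_le_exp.mpr (by linarith)
      have f2 : (A : ℝ) * (1 / 2) ^ t ≤ A * (2 * Real.exp (-x)) :=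
        mul_le_mul_of_nonneg_left (e2.trans (by linarith)) (by positivity)
      have f3 : 0 ≤ (A : ℝ) * Real.exp (-x) := by positivity
      linarith
    have g3 : (A : ℝ) * (X * (L + 1)) * (1 / 2) ^ t ≤ δ / 3 := by
      have f1 : X * ((L : ℝ) + 1) ≤ Real.exp x * (20 * Real.exp x) := by
        apply mul_le_mul hXup _ (by positivity) (by positivity)
        linarith
      have f2 : (A : ℝ) * (X * (L + 1)) * (1 / 2) ^ t ≤
          (A * (Real.exp x * (20 * Real.exp x))) * (2 * Real.exp (-(3 * x))) := by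
        apply mul_le_mul _ e2 (by positivity) (by positivity)
        exact mul_le_mul_of_nonneg_left f1 (by positivity)
      refine f2.trans (le_trans (le_of_eq ?_) h6)
      have f3 : Real.exp (-(3 * x)) = Real.exp (-x) * (Real.exp (-x) * Real.exp (-x)) := by
        rw [← Real.exp_add, ← Real.exp_add]
        congr 1
        ring
      have f4 : Real.exp x * Real.exp (-x) = 1 := by
        rw [← Real.exp_add, add_neg_cancel, Real.exp_zero]
      rw [f3]
      calc (A * (Real.exp x * (20 * Real.exp x))) *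
            (2 * (Real.exp (-x) * (Real.exp (-x) * Real.exp (-x))))
          = 40 * A * Real.exp (-x) * ((Real.exp x * Real.exp (-x)) *
            (Real.exp x * Real.exp (-x))) := by ring
        _ = 40 * A * Real.exp (-x) := by rw [f4]; ring
    linarith

/-- Row N3: numbers for one long edge length, uniformly in the tail `F`. -/
theorem paramsB {d A : ℕ} (hd : 1 ≤ d) (hA : 1 ≤ A) {β : ℝ} (hβ : β < 2) {δ : ℝ} (hδ : 0 < δ) :
    ∃ k₀ : ℕ, ∀ F : ℕ → ℝ, Antitone F → (∀ m, 0 ≤ F m) → (∀ m, F m ≤ 1) → ∀ k : ℕ, k₀ ≤ k →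
      Real.exp (-(Real.log k) ^ β) ≤ F k →
      ∃ q M L : ℕ, 1 ≤ q ∧
        (∀ m : ℕ, 1 ≤ m → m ≤ M → F m ≤ 1 * ((M : ℝ) / m) ^ q * F M) ∧
        2 ^ (L * d) * F M ≤ M / (144 * A * 1 * (64 * A * q) ^ q) ∧
        64 * A * (L + 2) ≤ M ∧
        ∀ t : ℕ, M < 64 * A * (L + 2) * (t + 1) →
          Real.exp (-(2 ^ (L * d) * F M)) + A * (1 / 2) ^ t +
            A * (2 ^ (L * d) * F M * (L + 1)) * (1 / 2) ^ t ≤ δ := by
  have hb1 : (3 / 2 : ℝ) ≤ max β (3 / 2) := le_max_right _ _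
  have hb2 : max β (3 / 2 : ℝ) < 2 := max_lt hβ (by norm_num)
  have hev := evB hb2 A d hδ
  have hlog : Tendsto (fun k : ℕ => Real.log (k : ℝ)) atTop atTop :=
    Real.tendsto_log_atTop.comp tendsto_natCast_atTop_atTop
  have hev2 := (hlog.eventually hev).and (eventually_ge_atTop 1)
  obtain ⟨k₀, hk₀⟩ := eventually_atTop.mp hev2
  refine ⟨k₀, fun F _ hF0 hF1 k hk hFk => ?_⟩
  obtain ⟨⟨h1, h2, h3, h4, h5, h6⟩, hk1⟩ := hk₀ k hk
  refine paramsB_core hd hA hb1 hb2 hδ hF0 hF1 hk1 rfl h1 h2 h3 h4 h5 h6 ?_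
  refine le_trans (Real.exp_le_exp.mpr ?_) hFk
  apply neg_le_neg
  exact Real.rpow_le_rpow_of_exponent_le h1 (le_max_left _ _)

end Pool.Agent.Helper64.Perc
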