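import Mathlib

/-!
Blocks of the square lattice: definitions.
-/

namespace Pool.Agent.Helper64.Perc

/-- Neighbouring cells (sup distance at most 1). -/
def nb (u v : ℤ × ℤ) : Prop := |u.1 - v.1| ≤ 1 ∧ |u.2 - v.2| ≤ 1
/-- Cells at sup distance larger than `R`. -/
def far (R : ℕ) (u v : ℤ × ℤ) : Prop := (R : ℤ) < |u.1 - v.1| ∨ (R : ℤ) < |u.2 - v.2|
/-- the `l * l` sub-blocks of the block `b` -/
noncomputable def subs (l : ℕ) (b : ℤ × ℤ) : Finset (ℤ × ℤ) :=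
  Finset.Ico (l * b.1) (l * b.1 + l) ×ˢ Finset.Ico (l * b.2) (l * b.2 + l)
/-- block of level 0: bad if in `B`; of level n+1: bad if it has two far bad sub-blocks -/
def BadBlock (l R : ℕ) (B : Set (ℤ × ℤ)) : ℕ → ℤ × ℤ → Prop
  | 0, c => c ∈ B
  | n + 1, b => ∃ u ∈ subs l b, ∃ v ∈ subs l b, far R u v ∧ BadBlock l R B n u ∧ BadBlock l R B n v
/-- a step between neighbouring good cells -/
def GoodStep (B : Set (ℤ × ℤ)) (u v : ℤ × ℤ) : Prop := u ∉ B ∧ v ∉ B ∧ nb u v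

end Pool.Agent.Helper64.Perc
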