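import Mathlib
import Pool.Agent.Helper64.Perc.RenormDef

/-!
# Deterministic two-dimensional renormalisation

If from some level on all blocks near the origin are good, then there is an infinite set of good
cells, any two of which are joined by a path of neighbouring good cells.

In a good block of level `n + 1` the bad sub-blocks are pairwise close, so of two far columns (rows)
of sub-blocks at least one contains good sub-blocks only.  The crossing of a good column and a good
row represents the block, and the representatives of neighbouring good blocks are joined by a path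
of good sub-blocks.
-/

namespace Pool.Agent.Helper64.Perc

namespace RD

variable {l R : ℕ} {B : Set (ℤ × ℤ)}

/-- Four-neighbours, both good at level `n`. -/
def St (l R : ℕ) (B : Set (ℤ × ℤ)) (n : ℕ) (u v : ℤ × ℤ) : Prop :=
  ¬ BadBlock l R B n u ∧ ¬ BadBlock l R B n v ∧
    (v = (u.1 + 1, u.2) ∨ u = (v.1 + 1, v.2) ∨ v = (u.1, u.2 + 1) ∨ u = (v.1, v.2 + 1))

theorem St.symm {n : ℕ} {u v : ℤ × ℤ} (h : St l R B n u v) : St l R B n v u := by
  obtain ⟨h1, h2, h3⟩ := h
  refine ⟨h2, h1, ?_⟩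
  tauto

theorem rtg_symm {n : ℕ} {u v : ℤ × ℤ} (h : Relation.ReflTransGen (St l R B n) u v) :
    Relation.ReflTransGen (St l R B n) v u := by
  induction h with
  | refl => exact Relation.ReflTransGen.refl
  | tail _ hs ih => exact Relation.ReflTransGen.head hs.symm ih

/-- A path along a row of good blocks. -/
theorem row_aux {n : ℕ} {j : ℤ} (a : ℤ) (k : ℕ)
    (h : ∀ x, a ≤ x → x ≤ a + k → ¬ BadBlock l R B n (x, j)) :
    Relation.ReflTransGen (St l R B n) (a, j) (a + k, j) := by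
  induction k with
  | zero => simpa using Relation.ReflTransGen.refl
  | succ k ih =>
    refine Relation.ReflTransGen.tail (ih (fun x h1 h2 => h x h1 (by push_cast; linarith))) ?_
    refine ⟨h _ (by linarith [Int.natCast_nonneg k]) (by push_cast; linarith),
      h _ (by push_cast; linarith [Int.natCast_nonneg k]) (by push_cast; linarith), ?_⟩
    left
    simp only [Prod.mk.injEq, and_true]
    push_cast
    ring

/-- A path along a column of good blocks. -/
theorem col_aux {n : ℕ} {i : ℤ} (a : ℤ) (k : ℕ)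
    (h : ∀ y, a ≤ y → y ≤ a + k → ¬ BadBlock l R B n (i, y)) :
    Relation.ReflTransGen (St l R B n) (i, a) (i, a + k) := by
  induction k with
  | zero => simpa using Relation.ReflTransGen.refl
  | succ k ih =>
    refine Relation.ReflTransGen.tail (ih (fun x h1 h2 => h x h1 (by push_cast; linarith))) ?_
    refine ⟨h _ (by linarith [Int.natCast_nonneg k]) (by push_cast; linarith),
      h _ (by push_cast; linarith [Int.natCast_nonneg k]) (by push_cast; linarith), ?_⟩
    right; right; left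
    simp only [Prod.mk.injEq, true_and]
    push_cast
    ring

theorem row_path {n : ℕ} {j p q a c : ℤ} (h : ∀ x, p ≤ x → x < q → ¬ BadBlock l R B n (x, j))
    (ha : p ≤ a) (ha' : a < q) (hc : p ≤ c) (hc' : c < q) :
    Relation.ReflTransGen (St l R B n) (a, j) (c, j) := by
  rcases le_total a c with hac | hac
  · obtain ⟨k, rfl⟩ := Int.le.dest hac
    exact row_aux a k (fun x h1 h2 => h x (by linarith) (by linarith))
  · obtain ⟨k, rfl⟩ := Int.le.dest hac
    exact rtg_symm (row_aux c k (fun x h1 h2 => h x (by linarith) (by linarith)))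

theorem col_path {n : ℕ} {i p q a c : ℤ} (h : ∀ y, p ≤ y → y < q → ¬ BadBlock l R B n (i, y))
    (ha : p ≤ a) (ha' : a < q) (hc : p ≤ c) (hc' : c < q) :
    Relation.ReflTransGen (St l R B n) (i, a) (i, c) := by
  rcases le_total a c with hac | hac
  · obtain ⟨k, rfl⟩ := Int.le.dest hac
    exact col_aux a k (fun x h1 h2 => h x (by linarith) (by linarith))
  · obtain ⟨k, rfl⟩ := Int.le.dest hac
    exact rtg_symm (col_aux c k (fun x h1 h2 => h x (by linarith) (by linarith)))

theorem mem_subs {b u : ℤ × ℤ} : u ∈ subs l b ↔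
    ((l : ℤ) * b.1 ≤ u.1 ∧ u.1 < l * b.1 + l) ∧ ((l : ℤ) * b.2 ≤ u.2 ∧ u.2 < l * b.2 + l) := by
  simp [subs, Finset.mem_product, Finset.mem_Ico]

/-- The column `i` of sub-blocks of `b` is good. -/
def GCol (l R : ℕ) (B : Set (ℤ × ℤ)) (n : ℕ) (b : ℤ × ℤ) (i : ℤ) : Prop :=
  ∀ y, (l : ℤ) * b.2 ≤ y → y < l * b.2 + l → ¬ BadBlock l R B n (i, y)

/-- The row `j` of sub-blocks of `b` is good. -/
def GRow (l R : ℕ) (B : Set (ℤ × ℤ)) (n : ℕ) (b : ℤ × ℤ) (j : ℤ) : Prop :=
  ∀ x, (l : ℤ) * b.1 ≤ x → x < l * b.1 + l → ¬ BadBlock l R B n (x, j)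

/-- Of two far columns of a good block one is good. -/
theorem gcol_or {n : ℕ} {b : ℤ × ℤ} (hb : ¬ BadBlock l R B (n + 1) b) {i i' : ℤ}
    (h1 : (l : ℤ) * b.1 ≤ i) (h2 : i < l * b.1 + l) (h1' : (l : ℤ) * b.1 ≤ i')
    (h2' : i' < l * b.1 + l) (hf : (R : ℤ) < i' - i) :
    GCol l R B n b i ∨ GCol l R B n b i' := by
  by_contra hcon
  push Not at hcon
  obtain ⟨hc1, hc2⟩ := hcon
  unfold GCol at hc1 hc2
  push Not at hc1 hc2
  obtain ⟨y, hy1, hy2, hy3⟩ := hc1
  obtain ⟨y', hy1', hy2', hy3'⟩ := hc2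
  refine hb ⟨(i, y), mem_subs.2 ⟨⟨h1, h2⟩, ⟨hy1, hy2⟩⟩, (i', y'),
    mem_subs.2 ⟨⟨h1', h2'⟩, ⟨hy1', hy2'⟩⟩, ?_, hy3, hy3'⟩
  left
  show (R : ℤ) < |i - i'|
  rw [abs_sub_comm]
  exact lt_of_lt_of_le hf (le_abs_self _)

/-- Of two far rows of a good block one is good. -/
theorem grow_or {n : ℕ} {b : ℤ × ℤ} (hb : ¬ BadBlock l R B (n + 1) b) {j j' : ℤ}
    (h1 : (l : ℤ) * b.2 ≤ j) (h2 : j < l * b.2 + l) (h1' : (l : ℤ) * b.2 ≤ j')
    (h2' : j' < l * b.2 + l) (hf : (R : ℤ) < j' - j) :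
    GRow l R B n b j ∨ GRow l R B n b j' := by
  by_contra hcon
  push Not at hcon
  obtain ⟨hc1, hc2⟩ := hcon
  unfold GRow at hc1 hc2
  push Not at hc1 hc2
  obtain ⟨y, hy1, hy2, hy3⟩ := hc1
  obtain ⟨y', hy1', hy2', hy3'⟩ := hc2
  refine hb ⟨(y, j), mem_subs.2 ⟨⟨hy1, hy2⟩, ⟨h1, h2⟩⟩, (y', j'),
    mem_subs.2 ⟨⟨hy1', hy2'⟩, ⟨h1', h2'⟩⟩, ?_, hy3, hy3'⟩
  right
  show (R : ℤ) < |j - j'|
  rw [abs_sub_comm]
  exact lt_of_lt_of_le hf (le_abs_self _)

/-- The crossing of a good column and a good row. -/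
def IsCross (l R : ℕ) (B : Set (ℤ × ℤ)) (n : ℕ) (b u : ℤ × ℤ) : Prop :=
  u ∈ subs l b ∧ GCol l R B n b u.1 ∧ GRow l R B n b u.2

theorem exists_cross (hl : 2 * R + 10 ≤ l) {n : ℕ} {b : ℤ × ℤ} (hb : ¬ BadBlock l R B (n + 1) b) :
    ∃ u, IsCross l R B n b u := by
  have hl' : (2 : ℤ) * R + 10 ≤ l := by exact_mod_cast hl
  have hR : (0 : ℤ) ≤ R := Int.natCast_nonneg R
  have hc : ∃ i, ((l : ℤ) * b.1 ≤ i ∧ i < l * b.1 + l) ∧ GCol l R B n b i := by
    rcases gcol_or (i := l * b.1) (i' := l * b.1 + (R + 1)) hb (by linarith) (by linarith)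
      (by linarith) (by linarith) (by linarith) with h | h
    · exact ⟨_, ⟨by linarith, by linarith⟩, h⟩
    · exact ⟨_, ⟨by linarith, by linarith⟩, h⟩
  have hr : ∃ j, ((l : ℤ) * b.2 ≤ j ∧ j < l * b.2 + l) ∧ GRow l R B n b j := by
    rcases grow_or (j := l * b.2) (j' := l * b.2 + (R + 1)) hb (by linarith) (by linarith)
      (by linarith) (by linarith) (by linarith) with h | h
    · exact ⟨_, ⟨by linarith, by linarith⟩, h⟩
    · exact ⟨_, ⟨by linarith, by linarith⟩, h⟩
  obtain ⟨i, hi, hi'⟩ := hc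
  obtain ⟨j, hj, hj'⟩ := hr
  exact ⟨(i, j), mem_subs.2 ⟨hi, hj⟩, hi', hj'⟩

/-- From a crossing to any block of a good row. -/
theorem cross_to_row {n : ℕ} {b u : ℤ × ℤ} (hu : IsCross l R B n b u) {j : ℤ}
    (hj : (l : ℤ) * b.2 ≤ j ∧ j < l * b.2 + l) (hr : GRow l R B n b j) {x : ℤ}
    (hx : (l : ℤ) * b.1 ≤ x ∧ x < l * b.1 + l) :
    Relation.ReflTransGen (St l R B n) u (x, j) := by
  obtain ⟨hm, hc, -⟩ := hu
  obtain ⟨⟨a1, a2⟩, a3, a4⟩ := mem_subs.1 hm
  have p1 : Relation.ReflTransGen (St l R B n) (u.1, u.2) (u.1, j) :=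
    col_path hc a3 a4 hj.1 hj.2
  have p2 : Relation.ReflTransGen (St l R B n) (u.1, j) (x, j) :=
    row_path hr a1 a2 hx.1 hx.2
  exact p1.trans p2

/-- From a crossing to any block of a good column. -/
theorem cross_to_col {n : ℕ} {b u : ℤ × ℤ} (hu : IsCross l R B n b u) {i : ℤ}
    (hi : (l : ℤ) * b.1 ≤ i ∧ i < l * b.1 + l) (hc : GCol l R B n b i) {y : ℤ}
    (hy : (l : ℤ) * b.2 ≤ y ∧ y < l * b.2 + l) :
    Relation.ReflTransGen (St l R B n) u (i, y) := by
  obtain ⟨hm, -, hr⟩ := hu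
  obtain ⟨⟨a1, a2⟩, a3, a4⟩ := mem_subs.1 hm
  have p1 : Relation.ReflTransGen (St l R B n) (u.1, u.2) (i, u.2) :=
    row_path hr a1 a2 hi.1 hi.2
  have p2 : Relation.ReflTransGen (St l R B n) (i, u.2) (i, y) :=
    col_path hc a3 a4 hy.1 hy.2
  exact p1.trans p2

/-- Crossings of two horizontally neighbouring good blocks are joined. -/
theorem cross_right (hl : 2 * R + 10 ≤ l) {n : ℕ} {b : ℤ × ℤ}
    (hb : ¬ BadBlock l R B (n + 1) b) (hb' : ¬ BadBlock l R B (n + 1) (b.1 + 1, b.2))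
    {u v : ℤ × ℤ} (hu : IsCross l R B n b u) (hv : IsCross l R B n (b.1 + 1, b.2) v) :
    Relation.ReflTransGen (St l R B n) u v := by
  have hl' : (2 : ℤ) * R + 10 ≤ l := by exact_mod_cast hl
  have hR : (0 : ℤ) ≤ R := Int.natCast_nonneg R
  -- a common good row
  have key : ∃ j, ((l : ℤ) * b.2 ≤ j ∧ j < l * b.2 + l) ∧ GRow l R B n b j ∧
      GRow l R B n (b.1 + 1, b.2) j := by
    by_contra hcon
    push Not at hcon
    have q0 := hcon (l * b.2) ⟨by linarith, by linarith⟩
    have q1 := hcon (l * b.2 + (R + 1)) ⟨by linarith, by linarith⟩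
    have q2 := hcon (l * b.2 + 2 * (R + 1)) ⟨by linarith, by linarith⟩
    have e01 := grow_or (j := l * b.2) (j' := l * b.2 + (R + 1)) hb (by linarith) (by linarith)
      (by linarith) (by linarith) (by linarith)
    have e02 := grow_or (j := l * b.2) (j' := l * b.2 + 2 * (R + 1)) hb (by linarith) (by linarith)
      (by linarith) (by linarith) (by linarith)
    have e12 := grow_or (j := l * b.2 + (R + 1)) (j' := l * b.2 + 2 * (R + 1)) hb (by linarith)
      (by linarith) (by linarith) (by linarith) (by linarith)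
    have f01 := grow_or (b := (b.1 + 1, b.2)) (j := l * b.2) (j' := l * b.2 + (R + 1)) hb'
      (by show (l : ℤ) * b.2 ≤ _; linarith) (by show _ < (l : ℤ) * b.2 + l; linarith)
      (by show (l : ℤ) * b.2 ≤ _; linarith) (by show _ < (l : ℤ) * b.2 + l; linarith)
      (by linarith)
    have f02 := grow_or (b := (b.1 + 1, b.2)) (j := l * b.2) (j' := l * b.2 + 2 * (R + 1)) hb'
      (by show (l : ℤ) * b.2 ≤ _; linarith) (by show _ < (l : ℤ) * b.2 + l; linarith)
      (by show (l : ℤ) * b.2 ≤ _; linarith) (by show _ < (l : ℤ) * b.2 + l; linarith)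
      (by linarith)
    have f12 := grow_or (b := (b.1 + 1, b.2)) (j := l * b.2 + (R + 1))
      (j' := l * b.2 + 2 * (R + 1)) hb'
      (by show (l : ℤ) * b.2 ≤ _; linarith) (by show _ < (l : ℤ) * b.2 + l; linarith)
      (by show (l : ℤ) * b.2 ≤ _; linarith) (by show _ < (l : ℤ) * b.2 + l; linarith)
      (by linarith)
    tauto
  obtain ⟨j, hj, r1, r2⟩ := key
  have p1 := cross_to_row hu hj r1 (x := l * b.1 + l - 1) ⟨by linarith, by linarith⟩
  have p2 := cross_to_row hv (j := j) hj r2 (x := l * (b.1 + 1))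
    ⟨le_refl _, by show (l : ℤ) * (b.1 + 1) < l * (b.1 + 1) + l; linarith⟩
  have st : St l R B n ((l : ℤ) * b.1 + l - 1, j) ((l : ℤ) * (b.1 + 1), j) := by
    refine ⟨r1 _ (by linarith) (by linarith), r2 _ (le_refl _)
      (by show (l : ℤ) * (b.1 + 1) < l * (b.1 + 1) + l; linarith), Or.inl ?_⟩
    simp only [Prod.mk.injEq, and_true]
    ring
  exact (p1.tail st).trans (rtg_symm p2)

/-- Crossings of two vertically neighbouring good blocks are joined. -/
theorem cross_up (hl : 2 * R + 10 ≤ l) {n : ℕ} {b : ℤ × ℤ}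
    (hb : ¬ BadBlock l R B (n + 1) b) (hb' : ¬ BadBlock l R B (n + 1) (b.1, b.2 + 1))
    {u v : ℤ × ℤ} (hu : IsCross l R B n b u) (hv : IsCross l R B n (b.1, b.2 + 1) v) :
    Relation.ReflTransGen (St l R B n) u v := by
  have hl' : (2 : ℤ) * R + 10 ≤ l := by exact_mod_cast hl
  have hR : (0 : ℤ) ≤ R := Int.natCast_nonneg R
  -- a common good column
  have key : ∃ i, ((l : ℤ) * b.1 ≤ i ∧ i < l * b.1 + l) ∧ GCol l R B n b i ∧
      GCol l R B n (b.1, b.2 + 1) i := by
    by_contra hcon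
    push Not at hcon
    have q0 := hcon (l * b.1) ⟨by linarith, by linarith⟩
    have q1 := hcon (l * b.1 + (R + 1)) ⟨by linarith, by linarith⟩
    have q2 := hcon (l * b.1 + 2 * (R + 1)) ⟨by linarith, by linarith⟩
    have e01 := gcol_or (i := l * b.1) (i' := l * b.1 + (R + 1)) hb (by linarith) (by linarith)
      (by linarith) (by linarith) (by linarith)
    have e02 := gcol_or (i := l * b.1) (i' := l * b.1 + 2 * (R + 1)) hb (by linarith) (by linarith)
      (by linarith) (by linarith) (by linarith)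
    have e12 := gcol_or (i := l * b.1 + (R + 1)) (i' := l * b.1 + 2 * (R + 1)) hb (by linarith)
      (by linarith) (by linarith) (by linarith) (by linarith)
    have f01 := gcol_or (b := (b.1, b.2 + 1)) (i := l * b.1) (i' := l * b.1 + (R + 1)) hb'
      (by show (l : ℤ) * b.1 ≤ _; linarith) (by show _ < (l : ℤ) * b.1 + l; linarith)
      (by show (l : ℤ) * b.1 ≤ _; linarith) (by show _ < (l : ℤ) * b.1 + l; linarith)
      (by linarith)
    have f02 := gcol_or (b := (b.1, b.2 + 1)) (i := l * b.1) (i' := l * b.1 + 2 * (R + 1)) hb'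
      (by show (l : ℤ) * b.1 ≤ _; linarith) (by show _ < (l : ℤ) * b.1 + l; linarith)
      (by show (l : ℤ) * b.1 ≤ _; linarith) (by show _ < (l : ℤ) * b.1 + l; linarith)
      (by linarith)
    have f12 := gcol_or (b := (b.1, b.2 + 1)) (i := l * b.1 + (R + 1))
      (i' := l * b.1 + 2 * (R + 1)) hb'
      (by show (l : ℤ) * b.1 ≤ _; linarith) (by show _ < (l : ℤ) * b.1 + l; linarith)
      (by show (l : ℤ) * b.1 ≤ _; linarith) (by show _ < (l : ℤ) * b.1 + l; linarith)
      (by linarith)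
    tauto
  obtain ⟨i, hi, r1, r2⟩ := key
  have p1 := cross_to_col hu hi r1 (y := l * b.2 + l - 1) ⟨by linarith, by linarith⟩
  have p2 := cross_to_col hv (i := i) hi r2 (y := l * (b.2 + 1))
    ⟨le_refl _, by show (l : ℤ) * (b.2 + 1) < l * (b.2 + 1) + l; linarith⟩
  have st : St l R B n (i, (l : ℤ) * b.2 + l - 1) (i, (l : ℤ) * (b.2 + 1)) := by
    refine ⟨r1 _ (by linarith) (by linarith), r2 _ (le_refl _)
      (by show (l : ℤ) * (b.2 + 1) < l * (b.2 + 1) + l; linarith), Or.inr (Or.inr (Or.inl ?_))⟩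
    simp only [Prod.mk.injEq, true_and]
    ring
  exact (p1.tail st).trans (rtg_symm p2)

/-- The sub-block which represents a block. -/
noncomputable def cross (l R : ℕ) (B : Set (ℤ × ℤ)) (n : ℕ) (b : ℤ × ℤ) : ℤ × ℤ :=
  open Classical in
  if h : ∃ u, IsCross l R B n b u then h.choose else b

theorem cross_spec (hl : 2 * R + 10 ≤ l) {n : ℕ} {b : ℤ × ℤ}
    (hb : ¬ BadBlock l R B (n + 1) b) : IsCross l R B n b (cross l R B n b) := by
  have h := exists_cross hl hb
  unfold cross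
  rw [dif_pos h]
  exact h.choose_spec

theorem cross_good (hl : 2 * R + 10 ≤ l) {n : ℕ} {b : ℤ × ℤ}
    (hb : ¬ BadBlock l R B (n + 1) b) : ¬ BadBlock l R B n (cross l R B n b) := by
  obtain ⟨hm, hc, -⟩ := cross_spec hl hb
  obtain ⟨-, h3, h4⟩ := mem_subs.1 hm
  exact hc _ h3 h4

/-- A step of level `n + 1` gives a path of level `n` between the crossings. -/
theorem cross_step (hl : 2 * R + 10 ≤ l) {n : ℕ} {b b' : ℤ × ℤ} (h : St l R B (n + 1) b b') :
    Relation.ReflTransGen (St l R B n) (cross l R B n b) (cross l R B n b') := by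
  obtain ⟨h1, h2, h3 | h3 | h3 | h3⟩ := h
  · subst h3
    exact cross_right hl h1 h2 (cross_spec hl h1) (cross_spec hl h2)
  · subst h3
    exact rtg_symm (cross_right hl h2 h1 (cross_spec hl h2) (cross_spec hl h1))
  · subst h3
    exact cross_up hl h1 h2 (cross_spec hl h1) (cross_spec hl h2)
  · subst h3
    exact rtg_symm (cross_up hl h2 h1 (cross_spec hl h2) (cross_spec hl h1))

/-- The cell which represents a block. -/
noncomputable def rep (l R : ℕ) (B : Set (ℤ × ℤ)) : ℕ → ℤ × ℤ → ℤ × ℤ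
  | 0, b => b
  | n + 1, b => rep l R B n (cross l R B n b)

theorem rep_good (hl : 2 * R + 10 ≤ l) (n : ℕ) : ∀ b : ℤ × ℤ, ¬ BadBlock l R B n b →
    rep l R B n b ∉ B := by
  induction n with
  | zero => intro b hb; exact hb
  | succ n ih => intro b hb; exact ih _ (cross_good hl hb)

theorem rep_fst (hl : 2 * R + 10 ≤ l) (n : ℕ) : ∀ b : ℤ × ℤ, ¬ BadBlock l R B n b →
    (l : ℤ) ^ n * b.1 ≤ (rep l R B n b).1 := by
  induction n with
  | zero => intro b _; simp [rep]
  | succ n ih =>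
    intro b hb
    have h1 := ih _ (cross_good hl hb)
    obtain ⟨hm, -, -⟩ := cross_spec hl hb
    obtain ⟨⟨h3, -⟩, -, -⟩ := mem_subs.1 hm
    have h4 : (l : ℤ) ^ n * (l * b.1) ≤ (l : ℤ) ^ n * (cross l R B n b).1 :=
      mul_le_mul_of_nonneg_left h3 (by positivity)
    calc (l : ℤ) ^ (n + 1) * b.1 = (l : ℤ) ^ n * (l * b.1) := by ring
      _ ≤ _ := h4
      _ ≤ _ := h1

/-- Steps of level `n` give paths of good cells. -/
theorem rep_step (hl : 2 * R + 10 ≤ l) (n : ℕ) : ∀ b b' : ℤ × ℤ, St l R B n b b' →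
    Relation.ReflTransGen (GoodStep B) (rep l R B n b) (rep l R B n b') := by
  induction n with
  | zero =>
    intro b b' h
    obtain ⟨h1, h2, h3⟩ := h
    refine Relation.ReflTransGen.single ⟨h1, h2, ?_⟩
    show nb b b'
    rcases h3 with h3 | h3 | h3 | h3 <;> subst h3 <;> constructor <;> simp
  | succ n ih =>
    intro b b' h
    have key : ∀ c c' : ℤ × ℤ, Relation.ReflTransGen (St l R B n) c c' →
        Relation.ReflTransGen (GoodStep B) (rep l R B n c) (rep l R B n c') := by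
      intro c c' hc
      induction hc with
      | refl => exact Relation.ReflTransGen.refl
      | tail _ hs ih' => exact ih'.trans (ih _ _ hs)
    exact key _ _ (cross_step hl h)

theorem rep_path (hl : 2 * R + 10 ≤ l) {n : ℕ} {b b' : ℤ × ℤ}
    (h : Relation.ReflTransGen (St l R B n) b b') :
    Relation.ReflTransGen (GoodStep B) (rep l R B n b) (rep l R B n b') := by
  induction h with
  | refl => exact Relation.ReflTransGen.refl
  | tail _ hs ih' => exact ih'.trans (rep_step hl n _ _ hs)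

theorem goodStep_symm {u v : ℤ × ℤ} (h : GoodStep B u v) : GoodStep B v u := by
  obtain ⟨h1, h2, h3, h4⟩ := h
  refine ⟨h2, h1, ?_, ?_⟩
  · rwa [abs_sub_comm]
  · rwa [abs_sub_comm]

theorem good_rtg_symm {u v : ℤ × ℤ} (h : Relation.ReflTransGen (GoodStep B) u v) :
    Relation.ReflTransGen (GoodStep B) v u := by
  induction h with
  | refl => exact Relation.ReflTransGen.refl
  | tail _ hs ih => exact Relation.ReflTransGen.head (goodStep_symm hs) ih

theorem not_mem_of_rtg {u v : ℤ × ℤ} (hu : u ∉ B) (h : Relation.ReflTransGen (GoodStep B) u v) :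
    v ∉ B := by
  induction h with
  | refl => exact hu
  | tail _ hs _ => exact hs.2.1

/-- The representatives of the blocks at the origin of consecutive levels are joined. -/
theorem rep_origin (hl : 2 * R + 10 ≤ l) {n : ℕ}
    (h0 : ∀ i j : ℤ, 0 ≤ i → i ≤ R + 2 → 0 ≤ j → j ≤ R + 2 → ¬ BadBlock l R B n (i, j))
    (h1 : ¬ BadBlock l R B (n + 1) (0, 0)) :
    Relation.ReflTransGen (GoodStep B) (rep l R B n (0, 0)) (rep l R B (n + 1) (0, 0)) := by
  have hl' : (2 : ℤ) * R + 10 ≤ l := by exact_mod_cast hl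
  have hR : (0 : ℤ) ≤ R := Int.natCast_nonneg R
  have hc : ∃ i : ℤ, (0 ≤ i ∧ i ≤ R + 1) ∧ GCol l R B n (0, 0) i := by
    rcases gcol_or (b := (0, 0)) (i := 0) (i' := R + 1) h1 (by simp) (by simp; linarith)
      (by simp; linarith) (by simp; linarith) (by linarith) with h | h
    · exact ⟨_, ⟨le_refl _, by linarith⟩, h⟩
    · exact ⟨_, ⟨by linarith, le_refl _⟩, h⟩
  obtain ⟨i, ⟨hi1, hi2⟩, hi⟩ := hc
  have p1 : Relation.ReflTransGen (St l R B n) (0, 0) (i, 0) := by
    refine row_path (p := 0) (q := i + 1) (fun x hx1 hx2 => h0 x 0 hx1 (by linarith) (le_refl _)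
      (by linarith)) (le_refl _) (by linarith) hi1 (by linarith)
  have p2 := cross_to_col (cross_spec hl h1) (i := i) (by simp; constructor <;> linarith) hi (y := 0)
    (by simp; linarith)
  exact rep_path hl (p1.trans (rtg_symm p2))

end RD

open RD in
/-- **Deterministic renormalisation.** -/
theorem infinite_of_good {l R : ℕ} (hl : 2 * R + 10 ≤ l) {B : Set (ℤ × ℤ)} {n₀ : ℕ}
    (h : ∀ n, n₀ ≤ n → ∀ i j : ℤ, 0 ≤ i → i ≤ R + 2 → 0 ≤ j → j ≤ R + 2 →
      ¬ BadBlock l R B n (i, j)) :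
    ∃ K : Set (ℤ × ℤ), K.Infinite ∧ (∀ u ∈ K, u ∉ B) ∧
      ∀ u ∈ K, ∀ v ∈ K, Relation.ReflTransGen (GoodStep B) u v := by
  have hl' : (2 : ℤ) * R + 10 ≤ l := by exact_mod_cast hl
  have hR : (0 : ℤ) ≤ R := Int.natCast_nonneg R
  have h00 : ∀ n, n₀ ≤ n → ¬ BadBlock l R B n (0, 0) := fun n hn =>
    h n hn 0 0 (le_refl _) (by linarith) (le_refl _) (by linarith)
  have hchain : ∀ k : ℕ, Relation.ReflTransGen (GoodStep B) (rep l R B n₀ (0, 0))
      (rep l R B (n₀ + k) (0, 0)) := by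
    intro k
    induction k with
    | zero => exact Relation.ReflTransGen.refl
    | succ k ih =>
      exact ih.trans (rep_origin hl (h _ (Nat.le_add_right _ _))
        (h00 (n₀ + k + 1) (by omega)))
  refine ⟨{x | Relation.ReflTransGen (GoodStep B) (rep l R B n₀ (0, 0)) x}, ?_, ?_, ?_⟩
  · -- unbounded first coordinates
    intro hfin
    have hfin' := (hfin.image Prod.fst).bddAbove
    obtain ⟨N, hN⟩ := hfin'
    obtain ⟨k, hk⟩ : ∃ k : ℕ, N < k := ⟨(N + 1).toNat, by omega⟩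
    have hg := h00 (n₀ + k + 1) (by omega)
    have hcs := cross_spec hl hg
    obtain ⟨hm, -, hr⟩ := hcs
    have hm' := mem_subs.1 hm
    have hp := cross_to_row (cross_spec hl hg) (j := (cross l R B (n₀ + k) (0, 0)).2) hm'.2 hr
      (x := (l : ℤ) - 1) (by simp; linarith)
    have hp' := rep_path hl hp
    have hlast : ¬ BadBlock l R B (n₀ + k) ((l : ℤ) - 1, (cross l R B (n₀ + k) (0, 0)).2) :=
      hr _ (by simp; linarith) (by simp)
    have hmem : rep l R B (n₀ + k) ((l : ℤ) - 1, (cross l R B (n₀ + k) (0, 0)).2) ∈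
        {x | Relation.ReflTransGen (GoodStep B) (rep l R B n₀ (0, 0)) x} :=
      (hchain (k + 1)).trans hp'
    have h1 := rep_fst hl _ _ hlast
    have h2 := hN (Set.mem_image_of_mem Prod.fst hmem)
    have h3 : (k : ℤ) < (l : ℤ) ^ (n₀ + k) := by
      have h4 : k < 2 ^ k := Nat.lt_two_pow_self
      have h5 : 2 ^ k ≤ l ^ k := Nat.pow_le_pow_left (by omega) k
      have h6 : l ^ k ≤ l ^ (n₀ + k) := Nat.pow_le_pow_right (by omega) (by omega)
      exact_mod_cast lt_of_lt_of_le h4 (h5.trans h6)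
    have h4 : (l : ℤ) ^ (n₀ + k) * 1 ≤ (l : ℤ) ^ (n₀ + k) * ((l : ℤ) - 1) :=
      mul_le_mul_of_nonneg_left (by linarith) (by positivity)
    simp only at h1 h2
    linarith
  · intro u hu
    exact not_mem_of_rtg (rep_good hl _ _ (h00 n₀ (le_refl _))) hu
  · intro u hu v hv
    exact (good_rtg_symm hu).trans hv

end Pool.Agent.Helper64.Perc
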