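import Pool.Agent.Helper64.Perc.RenormDef

set_option autoImplicit false

/-!
Probability of bad blocks (helper58).
-/

open MeasureTheory ProbabilityTheory Filter

namespace Pool.Agent.Helper64.Perc

/-- The event that a block is bad. -/
def BadEv {Ω : Type} (l R : ℕ) (B : ℤ × ℤ → Set Ω) (n : ℕ) (b : ℤ × ℤ) : Set Ω :=
  {ω | BadBlock l R {c | ω ∈ B c} n b}

/-- The footprint of a block. -/
def Foot {α : Type} (l : ℕ) (S : ℤ × ℤ → Set α) : ℕ → ℤ × ℤ → Set α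
  | 0, b => S b
  | n + 1, b => ⋃ u ∈ subs l b, Foot l S n u

theorem badEv_succ {Ω : Type} (l R : ℕ) (B : ℤ × ℤ → Set Ω) (n : ℕ) (b : ℤ × ℤ) :
    BadEv l R B (n + 1) b
      = ⋃ u ∈ subs l b, ⋃ v ∈ subs l b, ⋃ _ : far R u v, BadEv l R B n u ∩ BadEv l R B n v := by
  ext ω
  simp only [BadEv, BadBlock, Set.mem_ofPred_eq, Set.mem_iUnion, Set.mem_inter_iff, exists_prop]

theorem meas_succ {Ω : Type} [mF : MeasurableSpace Ω] (l R : ℕ) (B : ℤ × ℤ → Set Ω) (n : ℕ)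
    (b : ℤ × ℤ) (h : ∀ u ∈ subs l b, MeasurableSet (BadEv l R B n u)) :
    MeasurableSet (BadEv l R B (n + 1) b) := by
  rw [badEv_succ]
  refine Finset.measurableSet_biUnion _ fun u hu => ?_
  refine Finset.measurableSet_biUnion _ fun v hv => ?_
  refine MeasurableSet.iUnion fun _ => ?_
  exact (h u hu).inter (h v hv)

theorem meas_foot {Ω : Type} {α : Type} {m : α → MeasurableSpace Ω} {l R : ℕ}
    (S : ℤ × ℤ → Set α) (B : ℤ × ℤ → Set Ω)
    (hB : ∀ c, MeasurableSet[⨆ i ∈ S c, m i] (B c)) (n : ℕ) :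
    ∀ b, MeasurableSet[⨆ i ∈ Foot l S n b, m i] (BadEv l R B n b) := by
  induction n with
  | zero =>
    intro b
    exact hB b
  | succ n ih =>
    intro b
    apply meas_succ (mF := ⨆ i ∈ Foot l S (n + 1) b, m i)
    intro u hu
    have hle : (⨆ i ∈ Foot l S n u, m i) ≤ ⨆ i ∈ Foot l S (n + 1) b, m i := by
      apply biSup_mono
      intro i hi
      simp only [Foot, Set.mem_iUnion]
      exact ⟨u, hu, hi⟩
    exact hle _ (ih u)

/-- Cells of a block. -/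
theorem foot_cell {α : Type} {l : ℕ} (S : ℤ × ℤ → Set α) (n : ℕ) :
    ∀ (b : ℤ × ℤ) (i : α), i ∈ Foot l S n b → ∃ c : ℤ × ℤ, i ∈ S c ∧
      ((l : ℤ) ^ n * b.1 ≤ c.1 ∧ c.1 < (l : ℤ) ^ n * b.1 + (l : ℤ) ^ n) ∧
      ((l : ℤ) ^ n * b.2 ≤ c.2 ∧ c.2 < (l : ℤ) ^ n * b.2 + (l : ℤ) ^ n) := by
  induction n with
  | zero =>
    intro b i hi
    refine ⟨b, hi, ?_, ?_⟩ <;> constructor <;> simp
  | succ n ih =>
    intro b i hi
    simp only [Foot, Set.mem_iUnion] at hi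
    obtain ⟨u, hu, hi⟩ := hi
    obtain ⟨c, hc, h1, h2⟩ := ih u i hi
    simp only [subs, Finset.mem_product, Finset.mem_Ico] at hu
    obtain ⟨⟨u1, u2⟩, u3, u4⟩ := hu
    have hl : (0 : ℤ) ≤ (l : ℤ) ^ n := by positivity
    have key : ∀ x y z : ℤ, (l : ℤ) * x ≤ y → y < l * x + l → (l : ℤ) ^ n * y ≤ z →
        z < (l : ℤ) ^ n * y + (l : ℤ) ^ n →
        (l : ℤ) ^ (n + 1) * x ≤ z ∧ z < (l : ℤ) ^ (n + 1) * x + (l : ℤ) ^ (n + 1) := by
      intro x y z a1 a2 a3 a4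
      have b1 : (l : ℤ) ^ n * (l * x) ≤ (l : ℤ) ^ n * y := mul_le_mul_of_nonneg_left a1 hl
      have b2 : (l : ℤ) ^ n * (y + 1) ≤ (l : ℤ) ^ n * (l * x + l) :=
        mul_le_mul_of_nonneg_left (by linarith) hl
      constructor
      · calc (l : ℤ) ^ (n + 1) * x = (l : ℤ) ^ n * (l * x) := by ring
          _ ≤ _ := b1.trans a3
      · calc z < (l : ℤ) ^ n * (y + 1) := by linarith
          _ ≤ (l : ℤ) ^ n * (l * x + l) := b2
          _ = _ := by ring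
    exact ⟨c, hc, key _ _ _ u1 u2 h1.1 h1.2, key _ _ _ u3 u4 h2.1 h2.2⟩

theorem far_cell {l R n : ℕ} (hl : 1 ≤ l) {x y s t : ℤ} (h : (R : ℤ) < |x - y|)
    (hs : (l : ℤ) ^ n * x ≤ s ∧ s < (l : ℤ) ^ n * x + (l : ℤ) ^ n)
    (ht : (l : ℤ) ^ n * y ≤ t ∧ t < (l : ℤ) ^ n * y + (l : ℤ) ^ n) : (R : ℤ) < |s - t| := by
  have hl1 : (1 : ℤ) ≤ (l : ℤ) ^ n := one_le_pow₀ (by exact_mod_cast hl)
  have hR : (0 : ℤ) ≤ R := by positivity
  rcases le_total x y with hxy | hxy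
  · rw [abs_of_nonpos (by linarith)] at h
    have h1 : (l : ℤ) ^ n * R ≤ (l : ℤ) ^ n * (y - x - 1) :=
      mul_le_mul_of_nonneg_left (by linarith) (by linarith)
    have h2 : (R : ℤ) ≤ (l : ℤ) ^ n * R := by nlinarith
    have h3 : (R : ℤ) < t - s := by nlinarith
    have := neg_abs_le (s - t)
    have h4 : t - s ≤ |s - t| := by
      rw [abs_sub_comm]
      exact le_abs_self _
    linarith
  · rw [abs_of_nonneg (by linarith)] at h
    have h1 : (l : ℤ) ^ n * R ≤ (l : ℤ) ^ n * (x - y - 1) :=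
      mul_le_mul_of_nonneg_left (by linarith) (by linarith)
    have h2 : (R : ℤ) ≤ (l : ℤ) ^ n * R := by nlinarith
    have h3 : (R : ℤ) < s - t := by nlinarith
    exact h3.trans_le (le_abs_self _)

theorem foot_disjoint {α : Type} {l R : ℕ} (hl : 1 ≤ l) (S : ℤ × ℤ → Set α)
    (hS : ∀ c c', far R c c' → Disjoint (S c) (S c')) (n : ℕ) {u v : ℤ × ℤ} (h : far R u v) :
    Disjoint (Foot l S n u) (Foot l S n v) := by
  rw [Set.disjoint_left]
  intro i hi hi'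
  obtain ⟨c, hc, h1, h2⟩ := foot_cell S n u i hi
  obtain ⟨c', hc', h1', h2'⟩ := foot_cell S n v i hi'
  have hfar : far R c c' := by
    rcases h with h | h
    · exact Or.inl (far_cell hl h h1 h1')
    · exact Or.inr (far_cell hl h h2 h2')
  exact Set.disjoint_left.1 (hS c c' hfar) hc hc'

theorem card_subs (l : ℕ) (b : ℤ × ℤ) : (subs l b).card = l * l := by
  simp [subs]

theorem bad_bound {Ω : Type} [mΩ : MeasurableSpace Ω] {Pr : Measure Ω} [IsProbabilityMeasure Pr]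
    {α : Type} {m : α → MeasurableSpace Ω} (hm : ∀ i, m i ≤ mΩ) (hind : iIndep m Pr)
    {l R : ℕ} (hl : 1 ≤ l) (S : ℤ × ℤ → Set α) (B : ℤ × ℤ → Set Ω)
    (hS : ∀ c c', far R c c' → Disjoint (S c) (S c'))
    (hB : ∀ c, MeasurableSet[⨆ i ∈ S c, m i] (B c))
    (hδ : ∀ c, Pr (B c) ≤ ENNReal.ofReal (1 / (2 * (l : ℝ) ^ 4))) (n : ℕ) :
    ∀ b, Pr (BadEv l R B n b) ≤ ENNReal.ofReal (1 / (l : ℝ) ^ 4 * (1 / 2) ^ (2 ^ n)) := by
  have hl0 : (0 : ℝ) < l := by exact_mod_cast hl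
  induction n with
  | zero =>
    intro b
    refine (hδ b).trans (ENNReal.ofReal_le_ofReal ?_)
    apply le_of_eq
    rw [pow_zero, pow_one]
    field_simp
  | succ n ih =>
    intro b
    set x : ℝ := 1 / (l : ℝ) ^ 4 * (1 / 2) ^ (2 ^ n) with hx
    have hx0 : 0 ≤ x := by positivity
    have hpair : ∀ u v : ℤ × ℤ, far R u v →
        Pr (BadEv l R B n u ∩ BadEv l R B n v) ≤ ENNReal.ofReal (x * x) := by
      intro u v huv
      have hI := indep_iSup_of_disjoint hm hind (foot_disjoint hl S hS n huv)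
      have h1 := (Indep_iff _ _ _).1 hI _ _ (meas_foot (R := R) S B hB n u)
        (meas_foot (R := R) S B hB n v)
      rw [h1, ENNReal.ofReal_mul hx0]
      exact mul_le_mul' (ih u) (ih v)
    rw [badEv_succ]
    calc Pr (⋃ u ∈ subs l b, ⋃ v ∈ subs l b, ⋃ _ : far R u v, BadEv l R B n u ∩ BadEv l R B n v)
        ≤ ∑ u ∈ subs l b, Pr (⋃ v ∈ subs l b, ⋃ _ : far R u v,
            BadEv l R B n u ∩ BadEv l R B n v) := measure_biUnion_finset_le _ _
      _ ≤ ∑ u ∈ subs l b, ∑ v ∈ subs l b, Pr (⋃ _ : far R u v,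
            BadEv l R B n u ∩ BadEv l R B n v) :=
          Finset.sum_le_sum fun u _ => measure_biUnion_finset_le _ _
      _ ≤ ∑ u ∈ subs l b, ∑ v ∈ subs l b, ENNReal.ofReal (x * x) := by
          refine Finset.sum_le_sum fun u _ => Finset.sum_le_sum fun v _ => ?_
          by_cases huv : far R u v
          · simp only [huv, Set.iUnion_true]
            exact hpair u v huv
          · simp only [huv, Set.iUnion_false, measure_empty]
            exact zero_le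
      _ = ENNReal.ofReal ((l * l) * ((l * l) * (x * x))) := by
          simp only [Finset.sum_const, card_subs, nsmul_eq_mul]
          have : ((l * l : ℕ) : ENNReal) = ENNReal.ofReal ((l : ℝ) * l) := by
            rw [← ENNReal.ofReal_natCast]
            push_cast
            rfl
          rw [this, ← ENNReal.ofReal_mul (by positivity), ← ENNReal.ofReal_mul (by positivity)]
      _ ≤ ENNReal.ofReal (1 / (l : ℝ) ^ 4 * (1 / 2) ^ (2 ^ (n + 1))) := by
          apply ENNReal.ofReal_le_ofReal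
          apply le_of_eq
          rw [hx, pow_succ 2 n, pow_mul]
          field_simp

theorem ae_good_of_le {Ω : Type} [mΩ : MeasurableSpace Ω] {Pr : Measure Ω} [IsProbabilityMeasure Pr]
    {α : Type} {m : α → MeasurableSpace Ω} (hm : ∀ i, m i ≤ mΩ) (hind : iIndep m Pr)
    {l R : ℕ} (hl : 1 ≤ l) (S : ℤ × ℤ → Set α) (B : ℤ × ℤ → Set Ω)
    (hS : ∀ c c', far R c c' → Disjoint (S c) (S c'))
    (hB : ∀ c, MeasurableSet[⨆ i ∈ S c, m i] (B c))
    (hδ : ∀ c, Pr (B c) ≤ ENNReal.ofReal (1 / (2 * (l : ℝ) ^ 4))) :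
    ∀ᵐ ω ∂Pr, ∃ n₀ : ℕ, ∀ n, n₀ ≤ n → ∀ i j : ℤ, 0 ≤ i → i ≤ R + 2 → 0 ≤ j → j ≤ R + 2 →
      ¬ BadBlock l R {c | ω ∈ B c} n (i, j) := by
  have hl0 : (0 : ℝ) < l := by exact_mod_cast hl
  have hl1 : (1 : ℝ) ≤ l := by exact_mod_cast hl
  have hsum : ∀ b : ℤ × ℤ, ∀ᵐ ω ∂Pr, ∀ᶠ n in atTop, ω ∉ BadEv l R B n b := by
    intro b
    apply ae_eventually_notMem
    have h1 : ∀ n, Pr (BadEv l R B n b) ≤ ENNReal.ofReal ((1 / 2) ^ n) := by
      intro n
      refine (bad_bound hm hind hl S B hS hB hδ n b).trans (ENNReal.ofReal_le_ofReal ?_)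
      have h2 : (1 : ℝ) / (l : ℝ) ^ 4 ≤ 1 := by
        rw [div_le_one (by positivity)]
        exact one_le_pow₀ hl1
      have h3 : ((1 : ℝ) / 2) ^ (2 ^ n) ≤ (1 / 2) ^ n :=
        pow_le_pow_of_le_one (by norm_num) (by norm_num) Nat.lt_two_pow_self.le
      have h4 : (0 : ℝ) ≤ (1 / 2) ^ (2 ^ n) := by positivity
      nlinarith
    have h5 : Summable fun n : ℕ => ((1 : ℝ) / 2) ^ n := summable_geometric_two
    refine ne_of_lt (lt_of_le_of_lt (ENNReal.tsum_le_tsum h1) ?_)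
    rw [← ENNReal.ofReal_tsum_of_nonneg (fun n => by positivity) h5]
    exact ENNReal.ofReal_lt_top
  have hall : ∀ᵐ ω ∂Pr, ∀ b : ℤ × ℤ, ∀ᶠ n in atTop, ω ∉ BadEv l R B n b := ae_all_iff.2 hsum
  filter_upwards [hall] with ω hω
  have hfin : ∀ᶠ n in atTop, ∀ b ∈ Finset.Icc (0 : ℤ) (R + 2) ×ˢ Finset.Icc (0 : ℤ) (R + 2),
      ω ∉ BadEv l R B n b := by
    rw [Filter.eventually_all_finset]
    intro b _
    exact hω b
  obtain ⟨n₀, hn₀⟩ := eventually_atTop.1 hfin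
  refine ⟨n₀, ?_⟩
  intro n hn i j hi hi' hj hj'
  exact hn₀ n hn (i, j) (by simp [hi, hi', hj, hj'])

end Pool.Agent.Helper64.Perc
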