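import Pool.Agent.Helper64.Perc.Atoms
import Pool.Agent.Helper64.Perc.RenormDef
import Pool.Agent.Helper64.Perc.RenormDet
import Pool.Agent.Helper64.Perc.RenormPr
import Pool.Agent.Helper64.Perc.NumBox
import Pool.Agent.Helper64.Perc.NumB

/-!
Percolation in dimension at least two from one heavy level: assembly.
-/

open MeasureTheory ProbabilityTheory Filter

namespace Pool.Agent.Helper64.Perc


/-- The plane of cube indices. -/
def emb (d : ℕ) (c : ℤ × ℤ) : Fin d → ℤ :=
  fun i => if (i : ℕ) = 0 then c.1 else if (i : ℕ) = 1 then c.2 else 0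

lemma emb_far {d : ℕ} (hd : 2 ≤ d) {c c' : ℤ × ℤ} (h : far (4 * d) c c') :
    ∃ i, (4 * d : ℤ) < |emb d c i - emb d c' i| := by
  rcases h with h | h
  · refine ⟨⟨0, by omega⟩, ?_⟩
    simpa [emb] using h
  · refine ⟨⟨1, by omega⟩, ?_⟩
    simpa [emb] using h

lemma emb_nb {d : ℕ} {c c' : ℤ × ℤ} (h : nb c c') : emb d c' ∈ near 1 (emb d c) := by
  rw [mem_near]
  intro i
  unfold emb
  rw [abs_sub_comm]
  split_ifs
  · simpa using h.1
  · simpa using h.2
  · simp

lemma emb_injective {d : ℕ} (hd : 2 ≤ d) : Function.Injective (emb d) := by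
  intro c c' h
  have h0 := congrFun h ⟨0, by omega⟩
  have h1 := congrFun h ⟨1, by omega⟩
  simp only [emb, if_true, if_false, one_ne_zero] at h0 h1
  exact Prod.ext h0 h1

/-- Deterministic part of the assembly. -/
lemma infinite_component_of_cells {d : ℕ} (hd : 2 ≤ d) {P : Set (Eu d)} {D : Eu d → ℕ}
    {G : SimpleGraph (Eu d)} (h : IsStableMultiMatching P D G) {L : ℕ} {B : Set (ℤ × ℤ)}
    (hB : ∀ c, c ∉ B → ∃ x ∈ P, x ∈ cell L (emb d c) ∧ Free G x (rad d (L + 1)))
    {K : Set (ℤ × ℤ)} (hK : K.Infinite) (hKB : ∀ u ∈ K, u ∉ B)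
    (hconn : ∀ u ∈ K, ∀ v ∈ K, Relation.ReflTransGen (GoodStep B) u v) :
    ∃ x ∈ P, {y | G.Reachable x y}.Infinite := by
  choose! f hf using hB
  have hstep : ∀ u v, GoodStep B u v → G.Reachable (f u) (f v) := by
    rintro u v ⟨hu, hv, hn⟩
    by_cases he : f u = f v
    · rw [he]
    · obtain ⟨h1, h2, h3⟩ := hf u hu
      obtain ⟨k1, k2, k3⟩ := hf v hv
      have e1 : idx L (f u) = emb d u := by funext i; exact h2 i
      have e2 : idx L (f v) = emb d v := by funext i; exact k2 i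
      have hdist : dist (f u) (f v) < rad d (L + 1) := by
        apply dist_lt_of_near (by omega)
        rw [e1, e2]
        exact emb_nb hn
      exact (adj_of_free h h1 k1 he hdist.le h3 k3).reachable
  have hreach : ∀ u v, Relation.ReflTransGen (GoodStep B) u v → G.Reachable (f u) (f v) := by
    intro u v huv
    induction huv with
    | refl => exact SimpleGraph.Reachable.refl _
    | tail _ h2 ih => exact ih.trans (hstep _ _ h2)
  obtain ⟨u₀, hu₀⟩ := hK.nonempty
  refine ⟨f u₀, (hf u₀ (hKB u₀ hu₀)).1, ?_⟩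
  have hinj : Set.InjOn f K := by
    intro u hu v hv huv
    apply emb_injective hd
    have e1 : idx L (f u) = emb d u := by funext i; exact (hf u (hKB u hu)).2.1 i
    have e2 : idx L (f v) = emb d v := by funext i; exact (hf v (hKB v hv)).2.1 i
    rw [← e1, ← e2, huv]
  refine (hK.image hinj).mono ?_
  rintro _ ⟨u, hu, rfl⟩
  exact hreach u₀ u (hconn u₀ hu₀ u hu)

lemma tail_antitone (μ : Measure ℕ) [IsProbabilityMeasure μ] : Antitone (tail μ) := by
  intro m n hmn
  unfold tail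
  exact ENNReal.toReal_mono (measure_ne_top μ _) (measure_mono (Set.Ici_subset_Ici.2 hmn))

lemma tail_nonneg (μ : Measure ℕ) (m : ℕ) : 0 ≤ tail μ m := ENNReal.toReal_nonneg

lemma tail_le_one (μ : Measure ℕ) [IsProbabilityMeasure μ] (m : ℕ) : tail μ m ≤ 1 := by
  unfold tail
  exact ENNReal.toReal_le_of_le_ofReal zero_le_one (by simpa using prob_le_one)

/-- Percolation in dimension at least two from one heavy level. -/
theorem percolates_of_level {d : ℕ} (hd : 2 ≤ d) {β : ℝ} (hβ : β < 2) :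
    ∃ k₀ : ℕ, ∀ (μ : Measure ℕ) [IsProbabilityMeasure μ] (k : ℕ), k₀ ≤ k →
      Real.exp (-(Real.log k) ^ β) ≤ tail μ k →
      ∀ {Ω : Type} [MeasurableSpace Ω] (Pr : Measure Ω) [IsProbabilityMeasure Pr]
        (P : Ω → Set (Eu d)) (D : Ω → Eu d → ℕ) (G : Ω → SimpleGraph (Eu d)),
        MarkedPoisson Pr μ P D → (∀ᵐ ω ∂Pr, IsStableMultiMatching (P ω) (D ω) (G ω)) →
        ∀ᵐ ω ∂Pr, ∃ x ∈ P ω, {y | (G ω).Reachable x y}.Infinite := by
  set l : ℕ := 8 * d + 10 with hl
  have hl1 : (0 : ℝ) < 1 / (2 * (l : ℝ) ^ 4) := by positivity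
  have hA1 : 1 ≤ (4 * d + 1) ^ d := Nat.one_le_pow _ _ (by omega)
  obtain ⟨k₀, hk₀⟩ := paramsB (d := d) (A := (4 * d + 1) ^ d) (by omega) hA1 hβ hl1
  refine ⟨k₀, ?_⟩
  intro μ _ k hk hF Ω _ Pr _ P D G hP hG
  obtain ⟨q, M, L, hq, h1, h2, h3, h4⟩ := hk₀ (tail μ) (tail_antitone μ) (tail_nonneg μ)
    (tail_le_one μ) k hk hF
  obtain ⟨a, b, bH, t, ha0, haM, hbH, hb, hsum, ht⟩ := box_params (d := d) (by omega) hq
    (le_refl (1 : ℝ)) hA1 (tail_antitone μ) (tail_nonneg μ) (tail_le_one μ) h1 h2 h3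
  set B : ℤ × ℤ → Set Ω := fun c => {ω | BadCell (P ω) (D ω) M L a b bH (emb d c)} with hBdef
  have hgood := ae_good_of_le (m := atomSigma P D M) (fun i => atomSigma_le hP M i)
    (iIndep_atomSigma hP M) (l := l) (R := 4 * d) (by omega)
    (fun c => foot L M (emb d c)) B (fun c c' h => disjoint_foot (emb_far hd h))
    (fun c => measurableSet_badCell M L a b bH (emb d c))
    (fun c => (pr_badCell_le hP hbH hb (emb d c)).trans (ENNReal.ofReal_le_ofReal (h4 t ht)))
  filter_upwards [hgood, hG] with ω hω hGω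
  obtain ⟨n₀, hn₀⟩ := hω
  obtain ⟨K, hK, hKB, hconn⟩ := infinite_of_good (l := l) (R := 4 * d) (by omega) hn₀
  exact infinite_component_of_cells hd hGω
    (fun c hc => free_of_not_bad (by omega) hGω ha0 hsum hc) hK hKB hconn

end Pool.Agent.Helper64.Perc
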